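import Mathlib
set_option autoImplicit false

/-! Sets of degrees with gaps. -/

namespace Pool.Agent.W5h46.LS

/-- gaps at least `c k^(1-δ)` -/
def GapSet (c δ : ℝ) (S : Set ℕ) : Prop :=
  ∀ k ∈ S, ∀ l ∈ S, k < l → c * (k : ℝ) ^ (1 - δ) ≤ (l : ℝ) - k

lemma GapSet.mono {c c' δ : ℝ} {S : Set ℕ} (h : GapSet c δ S) (hc : c' ≤ c) : GapSet c' δ S :=
  fun k hk l hl hkl => (mul_le_mul_of_nonneg_right hc (by positivity)).trans (h k hk l hl hkl)

lemma gap_step {c δ : ℝ} (hc : 0 < c) (hc1 : c ≤ 1) (hδ : 0 < δ) {k l : ℕ} (hk : 0 < k)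
    (hkl : k < l) (h : c * (k : ℝ) ^ (1 - δ) ≤ (l : ℝ) - k) :
    (k : ℝ) ^ δ + δ * c / 2 ≤ (l : ℝ) ^ δ := by
  have hk0 : (0 : ℝ) < k := by exact_mod_cast hk
  have hk1 : (1 : ℝ) ≤ k := by exact_mod_cast hk
  have hl0 : (0 : ℝ) < l := by exact_mod_cast (lt_trans hk hkl)
  have hkd : 0 < (k : ℝ) ^ δ := Real.rpow_pos_of_pos hk0 δ
  set u : ℝ := c / (k : ℝ) ^ δ with hu
  have hu0 : 0 < u := by positivity
  have hu1 : u ≤ 1 := by
    rw [hu, div_le_one hkd]
    exact hc1.trans (Real.one_le_rpow hk1 hδ.le)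
  have h1 : c * (k : ℝ) ^ (1 - δ) = k * u := by
    rw [Real.rpow_sub hk0, Real.rpow_one, hu]
    ring
  have h2 : 1 + u ≤ (l : ℝ) / k := by
    rw [le_div_iff₀ hk0]
    rw [h1] at h
    linarith
  have h3 : u / 2 ≤ Real.log ((l : ℝ) / k) := by
    have h4 : Real.log (1 + u) ≤ Real.log ((l : ℝ) / k) := Real.log_le_log (by linarith) h2
    have h5 := Real.one_sub_inv_le_log_of_pos (show 0 < 1 + u by linarith)
    have h6 : u / 2 ≤ 1 - (1 + u)⁻¹ := by
      have : 1 - (1 + u)⁻¹ = u / (1 + u) := by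
        field_simp
        ring
      rw [this]
      exact div_le_div_of_nonneg_left hu0.le (by linarith) (by linarith)
    linarith
  have h4 : 1 + δ * (u / 2) ≤ ((l : ℝ) / k) ^ δ := by
    rw [Real.rpow_def_of_pos (by positivity)]
    have h5 := Real.add_one_le_exp (Real.log ((l : ℝ) / k) * δ)
    have h6 : δ * (u / 2) ≤ Real.log ((l : ℝ) / k) * δ := by
      rw [mul_comm]
      exact mul_le_mul_of_nonneg_right h3 hδ.le
    linarith
  rw [Real.div_rpow hl0.le hk0.le, le_div_iff₀ hkd] at h4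
  have h5 : (1 + δ * (u / 2)) * (k : ℝ) ^ δ = (k : ℝ) ^ δ + δ * c / 2 := by
    rw [hu]
    field_simp
  linarith

open Classical in
lemma gap_count {c δ : ℝ} (hc : 0 < c) (hc1 : c ≤ 1) (hδ : 0 < δ) {S : Set ℕ} (hS : GapSet c δ S)
    (L : ℕ) (hL : 1 ≤ L) :
    (((Finset.range L).filter (fun k => k ∈ S)).card : ℝ) ≤ (2 + 2 / (δ * c)) * (L : ℝ) ^ δ := by
  have hL1 : (1 : ℝ) ≤ L := by exact_mod_cast hL
  have hLd : 1 ≤ (L : ℝ) ^ δ := Real.one_le_rpow hL1 hδ.le
  set c0 : ℝ := δ * c / 2 with hc0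
  have hc00 : 0 < c0 := by positivity
  set F := (Finset.range L).filter (fun k => k ∈ S) with hF
  have h1 : (F.erase 0).card ≤ (Finset.range (⌊(L : ℝ) ^ δ / c0⌋₊ + 1)).card := by
    apply Finset.card_le_card_of_injOn (fun k : ℕ => ⌊(k : ℝ) ^ δ / c0⌋₊)
    · intro k hk
      rw [Finset.mem_coe, Finset.mem_erase, hF, Finset.mem_filter, Finset.mem_range] at hk
      rw [Finset.mem_coe, Finset.mem_range, Nat.lt_succ_iff]
      apply Nat.floor_le_floor
      apply div_le_div_of_nonneg_right _ hc00.le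
      apply Real.rpow_le_rpow (Nat.cast_nonneg k) _ hδ.le
      exact_mod_cast hk.2.1.le
    · have key : ∀ k l : ℕ, k ∈ F.erase 0 → l ∈ F.erase 0 → k < l →
          ⌊(k : ℝ) ^ δ / c0⌋₊ < ⌊(l : ℝ) ^ δ / c0⌋₊ := by
        intro k l hk hl hkl
        rw [Finset.mem_erase, hF, Finset.mem_filter] at hk hl
        have h2 := gap_step hc hc1 hδ (Nat.pos_of_ne_zero hk.1) hkl (hS k hk.2.2 l hl.2.2 hkl)
        have h3 : (k : ℝ) ^ δ / c0 + 1 ≤ (l : ℝ) ^ δ / c0 := by
          rw [div_add_one hc00.ne', div_le_div_iff_of_pos_right hc00]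
          exact h2
        have h4 := Nat.floor_le_floor h3
        rw [Nat.floor_add_one (by positivity)] at h4
        omega
      intro k hk l hl hkl
      rcases lt_trichotomy k l with h | h | h
      · have := key k l hk hl h
        simp only at hkl
        omega
      · exact h
      · have := key l k hl hk h
        simp only at hkl
        omega
  rw [Finset.card_range] at h1
  have h2 : F.card ≤ (F.erase 0).card + 1 := by
    have := Finset.pred_card_le_card_erase (s := F) (a := 0)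
    omega
  have h3 : (F.card : ℝ) ≤ ⌊(L : ℝ) ^ δ / c0⌋₊ + 1 + 1 := by
    have : F.card ≤ ⌊(L : ℝ) ^ δ / c0⌋₊ + 1 + 1 := by omega
    exact_mod_cast this
  have h4 : (⌊(L : ℝ) ^ δ / c0⌋₊ : ℝ) ≤ (L : ℝ) ^ δ / c0 := Nat.floor_le (by positivity)
  have h5 : (L : ℝ) ^ δ / c0 = 2 / (δ * c) * (L : ℝ) ^ δ := by
    rw [hc0]
    field_simp
  have h6 := h4.trans_eq h5
  linarith

lemma gap_width {c δ : ℝ} (hc : 0 < c) (hc1 : c ≤ 1) (hδ : 0 < δ) (hδ1 : δ ≤ 1) {S : Set ℕ}
    (hS : GapSet c δ S) (N : ℕ) {k : ℕ} (hk : k ∈ S) : ∃ M : ℕ, 0 < M ∧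
    (∀ l ∈ S, l ≠ k → (((N + 2) * (M - 1) : ℕ) : ℤ) < |(l : ℤ) - k|) ∧
    1 + 2 * ((k : ℝ) + 1) / M ≤ (1 + 8 * (N + 2) / c) * ((k : ℝ) + 1) ^ δ := by
  have hN : (0 : ℝ) < (N : ℝ) + 2 := by positivity
  rcases Nat.eq_zero_or_pos k with h0 | h0
  · subst h0
    refine ⟨1, one_pos, ?_, ?_⟩
    · intro l _ hl
      simp only [Nat.sub_self, mul_zero, Nat.cast_zero, sub_zero, abs_pos]
      exact_mod_cast hl
    · push_cast
      rw [zero_add, Real.one_rpow, mul_one, mul_one, div_one]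
      have : 2 ≤ 8 * ((N : ℝ) + 2) / c := by
        rw [le_div_iff₀ hc]
        nlinarith [Nat.cast_nonneg (α := ℝ) N]
      linarith
  have hk0 : (0 : ℝ) < k := by exact_mod_cast h0
  have hk1 : (1 : ℝ) ≤ k := by exact_mod_cast h0
  set W : ℝ := c / 2 * (k : ℝ) ^ (1 - δ) with hW
  have hkp : 0 < (k : ℝ) ^ (1 - δ) := Real.rpow_pos_of_pos hk0 _
  have hW0 : 0 < W := by positivity
  have hkk : (k : ℝ) ^ (1 - δ) ≤ k := by
    calc (k : ℝ) ^ (1 - δ) ≤ (k : ℝ) ^ (1 : ℝ) :=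
          Real.rpow_le_rpow_of_exponent_le hk1 (by linarith)
      _ = k := Real.rpow_one _
  refine ⟨⌈W / (N + 2)⌉₊, Nat.ceil_pos.mpr (by positivity), ?_, ?_⟩
  · intro l hl hlk
    set M := ⌈W / (N + 2)⌉₊ with hM
    have hMpos : 0 < M := Nat.ceil_pos.mpr (by positivity)
    have h1 : ((M - 1 : ℕ) : ℝ) < W / (N + 2) := by
      have := Nat.ceil_lt_add_one (show 0 ≤ W / ((N : ℝ) + 2) by positivity)
      rw [← hM] at this
      rw [Nat.cast_sub hMpos]
      push_cast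
      linarith
    have h2 : (((N + 2) * (M - 1) : ℕ) : ℝ) < W := by
      rw [lt_div_iff₀ hN] at h1
      push_cast
      linarith
    have h3 : W ≤ |(l : ℝ) - k| := by
      rcases lt_or_gt_of_ne hlk with h | h
      · -- l < k
        have h4 := hS l hl k hk h
        have hlk' : (l : ℝ) < k := by exact_mod_cast h
        rw [abs_sub_comm, abs_of_pos (by linarith)]
        rcases le_or_gt ((k : ℝ) / 2) l with h5 | h5
        · have h6 : ((k : ℝ) / 2) ^ (1 - δ) ≤ (l : ℝ) ^ (1 - δ) :=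
            Real.rpow_le_rpow (by positivity) h5 (by linarith)
          have h7 : (k : ℝ) ^ (1 - δ) / 2 ≤ ((k : ℝ) / 2) ^ (1 - δ) := by
            rw [Real.div_rpow hk0.le (by norm_num)]
            apply div_le_div_of_nonneg_left hkp.le (by positivity)
            calc (2 : ℝ) ^ (1 - δ) ≤ (2 : ℝ) ^ (1 : ℝ) :=
                  Real.rpow_le_rpow_of_exponent_le (by norm_num) (by linarith)
              _ = 2 := Real.rpow_one _
          have h8 : c * ((k : ℝ) ^ (1 - δ) / 2) ≤ c * (l : ℝ) ^ (1 - δ) :=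
            mul_le_mul_of_nonneg_left (h7.trans h6) hc.le
          rw [hW]
          linarith
        · rw [hW]
          nlinarith
      · -- k < l
        have h4 := hS k hk l hl h
        have hlk' : (k : ℝ) < l := by exact_mod_cast h
        rw [abs_of_pos (by linarith)]
        rw [hW]
        have : 0 < c * (k : ℝ) ^ (1 - δ) := by positivity
        linarith
    have h4 := lt_of_lt_of_le h2 h3
    have h5 : (((((N + 2) * (M - 1) : ℕ) : ℤ)) : ℝ) < ((|(l : ℤ) - k| : ℤ) : ℝ) := by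
      push_cast
      push_cast at h4
      exact h4
    exact_mod_cast h5
  · set M := ⌈W / (N + 2)⌉₊ with hM
    have hMpos : 0 < M := Nat.ceil_pos.mpr (by positivity)
    have hM0 : (0 : ℝ) < M := by exact_mod_cast hMpos
    have h1 : W / (N + 2) ≤ M := Nat.le_ceil _
    have h2 : 2 * ((k : ℝ) + 1) / M ≤ 8 * (N + 2) / c * (k : ℝ) ^ δ := by
      have h3 : 2 * ((k : ℝ) + 1) / M ≤ 4 * k / (W / (N + 2)) :=
        div_le_div₀ (by positivity) (by linarith) (by positivity) h1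
      refine h3.trans (le_of_eq ?_)
      rw [hW, Real.rpow_sub hk0, Real.rpow_one]
      field_simp
      ring
    have h3 : (k : ℝ) ^ δ ≤ ((k : ℝ) + 1) ^ δ :=
      Real.rpow_le_rpow hk0.le (by linarith) hδ.le
    have h4 : 1 ≤ ((k : ℝ) + 1) ^ δ := Real.one_le_rpow (by linarith) hδ.le
    have h5 : 8 * ((N : ℝ) + 2) / c * (k : ℝ) ^ δ ≤ 8 * ((N : ℝ) + 2) / c * ((k : ℝ) + 1) ^ δ :=
      mul_le_mul_of_nonneg_left h3 (by positivity)
    rw [add_mul, one_mul]
    linarith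

end Pool.Agent.W5h46.LS
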