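import Mathlib
set_option autoImplicit false

/-! Gegenbauer polynomials: recursion, generating function and elementary bounds. -/

namespace Pool.Agent.W5h46.LS

open Finset

/-- binomial coefficients `(l)_a / a!` -/
noncomputable def uu (l : ℝ) : ℕ → ℝ
  | 0 => 1
  | a + 1 => uu l a * ((a + l) / (a + 1))

lemma uu_pos {l : ℝ} (hl : 0 < l) (a : ℕ) : 0 < uu l a := by
  induction a with
  | zero => simp [uu]
  | succ a ih => rw [uu]; positivity

lemma uu_succ (l : ℝ) (a : ℕ) : ((a : ℝ) + 1) * uu l (a + 1) = (a + l) * uu l a := by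
  rw [uu]
  field_simp

lemma uu_le {l : ℝ} (hl : 0 < l) {m : ℕ} (hm : l ≤ m) (a : ℕ) : uu l a ≤ ((a : ℝ) + 1) ^ m := by
  induction a with
  | zero => simp [uu]
  | succ a ih =>
    have h1 : (1 : ℝ) + m * (1 / ((a : ℝ) + 1)) ≤ (1 + 1 / ((a : ℝ) + 1)) ^ m := by
      apply one_add_mul_le_pow
      have : (0 : ℝ) ≤ 1 / ((a : ℝ) + 1) := by positivity
      linarith
    have h2 : (((a + 1 : ℕ) : ℝ) + 1) ^ m = ((a : ℝ) + 1) ^ m * (1 + 1 / ((a : ℝ) + 1)) ^ m := by
      rw [← mul_pow]
      congr 1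
      push_cast
      field_simp
    have h3 : ((a : ℝ) + l) / (a + 1) ≤ 1 + m * (1 / ((a : ℝ) + 1)) := by
      rw [div_le_iff₀ (by positivity)]
      have : (1 + (m : ℝ) * (1 / ((a : ℝ) + 1))) * (a + 1) = a + 1 + m := by
        field_simp
      rw [this]
      linarith
    rw [uu, h2]
    apply mul_le_mul ih (h3.trans h1) (by positivity) (by positivity)

/-- Gegenbauer polynomials. -/
noncomputable def Cg (l t : ℝ) : ℕ → ℝ
  | 0 => 1
  | 1 => 2 * l * t
  | (k + 2) => (2 * (k + 1 + l) * t * Cg l t (k + 1) - (k + 2 * l) * Cg l t k) / (k + 2)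

lemma Cg_rec (l t : ℝ) (k : ℕ) : ((k : ℝ) + 2) * Cg l t (k + 2) =
    2 * (k + 1 + l) * t * Cg l t (k + 1) - (k + 2 * l) * Cg l t k := by
  rw [Cg]
  field_simp

section gen
open PowerSeries

variable (l : ℝ) (w : ℂ)

/-- `∑ uu a w^a X^a`. -/
noncomputable def US : PowerSeries ℂ := PowerSeries.mk fun a => (uu l a : ℂ) * w ^ a

lemma US_ode : (1 - PowerSeries.C w * X) * (derivative ℂ (US l w)) =
    PowerSeries.C ((l : ℂ) * w) * US l w := by
  ext k
  rw [sub_mul, one_mul, map_sub, mul_assoc, coeff_C_mul, coeff_C_mul, coeff_derivative, US, coeff_mk,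
    coeff_mk]
  have h := uu_succ l k
  have h' : ((k : ℂ) + 1) * (uu l (k + 1) : ℂ) = (k + l) * (uu l k : ℂ) := by exact_mod_cast h
  cases k with
  | zero =>
    simp [uu]
  | succ k =>
    rw [coeff_succ_X_mul, coeff_derivative, coeff_mk]
    have e : (uu l (k + 1 + 1) : ℂ) * w ^ (k + 1 + 1) * (((k + 1 : ℕ) : ℂ) + 1) =
      (((k + 1 : ℕ) : ℂ) + 1) * (uu l (k + 1 + 1) : ℂ) * w ^ (k + 1 + 1) := by ring
    rw [e, h']
    push_cast
    ring

lemma GS_coeff (l t : ℝ) (w v : ℂ) (hwv : w * v = 1) (hs : w + v = 2 * t) (k : ℕ) :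
    coeff k (US l w * US l v) = (Cg l t k : ℂ) := by
  have h1 := US_ode l w
  have h2 := US_ode l v
  have hC : PowerSeries.C w + PowerSeries.C v = PowerSeries.C (2 * (t : ℂ)) := by
    rw [← map_add, hs]
  have hC2 : PowerSeries.C w * PowerSeries.C v = (1 : PowerSeries ℂ) := by
    rw [← map_mul, hwv, map_one]
  set G := US l w * US l v with hG
  have hode : (1 - PowerSeries.C (2 * (t : ℂ)) * X + X ^ 2) * derivative ℂ G =
      PowerSeries.C (l : ℂ) * (PowerSeries.C (2 * (t : ℂ)) - 2 * X) * G := by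
    have e1 : derivative ℂ G = US l w * derivative ℂ (US l v) + US l v * derivative ℂ (US l w) := by
      rw [hG, Derivation.leibniz, smul_eq_mul, smul_eq_mul]
    have e2 : (1 : PowerSeries ℂ) - PowerSeries.C (2 * (t : ℂ)) * X + X ^ 2 =
        (1 - PowerSeries.C w * X) * (1 - PowerSeries.C v * X) := by
      rw [← hC]
      linear_combination (-X ^ 2) * hC2
    rw [e1, e2]
    calc (1 - PowerSeries.C w * X) * (1 - PowerSeries.C v * X) *
        (US l w * derivative ℂ (US l v) + US l v * derivative ℂ (US l w))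
        = (1 - PowerSeries.C w * X) * US l w * ((1 - PowerSeries.C v * X) * derivative ℂ (US l v))
          + (1 - PowerSeries.C v * X) * US l v * ((1 - PowerSeries.C w * X) *
            derivative ℂ (US l w)) := by ring
      _ = _ := by
        rw [h1, h2, map_mul, map_mul, ← hC]
        linear_combination (-2 * X * PowerSeries.C (l : ℂ) * G) * hC2
  have key : ∀ m : ℕ, ((m : ℂ) + 2) * coeff (m + 2) G =
      2 * (m + 1 + l) * t * coeff (m + 1) G - (m + 2 * l) * coeff m G := by
    intro m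
    have h := congrArg (coeff (m + 1)) hode
    have e3 : (1 - PowerSeries.C (2 * (t : ℂ)) * X + X ^ 2) * derivative ℂ G =
        derivative ℂ G - PowerSeries.C (2 * (t : ℂ)) * (X * derivative ℂ G) +
          X * (X * derivative ℂ G) := by ring
    have e4 : PowerSeries.C (l : ℂ) * (PowerSeries.C (2 * (t : ℂ)) - 2 * X) * G =
        PowerSeries.C (l : ℂ) * (PowerSeries.C (2 * (t : ℂ)) * G) -
          PowerSeries.C (2 * (l : ℂ)) * (X * G) := by
      rw [map_mul PowerSeries.C 2 (l : ℂ)]
      have : PowerSeries.C (2 : ℂ) = (2 : PowerSeries ℂ) := by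
        exact map_ofNat PowerSeries.C 2
      rw [this]
      ring
    rw [e3, e4] at h
    simp only [map_add, map_sub, coeff_C_mul, coeff_succ_X_mul, coeff_derivative] at h
    cases m with
    | zero =>
      simp only [coeff_zero_X_mul] at h
      push_cast at h ⊢
      linear_combination h
    | succ m =>
      rw [coeff_succ_X_mul, coeff_derivative] at h
      push_cast at h ⊢
      linear_combination h
  have h0 : coeff 0 G = 1 := by
    rw [hG, coeff_mul]
    simp [US, uu]
  have h1' : coeff 1 G = 2 * l * t := by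
    rw [hG, coeff_mul]
    have : antidiagonal 1 = {(0, 1), (1, 0)} := by rfl
    rw [this, sum_insert (by simp), sum_singleton]
    simp [US, uu]
    linear_combination (l : ℂ) * hs
  induction k using Nat.strong_induction_on with
  | _ k ih =>
    match k, ih with
    | 0, _ => rw [h0, Cg]; simp
    | 1, _ => rw [h1', Cg]; push_cast; ring
    | k + 2, ih =>
      have a1 := key k
      rw [ih (k + 1) (by omega), ih k (by omega)] at a1
      have a2 := Cg_rec l t k
      have a3 : ((k : ℂ) + 2) * (Cg l t (k + 2) : ℂ) =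
          2 * (k + 1 + l) * t * (Cg l t (k + 1) : ℂ) - (k + 2 * l) * (Cg l t k : ℂ) := by
        exact_mod_cast congrArg (fun x : ℝ => (x : ℂ)) a2
      rw [← a3] at a1
      have : ((k : ℂ) + 2) ≠ 0 := by
        have : ((k + 2 : ℕ) : ℂ) ≠ 0 := by
          exact_mod_cast (by omega : k + 2 ≠ 0)
        exact_mod_cast this
      exact mul_left_cancel₀ this a1

/-- antidiagonal formula -/
lemma Cg_formula (l t : ℝ) (w v : ℂ) (hwv : w * v = 1) (hs : w + v = 2 * t) (k : ℕ) :
    (Cg l t k : ℂ) = ∑ ab ∈ antidiagonal k, ((uu l ab.1 : ℂ) * w ^ ab.1) *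
      ((uu l ab.2 : ℂ) * v ^ ab.2) := by
  rw [← GS_coeff l t w v hwv hs k, coeff_mul]
  simp [US]

end gen

end Pool.Agent.W5h46.LS
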