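import Mathlib
import Pool.Agent.W5h46.LS.Geg
set_option autoImplicit false

/-! The generating function of zonal kernels in the unit disc. -/

namespace Pool.Agent.W5h46.LS

open Finset Complex

lemma uu_poch (l : ℝ) (a : ℕ) : ((a.factorial : ℂ)) * (uu l a : ℂ) =
    (ascPochhammer ℂ a).eval (l : ℂ) := by
  induction a with
  | zero => simp [uu]
  | succ a ih =>
    have h := uu_succ l a
    have h' : ((a : ℂ) + 1) * (uu l (a + 1) : ℂ) = (a + l) * (uu l a : ℂ) := by exact_mod_cast h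
    rw [ascPochhammer_succ_eval, ← ih, Nat.factorial_succ]
    push_cast
    linear_combination (a.factorial : ℂ) * h'

lemma uu_choose (l : ℝ) (a : ℕ) : (Ring.choose ((l : ℂ) + a - 1) a) = (uu l a : ℂ) := by
  rw [← Ring.multichoose_eq]
  have h := Ring.factorial_nsmul_multichoose_eq_ascPochhammer (l : ℂ) a
  rw [Polynomial.ascPochhammer_smeval_eq_eval, ← uu_poch, nsmul_eq_mul] at h
  exact mul_left_cancel₀ (by exact_mod_cast a.factorial_ne_zero) h

lemma uu_hasSum (l : ℝ) (x : ℂ) (hx : ‖x‖ < 1) :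
    HasSum (fun a : ℕ => (uu l a : ℂ) * x ^ a) (1 / (1 - x) ^ (l : ℂ)) := by
  have h := (one_div_one_sub_cpow_hasFPowerSeriesOnBall_zero (l : ℂ)).hasSum (y := x) (by
    have h1 : ‖x‖ₑ < 1 := by
      rw [← ofReal_norm]
      exact ENNReal.ofReal_lt_one.mpr hx
    simpa using h1)
  simp only [FormalMultilinearSeries.ofScalars_apply_eq, smul_eq_mul, zero_add] at h
  simpa [uu_choose] using h

lemma uu_summable {l : ℝ} (hl : 0 < l) (x : ℂ) (hx : ‖x‖ < 1) :
    Summable (fun a : ℕ => ‖(uu l a : ℂ) * x ^ a‖) := by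
  obtain ⟨m, hm⟩ := exists_nat_ge l
  have h1 : Summable (fun a : ℕ => ((a : ℝ) + 1) ^ m * ‖x‖ ^ a) := by
    have h2 := summable_pow_mul_geometric_of_norm_lt_one (R := ℝ) m (r := ‖x‖) (by simpa using hx)
    have h3 := (summable_nat_add_iff 1).mpr h2
    by_cases hx0 : ‖x‖ = 0
    · apply summable_of_ne_finset_zero (s := {0})
      intro b hb
      rw [hx0, zero_pow (by simpa using hb), mul_zero]
    · have h4 := h3.mul_right (‖x‖⁻¹)
      refine h4.congr fun b => ?_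
      rw [pow_succ]
      push_cast
      field_simp
  apply Summable.of_nonneg_of_le (fun _ => norm_nonneg _) _ h1
  intro a
  rw [norm_mul, norm_pow, norm_real, Real.norm_eq_abs, abs_of_pos (uu_pos hl a)]
  exact mul_le_mul_of_nonneg_right (uu_le hl hm a) (by positivity)

/-- the point `e^{iγ}` with `cos γ = t`. -/
noncomputable def wp (t : ℝ) : ℂ := ⟨t, Real.sqrt (1 - t ^ 2)⟩
noncomputable def wm (t : ℝ) : ℂ := ⟨t, -Real.sqrt (1 - t ^ 2)⟩

lemma wpm {t : ℝ} (ht : |t| ≤ 1) : wp t * wm t = 1 := by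
  have h : 0 ≤ 1 - t ^ 2 := by nlinarith [sq_abs t, abs_nonneg t]
  apply Complex.ext
  · simp [wp, wm, Real.mul_self_sqrt h]
    ring
  · simp [wp, wm]
    ring

lemma wps (t : ℝ) : wp t + wm t = 2 * t := by
  apply Complex.ext
  · simp [wp, wm]
    ring
  · simp [wp, wm]

lemma wp_norm {t : ℝ} (ht : |t| ≤ 1) : ‖wp t‖ = 1 := by
  have h : 0 ≤ 1 - t ^ 2 := by nlinarith [sq_abs t, abs_nonneg t]
  have : ‖wp t‖ ^ 2 = 1 := by
    rw [← Complex.normSq_eq_norm_sq, Complex.normSq_apply]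
    simp [wp, Real.mul_self_sqrt h]
    ring
  have h0 := norm_nonneg (wp t)
  nlinarith

lemma wm_norm {t : ℝ} (ht : |t| ≤ 1) : ‖wm t‖ = 1 := by
  have h := congrArg norm (wpm ht)
  rw [norm_mul, wp_norm ht, one_mul, norm_one] at h
  exact h

lemma Cg_bound {l : ℝ} (hl : 0 < l) {m : ℕ} (hm : l ≤ m) {t : ℝ} (ht : |t| ≤ 1) (k : ℕ) :
    |Cg l t k| ≤ ((k : ℝ) + 1) ^ (2 * m + 1) := by
  have h := Cg_formula l t (wp t) (wm t) (wpm ht) (wps t) k
  have h1 : |Cg l t k| = ‖(Cg l t k : ℂ)‖ := by rw [norm_real, Real.norm_eq_abs]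
  rw [h1, h]
  have h2 : ∀ ab ∈ antidiagonal k, ‖((uu l ab.1 : ℂ) * wp t ^ ab.1) *
      ((uu l ab.2 : ℂ) * wm t ^ ab.2)‖ ≤ ((k : ℝ) + 1) ^ (2 * m) := by
    intro ab hab
    rw [Finset.HasAntidiagonal.mem_antidiagonal] at hab
    rw [norm_mul, norm_mul, norm_mul, norm_pow, norm_pow, wp_norm ht, wm_norm ht, one_pow, one_pow,
      mul_one, mul_one, norm_real, norm_real, Real.norm_eq_abs, Real.norm_eq_abs,
      abs_of_pos (uu_pos hl _), abs_of_pos (uu_pos hl _), two_mul, pow_add]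
    have ha : (ab.1 : ℝ) ≤ k := by exact_mod_cast (by omega : ab.1 ≤ k)
    have hb : (ab.2 : ℝ) ≤ k := by exact_mod_cast (by omega : ab.2 ≤ k)
    apply mul_le_mul
    · exact (uu_le hl hm _).trans (pow_le_pow_left₀ (by positivity) (by linarith) _)
    · exact (uu_le hl hm _).trans (pow_le_pow_left₀ (by positivity) (by linarith) _)
    · exact (uu_pos hl _).le
    · positivity
  refine (norm_sum_le_of_le _ h2).trans ?_
  rw [sum_const, Nat.card_antidiagonal, nsmul_eq_mul, pow_succ]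
  push_cast
  linarith [mul_comm ((k : ℝ) + 1) (((k : ℝ) + 1) ^ (2 * m))]

/-- normalised zonal functions -/
noncomputable def Zg (l t : ℝ) (k : ℕ) : ℝ := (k + l) / l * Cg l t k

lemma Zg_bound {l : ℝ} (hl : 0 < l) : ∃ (C : ℝ) (N : ℕ), 0 < C ∧ ∀ t : ℝ, |t| ≤ 1 → ∀ k : ℕ,
    |Zg l t k| ≤ C * ((k : ℝ) + 1) ^ N := by
  obtain ⟨m, hm⟩ := exists_nat_ge l
  refine ⟨1 / l + 1, 2 * m + 2, by positivity, ?_⟩
  intro t ht k
  rw [Zg, abs_mul]
  have h1 : |((k : ℝ) + l) / l| ≤ (1 / l + 1) * (k + 1) := by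
    rw [abs_of_pos (by positivity), add_div, div_self hl.ne']
    have : (1 / l + 1) * ((k : ℝ) + 1) = k / l + 1 + (1 / l + k) := by
      field_simp
      ring
    rw [this]
    have : (0 : ℝ) ≤ 1 / l + k := by positivity
    linarith
  calc |((k : ℝ) + l) / l| * |Cg l t k| ≤ ((1 / l + 1) * (k + 1)) * ((k : ℝ) + 1) ^ (2 * m + 1) :=
        mul_le_mul h1 (Cg_bound hl hm ht k) (abs_nonneg _) (by positivity)
    _ = _ := by ring

lemma Cg_hasSum {l : ℝ} (hl : 0 < l) {t : ℝ} (ht : |t| ≤ 1) {z : ℂ} (hz : ‖z‖ < 1) :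
    HasSum (fun k : ℕ => (Cg l t k : ℂ) * z ^ k)
      ((1 / (1 - wp t * z) ^ (l : ℂ)) * (1 / (1 - wm t * z) ^ (l : ℂ))) := by
  have hz1 : ‖wp t * z‖ < 1 := by rwa [norm_mul, wp_norm ht, one_mul]
  have hz2 : ‖wm t * z‖ < 1 := by rwa [norm_mul, wm_norm ht, one_mul]
  have h1 := uu_hasSum l _ hz1
  have h2 := uu_hasSum l _ hz2
  have s1 := uu_summable hl _ hz1
  have s2 := uu_summable hl _ hz2
  have h3 := tsum_mul_tsum_eq_tsum_sum_antidiagonal_of_summable_norm s1 s2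
  have h4 := summable_norm_sum_mul_antidiagonal_of_summable_norm s1 s2
  rw [h1.tsum_eq, h2.tsum_eq] at h3
  have e : ∀ k : ℕ, ∑ kl ∈ antidiagonal k, ((uu l kl.1 : ℂ) * (wp t * z) ^ kl.1) *
      ((uu l kl.2 : ℂ) * (wm t * z) ^ kl.2) = (Cg l t k : ℂ) * z ^ k := by
    intro k
    rw [Cg_formula l t (wp t) (wm t) (wpm ht) (wps t) k, sum_mul]
    apply sum_congr rfl
    intro ab hab
    rw [Finset.HasAntidiagonal.mem_antidiagonal] at hab
    rw [← hab, mul_pow, mul_pow, pow_add]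
    ring
  simp_rw [e] at h3 h4
  rw [h3]
  exact h4.of_norm.hasSum

lemma poly_summable (N : ℕ) {r : ℝ} (hr0 : 0 ≤ r) (hr : r < 1) :
    Summable (fun k : ℕ => ((k : ℝ) + 1) ^ N * r ^ k) := by
  have h2 := summable_pow_mul_geometric_of_norm_lt_one (R := ℝ) N (r := r)
    (by rwa [Real.norm_eq_abs, abs_of_nonneg hr0])
  have h3 := (summable_nat_add_iff 1).mpr h2
  by_cases hx0 : r = 0
  · apply summable_of_ne_finset_zero (s := {0})
    intro b hb
    rw [hx0, zero_pow (by simpa using hb), mul_zero]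
  · have h4 := h3.mul_right (r⁻¹)
    refine h4.congr fun b => ?_
    rw [pow_succ]
    push_cast
    field_simp

lemma Zg_summable {l : ℝ} (hl : 0 < l) {t : ℝ} (ht : |t| ≤ 1) {z : ℂ} (hz : ‖z‖ < 1) :
    Summable (fun k : ℕ => ‖(Zg l t k : ℂ) * z ^ k‖) := by
  obtain ⟨C, N, hC, h⟩ := Zg_bound hl
  apply Summable.of_nonneg_of_le (fun _ => norm_nonneg _) _
    ((poly_summable N (norm_nonneg z) hz).mul_left C)
  intro k
  rw [norm_mul, norm_pow, norm_real, Real.norm_eq_abs, ← mul_assoc]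
  exact mul_le_mul_of_nonneg_right (h t ht k) (by positivity)

/-- generating function of the zonal functions -/
noncomputable def Kz (l t : ℝ) (z : ℂ) : ℂ := ∑' k : ℕ, (Zg l t k : ℂ) * z ^ k

lemma Zg_rec {l : ℝ} (hl : 0 < l) (t : ℝ) (k : ℕ) :
    Zg l t (k + 2) - 2 * t * Zg l t (k + 1) + Zg l t k = Cg l t (k + 2) - Cg l t k := by
  have h := Cg_rec l t k
  unfold Zg
  push_cast
  field_simp
  linear_combination h

lemma Kz_eq {l : ℝ} (hl : 0 < l) {t : ℝ} (ht : |t| ≤ 1) {z : ℂ} (hz : ‖z‖ < 1) :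
    ((1 - wp t * z) * (1 - wm t * z)) * Kz l t z = (1 - z ^ 2) *
      ((1 / (1 - wp t * z) ^ (l : ℂ)) * (1 / (1 - wm t * z) ^ (l : ℂ))) := by
  have hC := Cg_hasSum hl ht hz
  have hZ : HasSum (fun k : ℕ => (Zg l t k : ℂ) * z ^ k) (Kz l t z) :=
    (Zg_summable hl ht hz).of_norm.hasSum
  set G := ((1 / (1 - wp t * z) ^ (l : ℂ)) * (1 / (1 - wm t * z) ^ (l : ℂ))) with hG
  have e0 : (1 - wp t * z) * (1 - wm t * z) = 1 - 2 * t * z + z ^ 2 := by
    have h1 := wpm ht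
    have h2 := wps t
    linear_combination (-z) * h2 + z ^ 2 * h1
  rw [e0]
  -- shift sums
  have sh : ∀ (f : ℕ → ℂ) (S : ℂ), HasSum (fun k : ℕ => f k * z ^ k) S →
      HasSum (fun k : ℕ => f (k + 2) * z ^ (k + 2)) (S - f 0 - f 1 * z) := by
    intro f S hS
    have := (hasSum_nat_add_iff' 2).mpr hS
    simpa [sum_range_succ, sub_sub] using this
  have sh1 : ∀ (f : ℕ → ℂ) (S : ℂ), HasSum (fun k : ℕ => f k * z ^ k) S →
      HasSum (fun k : ℕ => f (k + 1) * z ^ (k + 1)) (S - f 0) := by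
    intro f S hS
    have := (hasSum_nat_add_iff' 1).mpr hS
    simpa [sum_range_succ, sub_sub] using this
  have a1 := sh _ _ hZ
  have a2 := (sh1 _ _ hZ).mul_left (2 * t * z)
  have a3 := hZ.mul_left (z ^ 2)
  have a4 := sh _ _ hC
  have a5 := hC.mul_left (z ^ 2)
  have b1 := (a1.sub a2).add a3
  have b2 := a4.sub a5
  have e1 : (fun k : ℕ => (Zg l t (k + 2) : ℂ) * z ^ (k + 2) - 2 * t * z * ((Zg l t (k + 1) : ℂ) *
      z ^ (k + 1)) + z ^ 2 * ((Zg l t k : ℂ) * z ^ k)) = fun k : ℕ =>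
      ((Cg l t (k + 2) : ℂ) * z ^ (k + 2) - z ^ 2 * ((Cg l t k : ℂ) * z ^ k)) := by
    funext k
    have h := Zg_rec hl t k
    have h' : (Zg l t (k + 2) : ℂ) - 2 * t * (Zg l t (k + 1) : ℂ) + (Zg l t k : ℂ) =
      (Cg l t (k + 2) : ℂ) - (Cg l t k : ℂ) := by exact_mod_cast congrArg (fun x : ℝ => (x : ℂ)) h
    linear_combination z ^ (k + 2) * h'
  rw [e1] at b1
  have b3 := b1.unique b2
  have z0 : (Zg l t 0 : ℂ) = 1 := by simp [Zg, Cg, hl.ne']
  have z1 : (Zg l t 1 : ℂ) = 2 * (1 + l) * t := by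
    have : Zg l t 1 = 2 * (1 + l) * t := by
      simp [Zg, Cg]
      field_simp
    rw [this]
    push_cast
    ring
  have c0 : (Cg l t 0 : ℂ) = 1 := by simp [Cg]
  have c1 : (Cg l t 1 : ℂ) = 2 * l * t := by simp [Cg]
  rw [z0, z1, c0, c1] at b3
  linear_combination b3

lemma one_sub_ne {x : ℂ} (hx : ‖x‖ < 1) : 0 < ‖1 - x‖ := by
  rw [norm_pos_iff]
  intro h
  have : x = 1 := by linear_combination -h
  rw [this, norm_one] at hx
  exact lt_irrefl _ hx

lemma Kz_norm {l : ℝ} (hl : 0 < l) {t : ℝ} (ht : |t| ≤ 1) {z : ℂ} (hz : ‖z‖ < 1) :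
    ‖Kz l t z‖ = ‖1 - z ^ 2‖ / (‖1 - wp t * z‖ * ‖1 - wm t * z‖) ^ (l + 1) := by
  have hz1 : ‖wp t * z‖ < 1 := by rwa [norm_mul, wp_norm ht, one_mul]
  have hz2 : ‖wm t * z‖ < 1 := by rwa [norm_mul, wm_norm ht, one_mul]
  have p1 := one_sub_ne hz1
  have p2 := one_sub_ne hz2
  have h := congrArg norm (Kz_eq hl ht hz)
  rw [norm_mul, norm_mul, norm_mul, norm_mul, norm_div, norm_div, norm_one, norm_cpow_real,
    norm_cpow_real] at h
  rw [Real.rpow_add (by positivity), Real.rpow_one, Real.mul_rpow p1.le p2.le, eq_div_iff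
    (by positivity)]
  have q1 := Real.rpow_pos_of_pos p1 l
  have q2 := Real.rpow_pos_of_pos p2 l
  generalize ‖1 - wp t * z‖ ^ l = A' at *
  generalize ‖1 - wm t * z‖ ^ l = B' at *
  generalize ‖1 - wp t * z‖ = A at *
  generalize ‖1 - wm t * z‖ = B at *
  field_simp at h
  linarith

end Pool.Agent.W5h46.LS
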