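import Mathlib
import Pool.Agent.W5h55.SH.A4
import Pool.Agent.W5h46.LS.Gen
set_option autoImplicit false

/-! Expansion of a plane wave in zonal functions. -/

namespace Pool.Agent.W5h46.LS

open Pool.Agent.W5h55.SH

/-- `∏_{i<k} (n+2i)` -/
noncomputable def pn (n k : ℕ) : ℝ := ∏ i ∈ Finset.range k, ((n : ℝ) + 2 * i)

lemma pn_succ (n k : ℕ) : pn n (k + 1) = pn n k * (n + 2 * k) := by
  unfold pn
  rw [Finset.prod_range_succ]

lemma pn_ge {n : ℕ} (hn : 2 ≤ n) (k : ℕ) : 2 ^ k * (k.factorial : ℝ) ≤ pn n k := by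
  have hn' : (2 : ℝ) ≤ n := by exact_mod_cast hn
  induction k with
  | zero => simp [pn]
  | succ k ih =>
    rw [pn_succ, Nat.factorial_succ, pow_succ]
    push_cast
    have h0 : (0 : ℝ) ≤ k := Nat.cast_nonneg k
    calc 2 ^ k * 2 * (((k : ℝ) + 1) * k.factorial) = (2 ^ k * k.factorial) * (2 + 2 * k) := by ring
      _ ≤ pn n k * (n + 2 * k) := mul_le_mul ih (by linarith) (by positivity)
          (le_trans (by positivity) ih)

lemma pn_pos {n : ℕ} (hn : 2 ≤ n) (k : ℕ) : 0 < pn n k :=
  lt_of_lt_of_le (by positivity) (pn_ge hn k)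

/-- coefficients -/
noncomputable def cf (n k j : ℕ) : ℝ := 1 / (pn n k * DD j (2 * k + n))

lemma cf_down {n : ℕ} (hn : 2 ≤ n) (k j : ℕ) :
    cf n k j = cf n (k + 1) j * (2 * k + n + 2 * j) := by
  have h1 := DD_shift j (2 * k + n)
  have h2 := DD_pos j (2 * k + n) (by omega)
  have h3 := DD_pos j (2 * k + n + 2) (by omega)
  have h4 := pn_pos hn k
  have h5 : (0 : ℝ) < (n : ℝ) + 2 * k := by
    have : (2 : ℝ) ≤ n := by exact_mod_cast hn
    positivity
  unfold cf
  rw [pn_succ, show 2 * (k + 1) + n = 2 * k + n + 2 by ring]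
  push_cast at h1
  rw [div_mul_eq_mul_div, one_mul, div_eq_div_iff (by positivity) (by positivity)]
  linear_combination (-(pn n k)) * h1

lemma cf_up {n : ℕ} (hn : 2 ≤ n) (k j : ℕ) :
    cf n (k + 1) j = 2 * (j + 1) * cf n k (j + 1) := by
  have h1 := DD_shift j (2 * k + n)
  have h2 := DD_pos j (2 * k + n) (by omega)
  have h3 := DD_pos j (2 * k + n + 2) (by omega)
  have h4 := pn_pos hn k
  have h5 : (0 : ℝ) < (n : ℝ) + 2 * k := by
    have : (2 : ℝ) ≤ n := by exact_mod_cast hn
    positivity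
  have h6 := DD_succ j (2 * k + n)
  have h7 := DD_pos (j + 1) (2 * k + n) (by omega)
  unfold cf
  rw [pn_succ, show 2 * (k + 1) + n = 2 * k + n + 2 by ring]
  push_cast at h1 h6
  rw [mul_one_div, div_eq_div_iff (by positivity) (by positivity)]
  rw [h6]
  linear_combination (pn n k * 2 * ((j : ℝ) + 1)) * h1

/-- coefficients of `t^m/m!` in the zonal functions -/
noncomputable def af (n : ℕ) : ℕ → ℕ → ℝ
  | 0, 0 => 1
  | 0, (_ + 1) => 0
  | (m + 1), 0 => af n m 1 / (m + 1)
  | (m + 1), (k + 1) => ((k + 1) * af n m k + (k + n - 1) * af n m (k + 2)) /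
      ((2 * k + n) * (m + 1))

lemma af_eq {n : ℕ} (hn : 2 ≤ n) (m : ℕ) : ∀ k, (∀ j, m = k + 2 * j → af n m k = cf n k j) ∧
    ((∀ j, m ≠ k + 2 * j) → af n m k = 0) := by
  have hn' : (2 : ℝ) ≤ n := by exact_mod_cast hn
  induction m with
  | zero =>
    intro k
    cases k with
    | zero =>
      constructor
      · intro j hj
        have : j = 0 := by omega
        subst this
        rw [af, cf]
        simp [pn, DD]
      · intro h
        exact absurd rfl (h 0)
    | succ k =>
      constructor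
      · intro j hj; omega
      · intro _; rw [af]
  | succ m ih =>
    intro k
    cases k with
    | zero =>
      constructor
      · intro j hj
        obtain ⟨i, rfl⟩ : ∃ i, j = i + 1 := ⟨j - 1, by omega⟩
        rw [af, (ih 1).1 i (by omega), show (1 : ℕ) = 0 + 1 by rfl, cf_up hn 0 i]
        have : (m : ℝ) + 1 = 2 * (i + 1) := by
          have : m + 1 = 2 * (i + 1) := by omega
          exact_mod_cast this
        rw [this]
        field_simp
      · intro h
        rw [af, (ih 1).2 (fun j hj => h (j + 1) (by omega))]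
        simp
    | succ k =>
      have hk : (0 : ℝ) < 2 * (k : ℝ) + n := by positivity
      constructor
      · intro j hj
        have hm : (m : ℝ) + 1 = k + 1 + 2 * j := by exact_mod_cast hj
        have e1 : af n m k = cf n (k + 1) j * (2 * k + n + 2 * j) := by
          rw [(ih k).1 j (by omega), cf_down hn]
        have e2 : af n m (k + 2) = 2 * j * cf n (k + 1) j := by
          cases j with
          | zero =>
            rw [(ih (k + 2)).2 (fun j hj => by omega)]
            simp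
          | succ i =>
            rw [(ih (k + 2)).1 i (by omega), show k + 2 = (k + 1) + 1 by rfl, cf_up hn]
            push_cast
            ring
        rw [af, e1, e2, hm, div_eq_iff (by positivity)]
        ring
      · intro h
        rw [af, (ih k).2 (fun j hj => h j (by omega)),
          (ih (k + 2)).2 (fun j hj => h (j + 1) (by omega))]
        simp

lemma Zg_mul_zero {n : ℕ} (hn : 3 ≤ n) (t : ℝ) :
    t * Zg ((n : ℝ) / 2 - 1) t 0 = 1 / n * Zg ((n : ℝ) / 2 - 1) t 1 := by
  have hn' : (3 : ℝ) ≤ n := by exact_mod_cast hn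
  have h1 : (n : ℝ) / 2 - 1 ≠ 0 := by
    have : 0 < (n : ℝ) / 2 - 1 := by linarith
    exact this.ne'
  have h2 : (n : ℝ) ≠ 0 := by positivity
  simp only [Zg, Cg]
  push_cast
  rw [zero_add, div_self h1]
  have e0 : ∀ l : ℝ, l ≠ 0 → (1 + l) / l * (2 * l * t) = 2 * (1 + l) * t := by
    intro l hl
    field_simp
  have e : (1 + ((n : ℝ) / 2 - 1)) / ((n : ℝ) / 2 - 1) * (2 * ((n : ℝ) / 2 - 1) * t) = n * t := by
    rw [e0 _ h1]
    ring
  rw [e]
  field_simp

lemma Zg_mul_succ {n : ℕ} (hn : 3 ≤ n) (t : ℝ) (k : ℕ) :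
    t * Zg ((n : ℝ) / 2 - 1) t (k + 1) = (k + 2) / (2 * k + 2 + n) * Zg ((n : ℝ) / 2 - 1) t (k + 2) +
      (k + n - 2) / (2 * k + n - 2) * Zg ((n : ℝ) / 2 - 1) t k := by
  have hn' : (3 : ℝ) ≤ n := by exact_mod_cast hn
  have h0 : (0 : ℝ) ≤ k := Nat.cast_nonneg k
  have h1 : (n : ℝ) / 2 - 1 ≠ 0 := by
    have : 0 < (n : ℝ) / 2 - 1 := by linarith
    exact this.ne'
  have h2 : (2 * k + 2 + n : ℝ) ≠ 0 := by positivity
  have h3 : (2 * k + n - 2 : ℝ) ≠ 0 := by
    have : (0 : ℝ) < 2 * k + n - 2 := by linarith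
    exact this.ne'
  have h := Cg_rec ((n : ℝ) / 2 - 1) t k
  set l : ℝ := (n : ℝ) / 2 - 1 with hl
  have hnl : (n : ℝ) = 2 * l + 2 := by rw [hl]; ring
  rw [hnl] at h2 h3 ⊢
  have e1 : (2 * (k : ℝ) + 2 + (2 * l + 2)) = 2 * (k + 2 + l) := by ring
  have e2 : (2 * (k : ℝ) + (2 * l + 2) - 2) = 2 * (k + l) := by ring
  rw [e1] at h2 ⊢
  rw [e2] at h3 ⊢
  have h4 : ((k : ℝ) + 2 + l) ≠ 0 := fun h => h2 (by rw [h]; ring)
  have h5 : ((k : ℝ) + l) ≠ 0 := fun h => h3 (by rw [h]; ring)
  simp only [Zg]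
  push_cast
  have e3 : ((k : ℝ) + 2) / (2 * (k + 2 + l)) * (((k : ℝ) + 2 + l) / l * Cg l t (k + 2)) =
      (((k : ℝ) + 2) * Cg l t (k + 2)) / (2 * l) := by field_simp
  have e4 : ((k : ℝ) + (2 * l + 2) - 2) / (2 * (k + l)) * (((k : ℝ) + l) / l * Cg l t k) =
      ((k + 2 * l) * Cg l t k) / (2 * l) := by
    field_simp
    ring
  rw [e3, e4, h]
  field_simp
  ring

lemma pow_exp {n : ℕ} (hn : 3 ≤ n) (t : ℝ) (m : ℕ) : ∀ L, m < L →
    ∑ k ∈ Finset.range L, af n m k * Zg ((n : ℝ) / 2 - 1) t k = t ^ m / m.factorial := by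
  have hn' : (3 : ℝ) ≤ n := by exact_mod_cast hn
  induction m with
  | zero =>
    intro L hL
    have hl : (n : ℝ) / 2 - 1 ≠ 0 := by
      have : 0 < (n : ℝ) / 2 - 1 := by linarith
      exact this.ne'
    rw [Finset.sum_eq_single 0]
    · simp [af, Zg, Cg, hl]
    · intro k _ hk
      obtain ⟨i, rfl⟩ : ∃ i, k = i + 1 := ⟨k - 1, by omega⟩
      rw [af]; simp
    · intro h
      exact absurd (Finset.mem_range.mpr hL) h
  | succ m ih =>
    intro L' hL'
    obtain ⟨L, rfl⟩ : ∃ L, L' = L + 1 := ⟨L' - 1, by omega⟩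
    have hmL : m < L := by omega
    set Z := Zg ((n : ℝ) / 2 - 1) t with hZ
    set f := af n m with hf
    have fL : f L = 0 := (af_eq (by omega) m L).2 (fun j hj => by omega)
    have fL1 : f (L + 1) = 0 := (af_eq (by omega) m (L + 1)).2 (fun j hj => by omega)
    have hS := ih (L + 2) (by omega)
    rw [Finset.sum_range_succ', Finset.sum_range_succ'] at hS
    -- the auxiliary sum
    set A : ℕ → ℝ := fun k => (k + 1) / (2 * k + n) * f k * Z (k + 1) with hA
    have a1 : ∑ k ∈ Finset.range (L + 2), A k = ∑ k ∈ Finset.range L, A k := by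
      rw [Finset.sum_range_succ, Finset.sum_range_succ]
      simp only [hA, fL, fL1]
      ring
    have a2 : ∑ k ∈ Finset.range (L + 2), A k = ∑ k ∈ Finset.range L, A (k + 2) + A 1 + A 0 := by
      rw [Finset.sum_range_succ', Finset.sum_range_succ']
    have b1 : t * Z 0 = 1 / n * Z 1 := Zg_mul_zero hn t
    have b2 : t * Z 1 = 2 / (2 + n) * Z 2 + Z 0 := by
      have := Zg_mul_succ hn t 0
      push_cast at this
      rw [← hZ] at this
      have e : ((0 : ℝ) + n - 2) / (2 * 0 + n - 2) = 1 := by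
        rw [mul_zero, zero_add, div_self]
        have : (0 : ℝ) < n - 2 := by linarith
        exact this.ne'
      rw [e] at this
      simpa using this
    have b3 : ∀ k, f (k + 2) * Z (k + 2) * t = A (k + 2) +
        (k + n - 1) / (2 * k + n) * f (k + 2) * Z (k + 1) := by
      intro k
      have := Zg_mul_succ hn t (k + 1)
      rw [← hZ] at this
      push_cast at this
      have e1 : ((k : ℝ) + 1 + n - 2) / (2 * (k + 1) + n - 2) = (k + n - 1) / (2 * k + n) := by
        congr 1 <;> ring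
      rw [e1] at this
      have e2 : f (k + 2) * Z (k + 2) * t = f (k + 2) * (t * Z (k + 1 + 1)) := by ring
      rw [e2, this]
      simp only [hA]
      push_cast
      ring
    have key : t * (t ^ m / m.factorial) = ∑ k ∈ Finset.range L, (A k +
        (k + n - 1) / (2 * k + n) * f (k + 2) * Z (k + 1)) + f 1 * Z 0 := by
      rw [← hS, mul_add, mul_add, mul_comm t (∑ k ∈ Finset.range L, f (k + 1 + 1) * Z (k + 1 + 1)),
        Finset.sum_mul]
      simp only [show ∀ k, k + 1 + 1 = k + 2 from fun k => rfl]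
      simp_rw [b3]
      rw [Finset.sum_add_distrib, Finset.sum_add_distrib, ← a1, a2]
      have e1 : A 1 = f 1 * (2 / (2 + n) * Z 2) := by
        simp only [hA]
        push_cast
        ring_nf
      have e0 : A 0 = f 0 * (1 / n * Z 1) := by
        simp only [hA]
        push_cast
        ring_nf
      rw [e1, e0, ← b1]
      simp only [zero_add]
      linear_combination f 1 * b2
    rw [Finset.sum_range_succ']
    have hm1 : ((m : ℝ) + 1) ≠ 0 := by positivity
    have c1 : ∀ k, af n (m + 1) (k + 1) * Z (k + 1) = (A k +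
        (k + n - 1) / (2 * k + n) * f (k + 2) * Z (k + 1)) * ((m : ℝ) + 1)⁻¹ := by
      intro k
      rw [af]
      simp only [hA, ← hf]
      have : (2 * (k : ℝ) + n) ≠ 0 := by positivity
      field_simp
    have c0 : af n (m + 1) 0 * Z 0 = f 1 * Z 0 * ((m : ℝ) + 1)⁻¹ := by
      rw [af, ← hf]
      field_simp
    simp_rw [c1]
    rw [c0, ← Finset.sum_mul, ← add_mul, ← key, Nat.factorial_succ, pow_succ]
    push_cast
    field_simp

end Pool.Agent.W5h46.LS
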