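import Mathlib
import Pool.Agent.W5h46.LS.Plane
set_option autoImplicit false

/-! Expansion of a plane wave in zonal functions: the series. -/

namespace Pool.Agent.W5h46.LS

open Pool.Agent.W5h55.SH

/-- normalised radial factor -/
noncomputable def mu (n k : ℕ) (r : ℝ) : ℝ := r ^ k / pn n k * phi (2 * k + n) r

lemma DD_low (m N : ℕ) : (m.factorial : ℝ) * (2 * N) ^ m ≤ DD m N := by
  induction m with
  | zero => simp [DD]
  | succ m ih =>
    rw [DD_succ, Nat.factorial_succ, pow_succ]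
    push_cast
    have h0 : (0 : ℝ) ≤ m := Nat.cast_nonneg m
    have hN : (0 : ℝ) ≤ N := Nat.cast_nonneg N
    calc ((m : ℝ) + 1) * m.factorial * ((2 * N) ^ m * (2 * N)) =
        (m.factorial * (2 * N) ^ m) * (2 * (m + 1) * (N : ℝ)) := by ring
      _ ≤ DD m N * (2 * ((m : ℝ) + 1) * (N + 2 * m)) := by
          apply mul_le_mul ih _ (by positivity) (le_trans (by positivity) ih)
          apply mul_le_mul_of_nonneg_left _ (by positivity)
          linarith

lemma phi_bound {N : ℕ} (hN : 1 ≤ N) (r : ℝ) : |phi N r| ≤ Real.exp (r ^ 2 / (2 * N)) := by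
  have hN' : (0 : ℝ) < N := by exact_mod_cast hN
  have h1 : ∀ m : ℕ, ‖(-1 : ℝ) ^ m * r ^ (2 * m) / DD m N‖ ≤ (r ^ 2 / (2 * N)) ^ m / m.factorial := by
    intro m
    have h2 := DD_pos m N hN
    have h3 := DD_low m N
    rw [norm_div, norm_mul, norm_pow, norm_neg, norm_one, one_pow, one_mul, norm_pow,
      Real.norm_eq_abs, Real.norm_of_nonneg h2.le, pow_mul, sq_abs, div_pow, div_div,
      mul_comm ((2 * (N : ℝ)) ^ m)]
    exact div_le_div_of_nonneg_left (by positivity) (by positivity) h3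
  have h4 : HasSum (fun m : ℕ => (r ^ 2 / (2 * N)) ^ m / (m.factorial : ℝ))
      (Real.exp (r ^ 2 / (2 * N))) := by
    rw [Real.exp_eq_exp_ℝ]
    exact NormedSpace.expSeries_div_hasSum_exp _
  have h5 := tsum_of_norm_bounded h4 h1
  rwa [Real.norm_eq_abs] at h5

lemma mu_bound {n : ℕ} (hn : 2 ≤ n) (k : ℕ) {r : ℝ} (hr : 0 ≤ r) :
    |mu n k r| ≤ (r / 2) ^ k / k.factorial * Real.exp (r ^ 2 / (2 * (2 * k + n : ℕ))) := by
  unfold mu
  have h1 := pn_ge hn k
  have h2 := pn_pos hn k
  rw [abs_mul, abs_div, abs_pow, abs_of_nonneg hr, abs_of_pos h2]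
  apply mul_le_mul _ (phi_bound (by omega) r) (abs_nonneg _) (by positivity)
  rw [div_pow, div_div]
  exact div_le_div_of_nonneg_left (by positivity) (by positivity) h1

lemma mu_cont {n : ℕ} (hn : 2 ≤ n) (k : ℕ) (r : ℝ) : |mu n k r| ≤
    (|r| / 2) ^ k / k.factorial * Real.exp (r ^ 2 / (2 * (2 * k + n : ℕ))) := by
  unfold mu
  have h1 := pn_ge hn k
  have h2 := pn_pos hn k
  rw [abs_mul, abs_div, abs_pow, abs_of_pos h2]
  apply mul_le_mul _ (phi_bound (by omega) r) (abs_nonneg _) (by positivity)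
  rw [div_pow, div_div]
  exact div_le_div_of_nonneg_left (by positivity) (by positivity) h1

/-- the tail bound -/
lemma mu_tail {n : ℕ} (hn : 2 ≤ n) (k : ℕ) {r : ℝ} (hr : 0 ≤ r) (hk : 8 * r ≤ k) :
    |mu n k r| ≤ (1 / 4) ^ k := by
  rcases Nat.eq_zero_or_pos k with h | h
  · subst h
    have : r = 0 := by push_cast at hk; linarith
    subst this
    unfold mu
    simp [pn, phi, DD]
    rw [tsum_eq_single 0]
    · simp
    · intro m hm
      simp [hm]
  have hk0 : (0 : ℝ) < k := by exact_mod_cast h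
  refine (mu_bound hn k hr).trans ?_
  have h1 : r ^ 2 / (2 * (2 * k + n : ℕ)) ≤ (1 / 256 : ℝ) * k := by
    rw [div_le_iff₀ (by positivity)]
    push_cast
    have h2 : r ^ 2 ≤ (k / 8 : ℝ) ^ 2 := pow_le_pow_left₀ hr (by linarith) 2
    have h3 : (0 : ℝ) ≤ n := Nat.cast_nonneg n
    nlinarith [mul_nonneg h3 hk0.le]
  have h2 : (r / 2) ^ k / k.factorial ≤ (1 / 16) ^ k * Real.exp k := by
    have h3 : (r / 2) ^ k ≤ ((1 / 16) * (k : ℝ)) ^ k :=
      pow_le_pow_left₀ (by positivity) (by linarith) k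
    have h4 := Real.pow_div_factorial_le_exp (x := (k : ℝ)) hk0.le k
    calc (r / 2) ^ k / k.factorial ≤ ((1 / 16) * (k : ℝ)) ^ k / k.factorial := by gcongr
      _ = (1 / 16) ^ k * ((k : ℝ) ^ k / k.factorial) := by rw [mul_pow]; ring
      _ ≤ _ := mul_le_mul_of_nonneg_left h4 (by positivity)
  calc (r / 2) ^ k / k.factorial * Real.exp (r ^ 2 / (2 * (2 * k + n : ℕ)))
      ≤ ((1 / 16) ^ k * Real.exp k) * Real.exp ((1 / 256 : ℝ) * k) :=
        mul_le_mul h2 (Real.exp_le_exp.mpr h1) (Real.exp_pos _).le (by positivity)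
    _ = ((1 / 16) * Real.exp (257 / 256)) ^ k := by
        rw [mul_assoc, ← Real.exp_add, mul_pow, ← Real.exp_nat_mul]
        congr 2
        ring
    _ ≤ (1 / 4) ^ k := by
        apply pow_le_pow_left₀ (by positivity)
        have h5 : Real.exp (257 / 256) = Real.exp 1 * Real.exp (1 / 256) := by
          rw [← Real.exp_add]; norm_num
        have h6 := Real.exp_one_lt_d9
        have h7 : Real.exp (1 / 256) ≤ 1.1 := by
          have := Real.exp_bound' (x := 1 / 256) (by norm_num) (by norm_num) (n := 1) (by norm_num)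
          norm_num at this
          linarith
        rw [h5]
        have h8 := Real.exp_pos 1
        nlinarith [Real.exp_pos (1 / 256 : ℝ)]

lemma pow_le_exp (N : ℕ) (k : ℕ) : ((k : ℝ) + 1) ^ N ≤ N.factorial * Real.exp 1 * Real.exp 1 ^ k := by
  have h := Real.pow_div_factorial_le_exp (x := (k : ℝ) + 1) (by positivity) N
  rw [div_le_iff₀ (by positivity)] at h
  have e : Real.exp ((k : ℝ) + 1) = Real.exp 1 * Real.exp 1 ^ k := by
    rw [← Real.exp_nat_mul, ← Real.exp_add]
    congr 1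
    ring
  rw [e] at h
  linarith [h]

/-- The coefficients of the double series. -/
noncomputable def ff (n : ℕ) (t r : ℝ) (q : ℕ × ℕ) : ℂ :=
  (-Complex.I * r) ^ q.1 * (af n q.1 q.2 : ℂ) * (Zg ((n : ℝ) / 2 - 1) t q.2 : ℂ)

lemma ff_summable {n : ℕ} (hn : 3 ≤ n) {t : ℝ} (ht : |t| ≤ 1) {r : ℝ} (hr : 0 ≤ r) :
    Summable (ff n t r) := by
  have hn' : (3 : ℝ) ≤ n := by exact_mod_cast hn
  obtain ⟨C, N, hC, hZ⟩ := Zg_bound (l := (n : ℝ) / 2 - 1) (by linarith)
  set e : ℕ × ℕ → ℕ × ℕ := fun q => (q.1 + 2 * q.2, q.1) with he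
  have hinj : Function.Injective e := by
    intro a b hab
    simp only [he, Prod.mk.injEq] at hab
    ext
    · exact hab.2
    · omega
  have hzero : ∀ x ∉ Set.range e, ff n t r x = 0 := by
    intro x hx
    have : af n x.1 x.2 = 0 := (af_eq (by omega) x.1 x.2).2 (fun j hj => hx ⟨(x.2, j), by
      simp only [he]; rw [← hj]⟩)
    unfold ff
    rw [this]; simp
  rw [← hinj.summable_iff hzero]
  have h1 : Summable fun q : ℕ × ℕ => (C * N.factorial * Real.exp 1 *
      ((Real.exp 1 * r) ^ q.1 / q.1.factorial)) * ((r ^ 2) ^ q.2 / q.2.factorial) := by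
    refine Summable.mul_of_nonneg
      (f := fun k : ℕ => C * N.factorial * Real.exp 1 * ((Real.exp 1 * r) ^ k / k.factorial))
      (g := fun j : ℕ => (r ^ 2) ^ j / (j.factorial : ℝ)) ?_ ?_ ?_ ?_
    · exact (Real.summable_pow_div_factorial _).mul_left _
    · exact Real.summable_pow_div_factorial _
    · intro k
      simp only [Pi.zero_apply]
      positivity
    · intro k
      simp only [Pi.zero_apply]
      positivity
  refine Summable.of_norm_bounded h1 ?_
  intro q
  simp only [Function.comp, ff, he]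
  have h2 : af n (q.1 + 2 * q.2) q.1 = cf n q.1 q.2 := (af_eq (by omega) _ _).1 _ rfl
  have h3 : 0 < cf n q.1 q.2 := by
    unfold cf
    have := pn_pos (show 2 ≤ n by omega) q.1
    have := DD_pos q.2 (2 * q.1 + n) (by omega)
    positivity
  have h4 : cf n q.1 q.2 ≤ 1 / (q.1.factorial * q.2.factorial) := by
    unfold cf
    have p1 := pn_ge (show 2 ≤ n by omega) q.1
    have p2 := DD_ge q.2 (2 * q.1 + n) (by omega)
    have p3 : (1 : ℝ) ≤ 2 ^ q.1 := one_le_pow₀ (by norm_num)
    apply div_le_div_of_nonneg_left (by norm_num) (by positivity)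
    apply mul_le_mul _ p2 (by positivity) (pn_pos (by omega) _).le
    refine le_trans ?_ p1
    have : (0 : ℝ) < q.1.factorial := by positivity
    nlinarith
  rw [norm_mul, norm_mul, norm_pow, norm_mul, norm_neg, Complex.norm_I, one_mul, Complex.norm_real,
    Complex.norm_real, Complex.norm_real, Real.norm_eq_abs, Real.norm_eq_abs, Real.norm_eq_abs,
    abs_of_nonneg hr, h2, abs_of_pos h3]
  have h5 := (hZ t ht q.1).trans (mul_le_mul_of_nonneg_left (pow_le_exp N q.1) hC.le)
  calc r ^ (q.1 + 2 * q.2) * cf n q.1 q.2 * |Zg ((n : ℝ) / 2 - 1) t q.1|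
      ≤ r ^ (q.1 + 2 * q.2) * (1 / (q.1.factorial * q.2.factorial)) *
        (C * (N.factorial * Real.exp 1 * Real.exp 1 ^ q.1)) := by gcongr
    _ = _ := by
        rw [pow_add, pow_mul, mul_pow]
        field_simp

lemma Zmu_summable {n : ℕ} (hn : 3 ≤ n) (r : ℝ) (hr : 0 ≤ r) (N : ℕ) :
    Summable fun k : ℕ => |mu n k r| * ((k : ℝ) + 1) ^ N := by
  have h1 : Summable fun k : ℕ => (N.factorial * Real.exp 1 * Real.exp (r ^ 2)) *
      ((Real.exp 1 * r / 2) ^ k / (k.factorial : ℝ)) :=
    (Real.summable_pow_div_factorial _).mul_left _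
  apply Summable.of_nonneg_of_le (fun k => by positivity) _ h1
  intro k
  have h2 := mu_bound (show 2 ≤ n by omega) k hr
  have h3 : Real.exp (r ^ 2 / (2 * (2 * k + n : ℕ))) ≤ Real.exp (r ^ 2) := by
    apply Real.exp_le_exp.mpr
    apply div_le_self (sq_nonneg r)
    have : (1 : ℝ) ≤ (2 * k + n : ℕ) := by exact_mod_cast (by omega : 1 ≤ 2 * k + n)
    linarith
  have h4 := pow_le_exp N k
  calc |mu n k r| * ((k : ℝ) + 1) ^ N
      ≤ ((r / 2) ^ k / k.factorial * Real.exp (r ^ 2)) *
        (N.factorial * Real.exp 1 * Real.exp 1 ^ k) := by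
        apply mul_le_mul (h2.trans (mul_le_mul_of_nonneg_left h3 (by positivity))) h4
          (by positivity) (by positivity)
    _ = _ := by
        rw [div_pow, mul_div_assoc, mul_pow, div_pow]
        field_simp

/-- **Plane wave expansion.** -/
theorem plane_wave {n : ℕ} (hn : 3 ≤ n) {t : ℝ} (ht : |t| ≤ 1) {r : ℝ} (hr : 0 ≤ r) :
    HasSum (fun k : ℕ => (-Complex.I) ^ k * (mu n k r : ℂ) * (Zg ((n : ℝ) / 2 - 1) t k : ℂ))
      (Complex.exp (-Complex.I * (r * t))) := by
  have hs := ff_summable hn ht hr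
  have h1 : ∑' m, ∑' k, ff n t r (m, k) = Complex.exp (-Complex.I * (r * t)) := by
    have e1 : ∀ m, ∑' k, ff n t r (m, k) = (-Complex.I * (r * t)) ^ m / (m.factorial : ℂ) := by
      intro m
      rw [tsum_eq_sum (s := Finset.range (m + 1))]
      · have h := pow_exp hn t m (m + 1) (by omega)
        have h' : ∑ k ∈ Finset.range (m + 1), (af n m k : ℂ) * (Zg ((n : ℝ) / 2 - 1) t k : ℂ) =
            (t : ℂ) ^ m / (m.factorial : ℂ) := by
          exact_mod_cast congrArg (fun x : ℝ => (x : ℂ)) h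
        unfold ff
        simp only [mul_assoc]
        rw [← Finset.mul_sum, h', ← mul_assoc, mul_pow, mul_pow, mul_pow]
        ring
      · intro k hk
        rw [Finset.mem_range] at hk
        have : af n m k = 0 := (af_eq (by omega) m k).2 (fun j hj => by omega)
        unfold ff
        simp only [this]
        simp
    simp_rw [e1]
    rw [Complex.exp_eq_exp_ℂ]
    exact (NormedSpace.expSeries_div_hasSum_exp (-Complex.I * (r * t) : ℂ)).tsum_eq
  have h2 : ∀ k, ∑' m, ff n t r (m, k) =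
      (-Complex.I) ^ k * (mu n k r : ℂ) * (Zg ((n : ℝ) / 2 - 1) t k : ℂ) := by
    intro k
    have hinj : Function.Injective fun j : ℕ => k + 2 * j := fun a b h => by
      simp only at h; omega
    have hsupp : Function.support (fun m => ff n t r (m, k)) ⊆ Set.range fun j : ℕ => k + 2 * j := by
      intro m hm
      by_contra hc
      apply hm
      have : af n m k = 0 := (af_eq (by omega) m k).2 (fun j hj => hc ⟨j, hj.symm⟩)
      unfold ff
      simp only [this]
      simp
    rw [← hinj.tsum_eq hsupp]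
    have e2 : ∀ j : ℕ, ff n t r (k + 2 * j, k) = ((-Complex.I) ^ k * (r : ℂ) ^ k / (pn n k : ℂ) *
        (Zg ((n : ℝ) / 2 - 1) t k : ℂ)) *
          (((-1 : ℝ) ^ j * r ^ (2 * j) / DD j (2 * k + n) : ℝ) : ℂ) := by
      intro j
      unfold ff
      simp only
      rw [(af_eq (by omega) (k + 2 * j) k).1 j rfl, cf, pow_add, pow_mul, mul_pow, mul_pow,
        mul_pow, neg_sq, Complex.I_sq]
      push_cast
      have p1 : (pn n k : ℂ) ≠ 0 := by exact_mod_cast (pn_pos (show 2 ≤ n by omega) k).ne'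
      have p2 : (DD j (2 * k + n) : ℂ) ≠ 0 := by
        exact_mod_cast (DD_pos j (2 * k + n) (by omega)).ne'
      rw [pow_mul]
      field_simp
    simp_rw [e2]
    rw [tsum_mul_left, ← Complex.ofReal_tsum]
    have : ∑' j : ℕ, (-1 : ℝ) ^ j * r ^ (2 * j) / DD j (2 * k + n) = phi (2 * k + n) r := rfl
    rw [this]
    unfold mu
    push_cast
    ring
  have h3 := hs.tsum_comm (f := fun m k => ff n t r (m, k))
  rw [h1] at h3
  simp_rw [h2] at h3
  rw [← h3]
  -- summability
  have hn' : (3 : ℝ) ≤ n := by exact_mod_cast hn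
  obtain ⟨C, N, hC, hZ⟩ := Zg_bound (l := (n : ℝ) / 2 - 1) (by linarith)
  apply Summable.hasSum
  refine Summable.of_norm_bounded ((Zmu_summable hn r hr N).mul_left C) ?_
  intro k
  rw [norm_mul, norm_mul, norm_pow, norm_neg, Complex.norm_I, one_pow, one_mul, Complex.norm_real,
    Complex.norm_real, Real.norm_eq_abs, Real.norm_eq_abs]
  have := mul_le_mul_of_nonneg_left (hZ t ht k) (abs_nonneg (mu n k r))
  linarith

end Pool.Agent.W5h46.LS
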