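import Mathlib
import Pool.Agent.W5h46.LS.Gen
set_option autoImplicit false

/-! Pointwise domination of the kernel at a complex point by the Poisson type kernel. -/

namespace Pool.Agent.W5h46.LS

open Finset Complex

/-- Poisson type kernel -/
noncomputable def PK (l ρ t : ℝ) : ℝ := (1 - ρ ^ 2) / (1 - 2 * t * ρ + ρ ^ 2) ^ (l + 1)

lemma quad_pos {t ρ : ℝ} (ht : |t| ≤ 1) (h0 : 0 ≤ ρ) (h1 : ρ < 1) :
    (1 - ρ) ^ 2 ≤ 1 - 2 * t * ρ + ρ ^ 2 := by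
  have := (abs_le.mp ht).2
  nlinarith

lemma PK_pos {l t ρ : ℝ} (ht : |t| ≤ 1) (h0 : 0 ≤ ρ) (h1 : ρ < 1) : 0 < PK l ρ t := by
  have h := quad_pos ht h0 h1
  have h2 : 0 < (1 - ρ) ^ 2 := by
    apply pow_pos; linarith
  have h3 : 0 < 1 - ρ ^ 2 := by nlinarith
  unfold PK
  exact div_pos h3 (Real.rpow_pos_of_pos (by linarith) _)

lemma quad_norm {t ρ : ℝ} (ht : |t| ≤ 1) (h0 : 0 ≤ ρ) (h1 : ρ < 1) :
    ‖1 - wp t * (ρ : ℂ)‖ * ‖1 - wm t * (ρ : ℂ)‖ = 1 - 2 * t * ρ + ρ ^ 2 := by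
  rw [← norm_mul]
  have e0 : (1 - wp t * (ρ : ℂ)) * (1 - wm t * (ρ : ℂ)) = ((1 - 2 * t * ρ + ρ ^ 2 : ℝ) : ℂ) := by
    have h1 := wpm ht
    have h2 := wps t
    push_cast
    linear_combination (-(ρ : ℂ)) * h2 + (ρ : ℂ) ^ 2 * h1
  rw [e0, norm_real, Real.norm_eq_abs, abs_of_nonneg]
  have h := quad_pos ht h0 h1
  exact le_trans (sq_nonneg _) h

lemma Kz_le {l : ℝ} (hl : 0 < l) {t ρ : ℝ} (ht : |t| ≤ 1) (h0 : 0 ≤ ρ) (h1 : ρ < 1) (θ : ℝ) :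
    ‖Kz l t (ρ * exp (I * θ))‖ ≤ (1 + 2 * |θ| / (1 - ρ)) ^ (2 * l + 3) * PK l ρ t := by
  set z : ℂ := ρ * exp (I * θ) with hz
  have h1' : 0 < 1 - ρ := by linarith
  have hzn : ‖z‖ = ρ := by
    rw [hz, norm_mul, norm_real, Real.norm_eq_abs, abs_of_nonneg h0, mul_comm I, norm_exp_ofReal_mul_I,
      mul_one]
  have hz1 : ‖z‖ < 1 := by rw [hzn]; exact h1
  rw [Kz_norm hl ht hz1]
  have hd : ‖z - ρ‖ ≤ |θ| := by
    have e : z - ρ = ρ * (exp (I * θ) - 1) := by rw [hz]; ring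
    rw [e, norm_mul, norm_real, Real.norm_eq_abs, abs_of_nonneg h0]
    have h2 := Real.norm_exp_I_mul_ofReal_sub_one_le (x := θ)
    rw [Real.norm_eq_abs] at h2
    calc ρ * ‖exp (I * θ) - 1‖ ≤ 1 * |θ| := mul_le_mul h1.le h2 (norm_nonneg _) zero_le_one
      _ = |θ| := one_mul _
  set A : ℝ := 1 + 2 * |θ| / (1 - ρ) with hA
  have hA1 : 1 ≤ A := by
    have : 0 ≤ 2 * |θ| / (1 - ρ) := by positivity
    linarith
  have fac : ∀ w : ℂ, ‖w‖ = 1 → ‖1 - w * (ρ : ℂ)‖ ≤ A * ‖1 - w * z‖ := by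
    intro w hw
    have a1 : 1 - ρ ≤ ‖1 - w * z‖ := by
      have := norm_sub_norm_le (1 : ℂ) (w * z)
      rw [norm_one, norm_mul, hw, one_mul, hzn] at this
      exact this
    have a2 : ‖1 - w * (ρ : ℂ)‖ ≤ ‖1 - w * z‖ + |θ| := by
      have e : 1 - w * (ρ : ℂ) = (1 - w * z) + w * (z - ρ) := by ring
      rw [e]
      refine (norm_add_le _ _).trans ?_
      rw [norm_mul w, hw, one_mul]
      linarith
    have a3 : |θ| ≤ 2 * |θ| / (1 - ρ) * ‖1 - w * z‖ := by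
      have : |θ| / (1 - ρ) * (1 - ρ) ≤ |θ| / (1 - ρ) * ‖1 - w * z‖ :=
        mul_le_mul_of_nonneg_left a1 (by positivity)
      rw [div_mul_cancel₀ _ h1'.ne'] at this
      have e2 : 2 * |θ| / (1 - ρ) * ‖1 - w * z‖ = 2 * (|θ| / (1 - ρ) * ‖1 - w * z‖) := by ring
      rw [e2]
      have := abs_nonneg θ
      linarith
    rw [hA, add_mul, one_mul]
    linarith
  have num : ‖1 - z ^ 2‖ ≤ A * (1 - ρ ^ 2) := by
    have e : 1 - z ^ 2 = (1 - (ρ : ℂ) ^ 2) - (z - ρ) * (z + ρ) := by ring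
    have h3 : ‖(1 - (ρ : ℂ) ^ 2)‖ = 1 - ρ ^ 2 := by
      have : (1 - (ρ : ℂ) ^ 2) = ((1 - ρ ^ 2 : ℝ) : ℂ) := by push_cast; ring
      rw [this, norm_real, Real.norm_eq_abs, abs_of_nonneg (by nlinarith)]
    have h4 : ‖z + ρ‖ ≤ 2 * ρ := by
      refine (norm_add_le _ _).trans ?_
      rw [hzn, norm_real, Real.norm_eq_abs, abs_of_nonneg h0]
      linarith
    have h5 : ‖1 - z ^ 2‖ ≤ (1 - ρ ^ 2) + |θ| * (2 * ρ) := by
      rw [e]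
      refine (norm_sub_le _ _).trans ?_
      rw [h3, norm_mul]
      have := mul_le_mul hd h4 (norm_nonneg _) (abs_nonneg θ)
      linarith
    refine h5.trans ?_
    have e3 : A * (1 - ρ ^ 2) = (1 - ρ ^ 2) + 2 * |θ| * (1 + ρ) := by
      rw [hA]
      field_simp
      ring
    rw [e3]
    nlinarith [abs_nonneg θ]
  have p1 : 0 < ‖1 - wp t * z‖ := one_sub_ne (by rwa [norm_mul, wp_norm ht, one_mul])
  have p2 : 0 < ‖1 - wm t * z‖ := one_sub_ne (by rwa [norm_mul, wm_norm ht, one_mul])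
  have r1 : 0 < ‖1 - wp t * (ρ : ℂ)‖ := one_sub_ne (by
    rwa [norm_mul, wp_norm ht, one_mul, norm_real, Real.norm_eq_abs, abs_of_nonneg h0])
  have r2 : 0 < ‖1 - wm t * (ρ : ℂ)‖ := one_sub_ne (by
    rwa [norm_mul, wm_norm ht, one_mul, norm_real, Real.norm_eq_abs, abs_of_nonneg h0])
  have den : (‖1 - wp t * (ρ : ℂ)‖ * ‖1 - wm t * (ρ : ℂ)‖) ^ (l + 1) ≤
      A ^ (2 * l + 2) * (‖1 - wp t * z‖ * ‖1 - wm t * z‖) ^ (l + 1) := by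
    have e : A ^ (2 * l + 2) = (A * A) ^ (l + 1) := by
      rw [Real.mul_rpow (by linarith) (by linarith), ← Real.rpow_add (by linarith)]
      congr 1
      ring
    rw [e, ← Real.mul_rpow (by positivity) (by positivity)]
    apply Real.rpow_le_rpow (by positivity) _ (by linarith)
    calc ‖1 - wp t * (ρ : ℂ)‖ * ‖1 - wm t * (ρ : ℂ)‖
        ≤ (A * ‖1 - wp t * z‖) * (A * ‖1 - wm t * z‖) :=
          mul_le_mul (fac _ (wp_norm ht)) (fac _ (wm_norm ht)) (norm_nonneg _) (by positivity)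
      _ = _ := by ring
  unfold PK
  rw [← quad_norm ht h0 h1]
  have hA0 : 0 < A := by linarith
  have e4 : A ^ (2 * l + 3) = A * A ^ (2 * l + 2) := by
    rw [show 2 * l + 3 = 1 + (2 * l + 2) by ring, Real.rpow_add hA0, Real.rpow_one]
  rw [e4, div_le_iff₀ (by positivity)]
  have hP : 0 < (‖1 - wp t * (ρ : ℂ)‖ * ‖1 - wm t * (ρ : ℂ)‖) ^ (l + 1) := by positivity
  have h6 : A * (1 - ρ ^ 2) ≤ A * A ^ (2 * l + 2) * ((1 - ρ ^ 2) /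
      (‖1 - wp t * (ρ : ℂ)‖ * ‖1 - wm t * (ρ : ℂ)‖) ^ (l + 1)) *
      (‖1 - wp t * z‖ * ‖1 - wm t * z‖) ^ (l + 1) := by
    have e5 : A * A ^ (2 * l + 2) * ((1 - ρ ^ 2) /
      (‖1 - wp t * (ρ : ℂ)‖ * ‖1 - wm t * (ρ : ℂ)‖) ^ (l + 1)) *
      (‖1 - wp t * z‖ * ‖1 - wm t * z‖) ^ (l + 1) = A * (1 - ρ ^ 2) *
      ((A ^ (2 * l + 2) * (‖1 - wp t * z‖ * ‖1 - wm t * z‖) ^ (l + 1)) /
      (‖1 - wp t * (ρ : ℂ)‖ * ‖1 - wm t * (ρ : ℂ)‖) ^ (l + 1)) := by ring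
    rw [e5]
    have h7 : 1 ≤ (A ^ (2 * l + 2) * (‖1 - wp t * z‖ * ‖1 - wm t * z‖) ^ (l + 1)) /
      (‖1 - wp t * (ρ : ℂ)‖ * ‖1 - wm t * (ρ : ℂ)‖) ^ (l + 1) := by
      rw [le_div_iff₀ hP, one_mul]
      exact den
    have h8 : 0 ≤ A * (1 - ρ ^ 2) := mul_nonneg hA0.le (by nlinarith)
    nlinarith
  exact num.trans h6

/-- the normalised Dirichlet kernel -/
noncomputable def DM (M : ℕ) (θ : ℝ) : ℂ := (1 / (M : ℂ)) * ∑ j ∈ range M, exp (I * θ) ^ j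

lemma DM_le_one {M : ℕ} (hM : 0 < M) (θ : ℝ) : ‖DM M θ‖ ≤ 1 := by
  unfold DM
  rw [norm_mul, norm_div, norm_one, norm_natCast]
  have h : ‖∑ j ∈ range M, exp (I * θ) ^ j‖ ≤ M := by
    have h1 : ‖∑ j ∈ range M, exp (I * θ) ^ j‖ ≤ ∑ j ∈ range M, (1 : ℝ) :=
      norm_sum_le_of_le _ (fun j _ => by
        rw [norm_pow, mul_comm I, norm_exp_ofReal_mul_I, one_pow])
    simpa using h1
  rw [one_div, inv_mul_le_iff₀ (by exact_mod_cast hM), mul_one]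
  exact h

lemma DM_decay {M : ℕ} (hM : 0 < M) {θ : ℝ} (hθ : |θ| ≤ Real.pi) : ‖DM M θ‖ * (M * |θ|) ≤ Real.pi := by
  by_cases h0 : θ = 0
  · rw [h0]
    simp [Real.pi_pos.le]
  have hθ0 : 0 < |θ| := abs_pos.mpr h0
  have hM' : (0 : ℝ) < M := by exact_mod_cast hM
  have h1 : 2 / Real.pi * |θ| ≤ ‖exp (I * θ) - 1‖ := by
    rw [norm_exp_I_mul_ofReal_sub_one, norm_mul, Real.norm_eq_abs, Real.norm_eq_abs, abs_two]
    have h2 := Real.mul_abs_le_abs_sin (x := θ / 2) (by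
      rw [abs_div, abs_two]; linarith)
    rw [abs_div, abs_two] at h2
    linarith
  have h2 : (∑ j ∈ range M, exp (I * θ) ^ j) * (exp (I * θ) - 1) = exp (I * θ) ^ M - 1 :=
    geom_sum_mul _ _
  have h3 : ‖∑ j ∈ range M, exp (I * θ) ^ j‖ * ‖exp (I * θ) - 1‖ ≤ 2 := by
    rw [← norm_mul, h2]
    refine (norm_sub_le _ _).trans ?_
    rw [norm_pow, mul_comm I, norm_exp_ofReal_mul_I, one_pow, norm_one]
    norm_num
  have h4 : ‖DM M θ‖ * M = ‖∑ j ∈ range M, exp (I * θ) ^ j‖ := by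
    unfold DM
    rw [norm_mul, norm_div, norm_one, norm_natCast]
    field_simp
  have h5 : ‖∑ j ∈ range M, exp (I * θ) ^ j‖ * (2 / Real.pi * |θ|) ≤ 2 :=
    (mul_le_mul_of_nonneg_left h1 (norm_nonneg _)).trans h3
  rw [← mul_assoc, h4]
  have hpi := Real.pi_pos
  have h6 : ‖∑ j ∈ range M, exp (I * θ) ^ j‖ * |θ| =
      (‖∑ j ∈ range M, exp (I * θ) ^ j‖ * (2 / Real.pi * |θ|)) * (Real.pi / 2) := by
    field_simp
  rw [h6]
  nlinarith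

lemma DM_pow {M : ℕ} (hM : 0 < M) {θ : ℝ} (hθ : |θ| ≤ Real.pi) (N : ℕ) :
    ‖DM M θ ^ (N + 2)‖ * (1 + M * |θ|) ^ N ≤
      (1 + Real.pi) ^ N * (1 + Real.pi ^ 2) * (1 + (M * θ) ^ 2)⁻¹ := by
  have h1 := DM_le_one hM θ
  have h2 := DM_decay hM hθ
  have h0 := norm_nonneg (DM M θ)
  have hx : 0 ≤ (M : ℝ) * |θ| := by positivity
  have h3 : ‖DM M θ‖ * (1 + M * |θ|) ≤ 1 + Real.pi := by
    rw [mul_add, mul_one]; linarith
  have h4 : ‖DM M θ‖ ^ 2 * (1 + (M * θ) ^ 2) ≤ 1 + Real.pi ^ 2 := by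
    have e : ((M : ℝ) * θ) ^ 2 = (M * |θ|) ^ 2 := by rw [mul_pow, mul_pow, sq_abs]
    rw [e, mul_add, mul_one, ← mul_pow]
    have a1 : ‖DM M θ‖ ^ 2 ≤ 1 := pow_le_one₀ h0 h1
    have a2 : (‖DM M θ‖ * (M * |θ|)) ^ 2 ≤ Real.pi ^ 2 :=
      pow_le_pow_left₀ (by positivity) h2 2
    linarith
  rw [norm_pow, pow_add, mul_assoc, mul_comm (‖DM M θ‖ ^ 2), ← mul_assoc, ← mul_pow, mul_assoc]
  have h5 : ‖DM M θ‖ ^ 2 ≤ (1 + Real.pi ^ 2) * (1 + (M * θ) ^ 2)⁻¹ := by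
    rw [← div_eq_mul_inv, le_div_iff₀ (by positivity)]
    exact h4
  apply mul_le_mul _ h5 (by positivity) (by positivity)
  exact pow_le_pow_left₀ (by positivity) h3 N

end Pool.Agent.W5h46.LS
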