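import Mathlib
import Pool.Agent.W5h46.LS.Kern
set_option autoImplicit false

/-! Extraction of one Taylor coefficient surrounded by a gap. -/

namespace Pool.Agent.W5h46.LS

open Finset Complex MeasureTheory

/-- the averaging polynomial -/
noncomputable def QP (M : ℕ) : Polynomial ℝ :=
  Polynomial.C (1 / (M : ℝ)) * ∑ j ∈ range M, Polynomial.X ^ j

lemma coeff_mul_nonneg {p q : Polynomial ℝ} (hp : ∀ k, 0 ≤ p.coeff k) (hq : ∀ k, 0 ≤ q.coeff k)
    (k : ℕ) : 0 ≤ (p * q).coeff k := by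
  rw [Polynomial.coeff_mul]
  exact sum_nonneg fun _ _ => mul_nonneg (hp _) (hq _)

lemma QP_nonneg (M N k : ℕ) : 0 ≤ ((QP M) ^ N).coeff k := by
  induction N generalizing k with
  | zero =>
    rw [pow_zero, Polynomial.coeff_one]
    split_ifs <;> norm_num
  | succ N ih =>
    rw [pow_succ]
    apply coeff_mul_nonneg ih
    intro m
    unfold QP
    rw [Polynomial.coeff_C_mul, Polynomial.finsetSum_coeff]
    apply mul_nonneg (by positivity)
    apply sum_nonneg
    intro j _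
    rw [Polynomial.coeff_X_pow]
    split_ifs <;> norm_num

lemma QP_deg (M N : ℕ) : ((QP M) ^ N).natDegree ≤ N * (M - 1) := by
  apply Polynomial.natDegree_pow_le_of_le
  unfold QP
  refine (Polynomial.natDegree_C_mul_le _ _).trans ?_
  apply Polynomial.natDegree_sum_le_of_forall_le
  intro j hj
  rw [mem_range] at hj
  exact (Polynomial.natDegree_X_pow_le j).trans (by omega)

lemma QP_one {M : ℕ} (hM : 0 < M) (N : ℕ) : ((QP M) ^ N).eval 1 = 1 := by
  have hM' : (M : ℝ) ≠ 0 := by exact_mod_cast hM.ne'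
  have : (QP M).eval 1 = 1 := by
    unfold QP
    simp [Polynomial.eval_finsetSum, hM']
  rw [Polynomial.eval_pow, this, one_pow]

lemma DM_eq (M N : ℕ) (L : ℕ) (hL : N * (M - 1) < L) (θ : ℝ) :
    DM M θ ^ N = ∑ m ∈ range L, ((((QP M) ^ N).coeff m : ℝ) : ℂ) * exp (I * θ) ^ m := by
  have h1 : DM M θ ^ N = (((QP M) ^ N).map (algebraMap ℝ ℂ)).eval (exp (I * θ)) := by
    rw [Polynomial.map_pow, Polynomial.eval_pow]
    congr 1
    unfold DM QP
    rw [Polynomial.map_mul, Polynomial.eval_mul, Polynomial.map_C, Polynomial.eval_C,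
      Polynomial.map_sum, Polynomial.eval_finsetSum]
    simp
  have h2 : (((QP M) ^ N).map (algebraMap ℝ ℂ)).natDegree < L :=
    lt_of_le_of_lt (Polynomial.natDegree_map_le.trans (QP_deg M N)) hL
  rw [h1, Polynomial.eval_eq_sum_range' h2]
  apply sum_congr rfl
  intro m _
  rw [Polynomial.coeff_map]
  rfl

lemma QP_big {M : ℕ} (hM : 0 < M) {N : ℕ} (hN : 0 < N) :
    ∃ m0, m0 ≤ N * (M - 1) ∧ 1 / ((N : ℝ) * M) ≤ ((QP M) ^ N).coeff m0 := by
  have hL : N * (M - 1) < N * M := Nat.mul_lt_mul_of_pos_left (by omega) hN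
  have h1 := QP_one hM N
  rw [Polynomial.eval_eq_sum_range' (lt_of_le_of_lt (QP_deg M N) hL)] at h1
  simp only [one_pow, mul_one] at h1
  have hpos : (0 : ℝ) < (N : ℝ) * M := by
    exact_mod_cast Nat.mul_pos hN hM
  obtain ⟨m0, _, h2⟩ := exists_le_of_sum_le (s := range (N * M)) (f := fun _ => 1 / ((N : ℝ) * M))
    (g := fun m => ((QP M) ^ N).coeff m) ⟨0, by rw [mem_range]; exact Nat.mul_pos hN hM⟩ (by
      rw [h1, sum_const, card_range, nsmul_eq_mul]
      push_cast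
      rw [mul_one_div, div_self hpos.ne'])
  refine ⟨m0, ?_, h2⟩
  by_contra hlt
  push Not at hlt
  have h3 : ((QP M) ^ N).coeff m0 = 0 :=
    Polynomial.coeff_eq_zero_of_natDegree_lt (lt_of_le_of_lt (QP_deg M N) hlt)
  have h4 : 1 / ((N : ℝ) * M) ≤ ((QP M) ^ N).coeff m0 := h2
  rw [h3] at h4
  have : 0 < 1 / ((N : ℝ) * M) := by positivity
  linarith

lemma int_exp (a : ℤ) : ∫ θ in Set.Ioc (-Real.pi) Real.pi, exp (I * (θ : ℂ) * a) =
    if a = 0 then ((2 * Real.pi : ℝ) : ℂ) else 0 := by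
  have hpi := Real.pi_pos
  split_ifs with h
  · rw [h]
    simp [hpi.le]
    ring
  · rw [← intervalIntegral.integral_of_le (by linarith)]
    have ha : I * (a : ℂ) ≠ 0 := mul_ne_zero I_ne_zero (by exact_mod_cast h)
    have h1 := integral_exp_mul_complex (a := -Real.pi) (b := Real.pi) ha
    have e : ∀ θ : ℝ, exp (I * (θ : ℂ) * a) = exp (I * a * θ) := by
      intro θ; ring_nf
    simp_rw [e]
    rw [h1]
    have h2 : exp (I * a * (Real.pi : ℝ)) = exp (I * a * ((-Real.pi : ℝ) : ℂ)) := by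
      have e2 : I * a * (Real.pi : ℝ) = I * a * ((-Real.pi : ℝ) : ℂ) + a * (2 * Real.pi * I) := by
        push_cast; ring
      rw [e2, exp_add, exp_int_mul_two_pi_mul_I, mul_one]
    rw [h2, sub_self, zero_div]

lemma rho_pow (k : ℕ) : (1 : ℝ) / 3 ≤ ((k : ℝ) / (k + 1)) ^ k := by
  rcases Nat.eq_zero_or_pos k with h | h
  · rw [h]; norm_num
  have hk : (0 : ℝ) < k := by exact_mod_cast h
  have h1 : (((k : ℝ) + 1) / k) ^ k ≤ 3 := by
    have h2 : ((k : ℝ) + 1) / k ≤ Real.exp (1 / k) := by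
      have := Real.add_one_le_exp (1 / (k : ℝ))
      rw [add_div, div_self hk.ne']
      linarith
    have h3 : (((k : ℝ) + 1) / k) ^ k ≤ Real.exp (1 / k) ^ k :=
      pow_le_pow_left₀ (by positivity) h2 k
    have h4 : Real.exp (1 / (k : ℝ)) ^ k = Real.exp 1 := by
      rw [← Real.exp_nat_mul]
      congr 1
      field_simp
    rw [h4] at h3
    have := Real.exp_one_lt_d9
    linarith
  have h5 : ((k : ℝ) / (k + 1)) ^ k = ((((k : ℝ) + 1) / k) ^ k)⁻¹ := by
    rw [← inv_pow, inv_div]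
  rw [h5, one_div]
  exact inv_anti₀ (by positivity) h1

lemma int_bump {M : ℕ} (hM : 0 < M) :
    ∫ θ in Set.Ioc (-Real.pi) Real.pi, (1 + ((M : ℝ) * θ) ^ 2)⁻¹ ≤ Real.pi / M := by
  have hM' : (0 : ℝ) < M := by exact_mod_cast hM
  have hi : Integrable (fun θ : ℝ => (1 + ((M : ℝ) * θ) ^ 2)⁻¹) :=
    integrable_inv_one_add_sq.comp_mul_left' hM'.ne'
  refine (setIntegral_le_integral hi (Filter.Eventually.of_forall fun θ => by positivity)).trans ?_
  have := Measure.integral_comp_mul_left (fun x : ℝ => (1 + x ^ 2)⁻¹) (M : ℝ)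
  rw [this, integral_univ_inv_one_add_sq, abs_of_pos (by positivity), smul_eq_mul]
  rw [div_eq_inv_mul]

/-- **Extraction of a coefficient.** -/
theorem extract (N : ℕ) : ∃ C : ℝ, 0 < C ∧ ∀ (Y : ℕ → ℂ) (k M : ℕ) (B : ℝ), 0 < M → 0 ≤ B →
    (Summable fun l : ℕ => ‖Y l‖ * ((k : ℝ) / (k + 1)) ^ l) →
    (∀ l, Y l ≠ 0 → l ≠ k → (((N + 2) * (M - 1) : ℕ) : ℤ) < |(l : ℤ) - k|) →
    (∀ θ : ℝ, |θ| ≤ Real.pi → ‖∑' l : ℕ, Y l * (((k : ℝ) / (k + 1) : ℝ) * exp (I * θ)) ^ l‖ ≤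
      (1 + 2 * (k + 1) * |θ|) ^ N * B) →
    ‖Y k‖ ≤ C * (1 + 2 * (k + 1) / M) ^ N * B := by
  refine ⟨3 / 2 * (N + 2) * ((1 + Real.pi) ^ N * (1 + Real.pi ^ 2)), by positivity, ?_⟩
  intro Y k M B hM hB hsum hgap hF
  have hM' : (0 : ℝ) < M := by exact_mod_cast hM
  set ρ : ℝ := (k : ℝ) / (k + 1) with hρ
  have hρ0 : 0 ≤ ρ := by positivity
  obtain ⟨m0, hm0, hq⟩ := QP_big hM (N := N + 2) (by omega)
  set q : ℕ → ℝ := fun m => ((QP M) ^ (N + 2)).coeff m with hqd
  have hqz : ∀ m, (N + 2) * (M - 1) < m → q m = 0 := fun m hm =>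
    Polynomial.coeff_eq_zero_of_natDegree_lt (lt_of_le_of_lt (QP_deg M (N + 2)) hm)
  set L := (N + 2) * (M - 1) + 1 with hL
  have hDM : ∀ θ : ℝ, DM M θ ^ (N + 2) = ∑ m ∈ range L, (q m : ℂ) * exp (I * θ) ^ m :=
    fun θ => DM_eq M (N + 2) L (by omega) θ
  set μ : Measure ℝ := volume.restrict (Set.Ioc (-Real.pi) Real.pi) with hμ
  set f : ℕ → ℝ → ℂ := fun l θ => exp (-(I * θ * ((k + m0 : ℕ) : ℂ))) * DM M θ ^ (N + 2) *
    (Y l * ((ρ : ℂ) * exp (I * θ)) ^ l) with hf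
  have hexp : ∀ θ : ℝ, ‖exp (I * (θ : ℂ))‖ = 1 := fun θ => by
    rw [mul_comm I, norm_exp_ofReal_mul_I]
  have hexp2 : ∀ θ : ℝ, ‖exp (-(I * θ * ((k + m0 : ℕ) : ℂ)))‖ = 1 := fun θ => by
    have : -(I * θ * ((k + m0 : ℕ) : ℂ)) = ((-(θ * (k + m0 : ℕ)) : ℝ) : ℂ) * I := by
      push_cast; ring
    rw [this, norm_exp_ofReal_mul_I]
  have hfc : ∀ l, Continuous (f l) := by
    intro l
    simp only [hf, DM]
    fun_prop
  have hfn : ∀ l θ, ‖f l θ‖ ≤ ‖Y l‖ * ρ ^ l := by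
    intro l θ
    simp only [hf]
    rw [norm_mul, norm_mul, norm_mul, hexp2, one_mul, norm_pow, norm_pow, norm_mul, hexp, mul_one,
      norm_real, Real.norm_eq_abs, abs_of_nonneg hρ0]
    have h1 : ‖DM M θ‖ ^ (N + 2) ≤ 1 := pow_le_one₀ (norm_nonneg _) (DM_le_one hM θ)
    have h2 : 0 ≤ ‖Y l‖ * ρ ^ l := by positivity
    nlinarith
  have hfin : IsFiniteMeasure μ := by
    rw [hμ]; infer_instance
  have hμr : μ.real Set.univ = 2 * Real.pi := by
    rw [hμ, measureReal_restrict_apply MeasurableSet.univ, Set.univ_inter, Real.volume_real_Ioc]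
    rw [max_eq_left (by linarith [Real.pi_pos])]
    ring
  have hint : ∀ l, Integrable (f l) μ := by
    intro l
    exact Integrable.of_bound (hfc l).aestronglyMeasurable (‖Y l‖ * ρ ^ l)
      (Filter.Eventually.of_forall (hfn l))
  have hs : Summable fun l => ∫ θ, ‖f l θ‖ ∂μ := by
    apply Summable.of_nonneg_of_le (fun l => integral_nonneg fun _ => norm_nonneg _) _
      (hsum.mul_right (2 * Real.pi))
    intro l
    calc ∫ θ, ‖f l θ‖ ∂μ ≤ ∫ _θ, ‖Y l‖ * ρ ^ l ∂μ :=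
          integral_mono (hint l).norm (integrable_const _) (hfn l)
      _ = ‖Y l‖ * ρ ^ l * (2 * Real.pi) := by
          rw [integral_const, hμr, smul_eq_mul, mul_comm]
  have hmain := hasSum_integral_of_summable_integral_norm hint hs
  -- evaluation of each term
  have heval : ∀ l, ∫ θ, f l θ ∂μ = if l = k then 2 * Real.pi * q m0 * ρ ^ k * Y k else 0 := by
    intro l
    have e1 : ∀ θ : ℝ, f l θ = ∑ m ∈ range L, (Y l * (ρ : ℂ) ^ l * (q m : ℂ)) *
        exp (I * (θ : ℂ) * (((l : ℤ) + m - k - m0 : ℤ) : ℂ)) := by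
      intro θ
      simp only [hf]
      rw [hDM, mul_sum, sum_mul]
      apply sum_congr rfl
      intro m _
      have e2 : exp (I * (θ : ℂ) * (((l : ℤ) + m - k - m0 : ℤ) : ℂ)) =
          exp (-(I * θ * ((k + m0 : ℕ) : ℂ))) * exp (I * θ) ^ m * exp (I * θ) ^ l := by
        rw [← exp_nat_mul, ← exp_nat_mul, ← exp_add, ← exp_add]
        congr 1
        push_cast
        ring
      rw [e2, mul_pow]
      ring
    simp_rw [e1]
    rw [integral_finsetSum]
    · simp_rw [integral_const_mul]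
      have e3 : ∀ m : ℕ, ∫ θ, exp (I * (θ : ℂ) * (((l : ℤ) + m - k - m0 : ℤ) : ℂ)) ∂μ =
          if ((l : ℤ) + m - k - m0 : ℤ) = 0 then ((2 * Real.pi : ℝ) : ℂ) else 0 := fun m =>
        int_exp _
      simp_rw [e3]
      by_cases hlk : l = k
      · rw [if_pos hlk, hlk]
        rw [sum_eq_single m0]
        · rw [if_pos (by ring)]
          push_cast
          ring
        · intro m _ hm
          rw [if_neg (by omega), mul_zero]
        · intro hm
          rw [mem_range] at hm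
          omega
      · rw [if_neg hlk]
        apply sum_eq_zero
        intro m hm
        rw [mem_range] at hm
        by_cases hY : Y l = 0
        · rw [hY]; ring
        · have hg := hgap l hY hlk
          rw [if_neg, mul_zero]
          intro h0
          have h1 : (l : ℤ) - k = m0 - m := by linarith
          rw [h1] at hg
          have h2 : |(m0 : ℤ) - m| ≤ (((N + 2) * (M - 1) : ℕ) : ℤ) := by
            rw [abs_le]
            constructor <;> omega
          omega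
    · intro m _
      apply Integrable.const_mul
      apply Integrable.of_bound (C := 1)
      · exact (by fun_prop : Continuous fun θ : ℝ => exp (I * (θ : ℂ) *
          (((l : ℤ) + m - k - m0 : ℤ) : ℂ))).aestronglyMeasurable
      · refine Filter.Eventually.of_forall fun θ => ?_
        have : I * (θ : ℂ) * (((l : ℤ) + m - k - m0 : ℤ) : ℂ) =
            ((θ * ((l : ℤ) + m - k - m0 : ℤ) : ℝ) : ℂ) * I := by
          push_cast; ring
        rw [this, norm_exp_ofReal_mul_I]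
  have hsing : HasSum (fun l => ∫ θ, f l θ ∂μ) (2 * Real.pi * q m0 * ρ ^ k * Y k) := by
    have h1 := hasSum_single (f := fun l => ∫ θ, f l θ ∂μ) k (fun l hl => by
      rw [heval l, if_neg hl])
    rw [heval k, if_pos rfl] at h1
    exact h1
  have hId := hsing.unique hmain
  -- norm bound
  have hbound : ‖∫ θ, ∑' l, f l θ ∂μ‖ ≤
      B * (1 + 2 * (k + 1) / M) ^ N * ((1 + Real.pi) ^ N * (1 + Real.pi ^ 2)) * (Real.pi / M) := by
    have hpt : ∀ θ ∈ Set.Ioc (-Real.pi) Real.pi, ‖∑' l, f l θ‖ ≤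
        B * (1 + 2 * (k + 1) / M) ^ N * ((1 + Real.pi) ^ N * (1 + Real.pi ^ 2)) *
          (1 + ((M : ℝ) * θ) ^ 2)⁻¹ := by
      intro θ hθ
      have hθ' : |θ| ≤ Real.pi := abs_le.mpr ⟨hθ.1.le, hθ.2⟩
      have e1 : ∑' l, f l θ = exp (-(I * θ * ((k + m0 : ℕ) : ℂ))) * DM M θ ^ (N + 2) *
          ∑' l : ℕ, Y l * ((ρ : ℂ) * exp (I * θ)) ^ l := by
        simp only [hf]
        rw [tsum_mul_left]
      rw [e1, norm_mul, norm_mul, hexp2, one_mul]
      have h1 := hF θ hθ'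
      have h2 := DM_pow hM hθ' N
      have h3 : (1 + 2 * ((k : ℝ) + 1) * |θ|) ≤ (1 + 2 * (k + 1) / M) * (1 + M * |θ|) := by
        have e : (1 + 2 * ((k : ℝ) + 1) / M) * (1 + M * |θ|) =
            1 + 2 * (k + 1) * |θ| + (2 * (k + 1) / M + M * |θ|) := by
          field_simp
          ring
        rw [e]
        have : 0 ≤ 2 * ((k : ℝ) + 1) / M + M * |θ| := by positivity
        linarith
      have h4 : (1 + 2 * ((k : ℝ) + 1) * |θ|) ^ N ≤ (1 + 2 * (k + 1) / M) ^ N * (1 + M * |θ|) ^ N := by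
        rw [← mul_pow]
        exact pow_le_pow_left₀ (by positivity) h3 N
      calc ‖DM M θ ^ (N + 2)‖ * ‖∑' l : ℕ, Y l * ((ρ : ℂ) * exp (I * θ)) ^ l‖
          ≤ ‖DM M θ ^ (N + 2)‖ * ((1 + 2 * (k + 1) / M) ^ N * (1 + M * |θ|) ^ N * B) := by
            apply mul_le_mul_of_nonneg_left _ (norm_nonneg _)
            exact h1.trans (mul_le_mul_of_nonneg_right h4 hB)
        _ = (B * (1 + 2 * (k + 1) / M) ^ N) * (‖DM M θ ^ (N + 2)‖ * (1 + M * |θ|) ^ N) := by ring
        _ ≤ (B * (1 + 2 * (k + 1) / M) ^ N) * ((1 + Real.pi) ^ N * (1 + Real.pi ^ 2) *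
              (1 + ((M : ℝ) * θ) ^ 2)⁻¹) := mul_le_mul_of_nonneg_left h2 (by positivity)
        _ = _ := by ring
    have hi : Integrable (fun θ : ℝ => (1 + ((M : ℝ) * θ) ^ 2)⁻¹) :=
      integrable_inv_one_add_sq.comp_mul_left' hM'.ne'
    calc ‖∫ θ, ∑' l, f l θ ∂μ‖ ≤ ∫ θ, B * (1 + 2 * (k + 1) / M) ^ N *
          ((1 + Real.pi) ^ N * (1 + Real.pi ^ 2)) * (1 + ((M : ℝ) * θ) ^ 2)⁻¹ ∂μ := by
          apply norm_integral_le_of_norm_le (hi.restrict.const_mul _)
          exact (ae_restrict_mem measurableSet_Ioc).mono hpt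
      _ = B * (1 + 2 * (k + 1) / M) ^ N * ((1 + Real.pi) ^ N * (1 + Real.pi ^ 2)) *
          ∫ θ, (1 + ((M : ℝ) * θ) ^ 2)⁻¹ ∂μ := integral_const_mul _ _
      _ ≤ _ := mul_le_mul_of_nonneg_left (int_bump hM) (by positivity)
  rw [← hId, norm_mul, norm_mul, norm_mul, norm_mul, norm_pow, norm_real, norm_real, norm_real,
    Real.norm_eq_abs, Real.norm_eq_abs, Real.norm_eq_abs, abs_of_pos Real.pi_pos,
    abs_of_nonneg hρ0, abs_of_nonneg (QP_nonneg M (N + 2) m0), Complex.norm_ofNat] at hbound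
  have hρk : (1 : ℝ) / 3 ≤ ρ ^ k := rho_pow k
  have hlow : 2 * Real.pi * (1 / (((N : ℝ) + 2) * M)) * (1 / 3) * ‖Y k‖ ≤
      2 * Real.pi * q m0 * ρ ^ k * ‖Y k‖ := by
    apply mul_le_mul_of_nonneg_right _ (norm_nonneg _)
    apply mul_le_mul _ hρk (by norm_num) (mul_nonneg (by positivity) (QP_nonneg M (N + 2) m0))
    apply mul_le_mul_of_nonneg_left _ (by positivity)
    have : (((N + 2 : ℕ) : ℝ)) = (N : ℝ) + 2 := by push_cast; ring
    rw [← this]
    exact hq
  have h9 := hlow.trans hbound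
  have hpi := Real.pi_pos
  have e9 : 2 * Real.pi * (1 / (((N : ℝ) + 2) * M)) * (1 / 3) * ‖Y k‖ =
      ‖Y k‖ * (2 * Real.pi / (3 * (N + 2) * M)) := by
    field_simp
  rw [e9, ← le_div_iff₀ (by positivity)] at h9
  refine h9.trans (le_of_eq ?_)
  field_simp

end Pool.Agent.W5h46.LS
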