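import Mathlib
import Pool.Agent.H789R2.FR.Caps
import Pool.Agent.W5h46.LS.Ext
set_option autoImplicit false

/-! Zonal projections on the sphere: Poisson kernel bounds and extraction. -/

namespace Pool.Agent.W5h46.LS

open MeasureTheory Measure Set Metric Complex
open Pool.Agent.H789R2.FR
open scoped ENNReal RealInnerProductSpace

/-- `n/2 - 1` -/
noncomputable def lam (n : ℕ) : ℝ := (n : ℝ) / 2 - 1

lemma lam_pos {n : ℕ} (hn : 3 ≤ n) : 0 < lam n := by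
  have : (3 : ℝ) ≤ n := by exact_mod_cast hn
  unfold lam; linarith

lemma inner_le {n : ℕ} {x y : E n} (hx : ‖x‖ = 1) (hy : ‖y‖ = 1) : |(⟪x, y⟫ : ℝ)| ≤ 1 := by
  have := abs_real_inner_le_norm x y
  rwa [hx, hy, one_mul] at this

lemma quad_low {n : ℕ} {x y : E n} (hx : ‖x‖ = 1) (hy : ‖y‖ = 1) {ρ : ℝ} (h0 : 0 ≤ ρ) (h1 : ρ < 1) :
    ((1 - ρ) ^ 2 + ‖x - y‖ ^ 2) / 17 ≤ 1 - 2 * (⟪x, y⟫ : ℝ) * ρ + ρ ^ 2 := by
  have h2 : ‖x - y‖ ^ 2 = 2 - 2 * (⟪x, y⟫ : ℝ) := by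
    rw [norm_sub_sq_real, hx, hy]; ring
  have h3 := (abs_le.mp (inner_le hx hy)).1
  have h4 := (abs_le.mp (inner_le hx hy)).2
  rw [h2]
  set t : ℝ := ⟪x, y⟫
  rcases le_or_gt (1 / 2) ρ with h | h
  · nlinarith
  · nlinarith

lemma PK_le {n : ℕ} {x y : E n} (hx : ‖x‖ = 1) (hy : ‖y‖ = 1) {ρ : ℝ} (h0 : 0 ≤ ρ) (h1 : ρ < 1)
    {κ : ℝ} (hκ : 0 < κ) (hκ2 : κ ^ 2 ≤ (1 - ρ) ^ 2 + ‖x - y‖ ^ 2) :
    PK (lam n) ρ (⟪x, y⟫ : ℝ) ≤ 2 * (1 - ρ) * 17 ^ n * (κ⁻¹) ^ n := by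
  have h2 := quad_low hx hy h0 h1
  have h3 : (κ ^ 2 / 17) ≤ 1 - 2 * (⟪x, y⟫ : ℝ) * ρ + ρ ^ 2 := by
    refine le_trans ?_ h2
    linarith
  have hk : 0 < κ ^ 2 / 17 := by positivity
  unfold PK
  have hl : lam n + 1 = (n : ℝ) / 2 := by unfold lam; ring
  rw [hl]
  have h4 : (κ ^ 2 / 17) ^ ((n : ℝ) / 2) ≤
      (1 - 2 * (⟪x, y⟫ : ℝ) * ρ + ρ ^ 2) ^ ((n : ℝ) / 2) :=
    Real.rpow_le_rpow hk.le h3 (by positivity)
  have h5 : κ ^ n / 17 ^ n ≤ (κ ^ 2 / 17) ^ ((n : ℝ) / 2) := by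
    rw [Real.div_rpow (by positivity) (by norm_num)]
    have e1 : (κ ^ 2) ^ ((n : ℝ) / 2) = κ ^ n := by
      rw [← Real.rpow_natCast κ 2, ← Real.rpow_mul hκ.le, ← Real.rpow_natCast κ n]
      congr 1
      push_cast; ring
    rw [e1]
    apply div_le_div_of_nonneg_left (by positivity) (by positivity)
    rw [← Real.rpow_natCast (17 : ℝ) n]
    apply Real.rpow_le_rpow_of_exponent_le (by norm_num)
    have : (0 : ℝ) ≤ n := by positivity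
    linarith
  have h6 : (0 : ℝ) < κ ^ n / 17 ^ n := by positivity
  have h7 : 1 - ρ ^ 2 ≤ 2 * (1 - ρ) := by nlinarith
  calc (1 - ρ ^ 2) / (1 - 2 * (⟪x, y⟫ : ℝ) * ρ + ρ ^ 2) ^ ((n : ℝ) / 2)
      ≤ (2 * (1 - ρ)) / (κ ^ n / 17 ^ n) :=
        div_le_div₀ (by linarith) h7 h6 (h5.trans h4)
    _ = _ := by
        rw [inv_pow]
        field_simp

lemma PK_cont {n : ℕ} (x : E n) (hx : ‖x‖ = 1) {ρ : ℝ} : Measurable fun y : E n =>
    PK (lam n) ρ (⟪x, y⟫ : ℝ) := by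
  unfold PK
  have h1 : Measurable fun y : E n => (⟪x, y⟫ : ℝ) := by fun_prop
  fun_prop

lemma PK_meas2 {n : ℕ} {ρ : ℝ} : Measurable fun z : E n × E n =>
    PK (lam n) ρ (⟪z.1, z.2⟫ : ℝ) := by
  unfold PK
  have h1 : Measurable fun z : E n × E n => (⟪z.1, z.2⟫ : ℝ) := by fun_prop
  fun_prop

theorem PK_int (n : ℕ) (hn : 2 ≤ n) : ∃ C : ℝ, 0 < C ∧ ∀ ρ : ℝ, 0 ≤ ρ → ρ < 1 → ∀ x : E n,
    ‖x‖ = 1 → ∫⁻ y, ENNReal.ofReal (PK (lam n) ρ (⟪x, y⟫ : ℝ)) ∂(sg n) ≤ ENNReal.ofReal C := by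
  have := sg_finite n
  obtain ⟨C, hC, hcap⟩ := cap_upper n hn
  refine ⟨2 * 17 ^ n * C * 2 ^ n * 2, by positivity, ?_⟩
  intro ρ h0 h1 x hx
  set a : ℝ := 1 - ρ with ha
  have ha0 : 0 < a := by linarith
  set c : ℕ → ℝ := fun j => 2 * a * 17 ^ n * ((2 ^ j * a / 2)⁻¹) ^ n with hc
  have hc0 : ∀ j, 0 ≤ c j := fun j => by positivity
  have hpt : ∀ᵐ y ∂(sg n), ENNReal.ofReal (PK (lam n) ρ (⟪x, y⟫ : ℝ)) ≤
      ∑' j : ℕ, ({w : E n | ‖x - w‖ < 2 ^ j * a} : Set (E n)).indicator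
        (fun _ => ENNReal.ofReal (c j)) y := by
    filter_upwards [sg_ae n] with y hy
    have hj : ∃ j : ℕ, ‖x - y‖ < 2 ^ j * a ∧ (2 ^ j * a / 2) ^ 2 ≤ (1 - ρ) ^ 2 + ‖x - y‖ ^ 2 := by
      rcases lt_or_ge (‖x - y‖) a with h | h
      · refine ⟨0, by simpa using h, ?_⟩
        rw [pow_zero, one_mul, ← ha]
        nlinarith [sq_nonneg (‖x - y‖)]
      · obtain ⟨m, hm1, hm2⟩ := exists_nat_pow_near (x := ‖x - y‖ / a) (y := 2)
          (by rw [le_div_iff₀ ha0]; linarith) (by norm_num)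
        rw [le_div_iff₀ ha0] at hm1
        rw [div_lt_iff₀ ha0] at hm2
        refine ⟨m + 1, hm2, ?_⟩
        have e : (2 : ℝ) ^ (m + 1) * a / 2 = 2 ^ m * a := by rw [pow_succ]; ring
        rw [e]
        have h3 : (2 ^ m * a) ^ 2 ≤ ‖x - y‖ ^ 2 := pow_le_pow_left₀ (by positivity) hm1 2
        have h4 := sq_nonneg (1 - ρ)
        linarith
    obtain ⟨j, hj1, hj2⟩ := hj
    refine le_trans ?_ (ENNReal.le_tsum j)
    rw [indicator_of_mem (show y ∈ {w : E n | ‖x - w‖ < 2 ^ j * a} from hj1)]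
    exact ENNReal.ofReal_le_ofReal (PK_le hx hy h0 h1 (by positivity) hj2)
  refine (lintegral_mono_ae hpt).trans ?_
  rw [lintegral_tsum]
  · have hterm : ∀ j : ℕ, ∫⁻ y, ({w : E n | ‖x - w‖ < 2 ^ j * a} : Set (E n)).indicator
        (fun _ => ENNReal.ofReal (c j)) y ∂(sg n) ≤
        ENNReal.ofReal (2 * 17 ^ n * C * 2 ^ n * (1 / 2) ^ j) := by
      intro j
      rw [lintegral_indicator_const (cap_meas _ x)]
      have h2 : (sg n) {w | ‖x - w‖ < 2 ^ j * a} ≤ ENNReal.ofReal (C * (2 ^ j * a) ^ (n - 1)) := by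
        rw [← ofReal_measureReal]
        exact ENNReal.ofReal_le_ofReal (hcap _ (by positivity) x hx)
      calc ENNReal.ofReal (c j) * (sg n) {w | ‖x - w‖ < 2 ^ j * a}
          ≤ ENNReal.ofReal (c j) * ENNReal.ofReal (C * (2 ^ j * a) ^ (n - 1)) := by gcongr
        _ = ENNReal.ofReal (c j * (C * (2 ^ j * a) ^ (n - 1))) := by
            rw [ENNReal.ofReal_mul (hc0 j)]
        _ = _ := by
            congr 1
            simp only [hc]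
            obtain ⟨m, rfl⟩ : ∃ m, n = m + 1 := ⟨n - 1, by omega⟩
            rw [Nat.add_sub_cancel]
            have h3 : (2 : ℝ) ^ j * a ≠ 0 := by positivity
            have h5 : ((2 ^ j * a / 2)⁻¹) ^ (m + 1) = 2 ^ (m + 1) * ((2 ^ j * a) ^ (m + 1))⁻¹ := by
              rw [inv_div, div_pow, div_eq_mul_inv]
            rw [h5, pow_succ (2 ^ j * a) m, one_div, inv_pow]
            field_simp
    refine (ENNReal.tsum_le_tsum hterm).trans ?_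
    rw [← ENNReal.ofReal_tsum_of_nonneg]
    · rw [tsum_mul_left, tsum_geometric_two]
    · intro j; positivity
    · exact summable_geometric_two.mul_left _
  · intro j
    exact (measurable_const.indicator (cap_meas _ x)).aemeasurable

/-- The Poisson type average of `|g|`. -/
noncomputable def Pg {n : ℕ} (g : E n → ℂ) (ρ : ℝ) (x : E n) : ℝ≥0∞ :=
  ∫⁻ y, ‖g y‖ₑ * ENNReal.ofReal (PK (lam n) ρ (⟪x, y⟫ : ℝ)) ∂(sg n)

/-- Schur test. -/
theorem schur {α : Type*} [MeasurableSpace α] (μ : Measure α) [SFinite μ] (k : α → α → ℝ≥0∞)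
    (hk : Measurable (Function.uncurry k)) (C : ℝ≥0∞) (h1 : ∀ᵐ x ∂μ, ∫⁻ y, k x y ∂μ ≤ C)
    (h2 : ∀ᵐ y ∂μ, ∫⁻ x, k x y ∂μ ≤ C) (f : α → ℝ≥0∞) (hf : Measurable f) (p : ℝ) (hp : 1 < p) :
    ∫⁻ x, (∫⁻ y, f y * k x y ∂μ) ^ p ∂μ ≤ C ^ (p - 1) * (C * ∫⁻ x, f x ^ p ∂μ) := by
  have hp0 : 0 < p := by linarith
  obtain ⟨q, hpq⟩ : ∃ q, p.HolderConjugate q := ⟨_, Real.HolderConjugate.conjExponent hp⟩
  have hq0 : 0 < q := hpq.symm.pos
  have hqp : 1 / q * p = p - 1 := by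
    have h := hpq.inv_add_inv_eq_one
    field_simp at h ⊢
    linarith
  have hone : 1 / p + 1 / q = 1 := by
    have := hpq.inv_add_inv_eq_one
    simpa [one_div] using this
  have hkx : ∀ x, Measurable (k x) := fun x => hk.comp (measurable_const.prodMk measurable_id)
  have hpt : ∀ x, ∫⁻ y, k x y ∂μ ≤ C → (∫⁻ y, f y * k x y ∂μ) ^ p ≤
      C ^ (p - 1) * ∫⁻ y, f y ^ p * k x y ∂μ := by
    intro x hx
    have e1 : ∫⁻ y, f y * k x y ∂μ =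
        ∫⁻ y, ((fun y => f y * k x y ^ (1 / p)) * (fun y => k x y ^ (1 / q))) y ∂μ := by
      apply lintegral_congr
      intro y
      simp only [Pi.mul_apply]
      rw [mul_assoc, ← ENNReal.rpow_add_of_nonneg _ _ (by positivity) (by positivity), hone,
        ENNReal.rpow_one]
    have h2 := ENNReal.lintegral_mul_le_Lp_mul_Lq μ hpq
      (f := fun y => f y * k x y ^ (1 / p)) (g := fun y => k x y ^ (1 / q))
      ((hf.mul ((hkx x).pow_const _)).aemeasurable) (((hkx x).pow_const _).aemeasurable)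
    rw [← e1] at h2
    have e3 : ∀ y, (f y * k x y ^ (1 / p)) ^ p = f y ^ p * k x y := by
      intro y
      rw [ENNReal.mul_rpow_of_nonneg _ _ hp0.le, ← ENNReal.rpow_mul, one_div_mul_cancel hp0.ne',
        ENNReal.rpow_one]
    have e4 : ∀ y, (k x y ^ (1 / q)) ^ q = k x y := by
      intro y
      rw [← ENNReal.rpow_mul, one_div_mul_cancel hq0.ne', ENNReal.rpow_one]
    simp only [e3, e4] at h2
    have h5 : (∫⁻ y, f y * k x y ∂μ) ^ p ≤ ((∫⁻ y, f y ^ p * k x y ∂μ) ^ (1 / p) *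
        C ^ (1 / q)) ^ p := by
      apply ENNReal.rpow_le_rpow _ hp0.le
      refine h2.trans ?_
      gcongr
    refine h5.trans (le_of_eq ?_)
    rw [ENNReal.mul_rpow_of_nonneg _ _ hp0.le, ← ENNReal.rpow_mul, one_div_mul_cancel hp0.ne',
      ENNReal.rpow_one, ← ENNReal.rpow_mul, hqp, mul_comm]
  have hm : Measurable (Function.uncurry fun x y => f y ^ p * k x y) :=
    (((hf.comp measurable_snd).pow_const _)).mul hk
  calc ∫⁻ x, (∫⁻ y, f y * k x y ∂μ) ^ p ∂μ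
      ≤ ∫⁻ x, C ^ (p - 1) * ∫⁻ y, f y ^ p * k x y ∂μ ∂μ := by
        apply lintegral_mono_ae
        filter_upwards [h1] with x hx
        exact hpt x hx
    _ = C ^ (p - 1) * ∫⁻ x, ∫⁻ y, f y ^ p * k x y ∂μ ∂μ :=
        lintegral_const_mul _ hm.lintegral_prod_right'
    _ = C ^ (p - 1) * ∫⁻ y, ∫⁻ x, f y ^ p * k x y ∂μ ∂μ := by
        rw [lintegral_lintegral_swap hm.aemeasurable]
    _ ≤ C ^ (p - 1) * ∫⁻ y, C * f y ^ p ∂μ := by
        refine mul_le_mul' le_rfl ?_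
        apply lintegral_mono_ae
        filter_upwards [h2] with y hy
        have hky : Measurable fun x => k x y := hk.comp (measurable_id.prodMk measurable_const)
        rw [lintegral_const_mul _ hky, mul_comm]
        gcongr
    _ = _ := by rw [lintegral_const_mul _ (hf.pow_const _)]

theorem Pg_Lp (n : ℕ) (hn : 2 ≤ n) (p : ℝ) (hp : 1 < p) : ∃ C : ℝ≥0∞, C ≠ ∞ ∧ ∀ ρ : ℝ, 0 ≤ ρ →
    ρ < 1 → ∀ g : E n → ℂ, Measurable g →
    ∫⁻ x, (Pg g ρ x) ^ p ∂(sg n) ≤ C * ∫⁻ x, ‖g x‖ₑ ^ p ∂(sg n) := by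
  have := sg_finite n
  obtain ⟨C, hC, hint⟩ := PK_int n hn
  refine ⟨(ENNReal.ofReal C) ^ (p - 1) * ENNReal.ofReal C, ?_, ?_⟩
  · exact ENNReal.mul_ne_top (ENNReal.rpow_ne_top_of_nonneg (by linarith) ENNReal.ofReal_ne_top)
      ENNReal.ofReal_ne_top
  intro ρ h0 h1 g hg
  rw [mul_assoc]
  refine schur (sg n) (fun x y => ENNReal.ofReal (PK (lam n) ρ (⟪x, y⟫ : ℝ)))
    PK_meas2.ennreal_ofReal _ ?_ ?_ (fun y => ‖g y‖ₑ) hg.enorm p hp
  · filter_upwards [sg_ae n] with x hx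
    exact hint ρ h0 h1 x hx
  · filter_upwards [sg_ae n] with y hy
    have e : ∀ x : E n, ENNReal.ofReal (PK (lam n) ρ (⟪x, y⟫ : ℝ)) =
        ENNReal.ofReal (PK (lam n) ρ (⟪y, x⟫ : ℝ)) := fun x => by rw [real_inner_comm]
    simp_rw [e]
    exact hint ρ h0 h1 y hy

end Pool.Agent.W5h46.LS
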