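import Mathlib
import Pool.Agent.W5h55.SH.A2
import Pool.Agent.W5h46.LS.Pois
set_option autoImplicit false

/-! The zonal harmonic polynomials. -/

namespace Pool.Agent.W5h46.LS

open MeasureTheory Measure Set Metric Complex
open Pool.Agent.H789R2.FR (E)
open Pool.Agent.W5h55.SH

variable {n : ℕ}

/-- `|X|^2` -/
noncomputable def RR (n : ℕ) : MvPolynomial (Fin n) ℂ := ∑ i, MvPolynomial.X i ^ 2

/-- the Laplacian -/
noncomputable def Lap (q : MvPolynomial (Fin n) ℂ) : MvPolynomial (Fin n) ℂ :=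
  ∑ i, MvPolynomial.pderiv i (MvPolynomial.pderiv i q)

lemma pderiv_Lx (x : E n) (i : Fin n) :
    MvPolynomial.pderiv i (Lx x) = MvPolynomial.C ((x i : ℝ) : ℂ) := by
  unfold Lx
  rw [_root_.map_sum, Finset.sum_eq_single i]
  · simp
  · intro j _ hj
    rw [Derivation.leibniz]
    simp [MvPolynomial.pderiv_X_of_ne hj]
  · simp

lemma pderiv_RR (i : Fin n) :
    MvPolynomial.pderiv i (RR n) = 2 * MvPolynomial.X i := by
  unfold RR
  rw [_root_.map_sum, Finset.sum_eq_single i]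
  · simp [MvPolynomial.pderiv_pow]
  · intro j _ hj
    rw [MvPolynomial.pderiv_pow, MvPolynomial.pderiv_X_of_ne hj]
    simp
  · simp

lemma Lap_Lx (x : E n) (P : MvPolynomial (Fin n) ℂ) :
    Lap (Lx x * P) = Lx x * Lap P + 2 * Dx x P := by
  unfold Lap
  rw [Dx_apply, Finset.mul_sum, Finset.mul_sum, ← Finset.sum_add_distrib]
  apply Finset.sum_congr rfl
  intro i _
  rw [Derivation.leibniz, map_add, smul_eq_mul, smul_eq_mul, Derivation.leibniz,
    Derivation.leibniz, pderiv_Lx, MvPolynomial.pderiv_C]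
  simp only [smul_eq_mul]
  ring

lemma Lap_RR (P : MvPolynomial (Fin n) ℂ) (k : ℕ) (hP : P.IsHomogeneous k) :
    Lap (RR n * P) = RR n * Lap P + MvPolynomial.C (2 * (n : ℂ) + 4 * k) * P := by
  have hE : ∑ i, MvPolynomial.X i * MvPolynomial.pderiv i P = k • P := hP.sum_X_mul_pderiv
  have h1 : Lap (RR n * P) = RR n * Lap P + 4 * (∑ i, MvPolynomial.X i * MvPolynomial.pderiv i P) +
      ∑ _i : Fin n, 2 * P := by
    unfold Lap
    rw [Finset.mul_sum, Finset.mul_sum, ← Finset.sum_add_distrib, ← Finset.sum_add_distrib]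
    apply Finset.sum_congr rfl
    intro i _
    have h2 : MvPolynomial.pderiv i (2 : MvPolynomial (Fin n) ℂ) = 0 := by
      have : (2 : MvPolynomial (Fin n) ℂ) = MvPolynomial.C 2 := (map_ofNat MvPolynomial.C 2).symm
      rw [this, MvPolynomial.pderiv_C]
    rw [Derivation.leibniz, map_add, smul_eq_mul, smul_eq_mul, Derivation.leibniz,
      Derivation.leibniz, pderiv_RR, Derivation.leibniz, h2, MvPolynomial.pderiv_X_self]
    simp only [smul_eq_mul]
    ring
  rw [h1, hE, Finset.sum_const, Finset.card_univ, Fintype.card_fin, nsmul_eq_mul, nsmul_eq_mul,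
    map_add, map_mul, map_mul, map_natCast, map_natCast]
  have e2 : MvPolynomial.C (2 : ℂ) = (2 : MvPolynomial (Fin n) ℂ) := map_ofNat MvPolynomial.C 2
  have e4 : MvPolynomial.C (4 : ℂ) = (4 : MvPolynomial (Fin n) ℂ) := map_ofNat MvPolynomial.C 4
  rw [e2, e4]
  ring

lemma Dx_RR (x : E n) : Dx x (RR n) = 2 * Lx x := by
  rw [Dx_apply]
  unfold Lx
  rw [Finset.mul_sum]
  apply Finset.sum_congr rfl
  intro i _
  rw [pderiv_RR]
  ring

/-- zonal harmonic polynomials -/
noncomputable def Zq (x : E n) : ℕ → MvPolynomial (Fin n) ℂ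
  | 0 => 1
  | 1 => MvPolynomial.C (2 * (lam n : ℂ)) * Lx x
  | (k + 2) => MvPolynomial.C ((k : ℂ) + 2)⁻¹ * (MvPolynomial.C (2 * (k + 1 + lam n) : ℂ) *
      (Lx x * Zq x (k + 1)) - MvPolynomial.C (k + 2 * lam n : ℂ) * (RR n * Zq x k))

lemma Zq_zero (x : E n) : Zq x 0 = 1 := by rw [Zq]

lemma Zq_one (x : E n) : Zq x 1 = MvPolynomial.C (2 * (lam n : ℂ)) * Lx x := by rw [Zq]

lemma Zq_two (x : E n) (k : ℕ) : Zq x (k + 2) = MvPolynomial.C ((k : ℂ) + 2)⁻¹ *
    (MvPolynomial.C (2 * (k + 1 + lam n) : ℂ) *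
      (Lx x * Zq x (k + 1)) - MvPolynomial.C (k + 2 * lam n : ℂ) * (RR n * Zq x k)) := by rw [Zq]

lemma k2_ne (k : ℕ) : ((k : ℂ) + 2) ≠ 0 := by
  have : ((k + 2 : ℕ) : ℂ) ≠ 0 := by exact_mod_cast (by omega : k + 2 ≠ 0)
  exact_mod_cast this

lemma RR_hom : (RR n).IsHomogeneous 2 := by
  unfold RR
  refine MvPolynomial.IsHomogeneous.sum _ _ _ fun i _ => ?_
  exact (MvPolynomial.isHomogeneous_X ℂ i).pow 2

lemma C_mul_hom (c : ℂ) {P : MvPolynomial (Fin n) ℂ} {k : ℕ} (h : P.IsHomogeneous k) :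
    (MvPolynomial.C c * P).IsHomogeneous k := by
  have := (MvPolynomial.isHomogeneous_C (Fin n) c).mul h
  rwa [zero_add] at this

lemma Zq_hom (x : E n) (k : ℕ) : (Zq x k).IsHomogeneous k := by
  induction k using Nat.strong_induction_on with
  | _ k ih =>
    match k, ih with
    | 0, _ => rw [Zq]; exact MvPolynomial.isHomogeneous_one _ _
    | 1, _ => rw [Zq]; exact C_mul_hom _ (Lx_hom x)
    | k + 2, ih =>
      rw [Zq]
      apply C_mul_hom
      apply MvPolynomial.IsHomogeneous.sub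
      · apply C_mul_hom
        have := (Lx_hom x).mul (ih (k + 1) (by omega))
        rwa [show 1 + (k + 1) = k + 2 by ring] at this
      · apply C_mul_hom
        have := RR_hom.mul (ih k (by omega))
        rwa [show 2 + k = k + 2 by ring] at this

lemma ev_RR (y : E n) (hy : ‖y‖ = 1) : ev (RR n) y = 1 := by
  unfold RR
  rw [ev_sum]
  simp only [ev_pow, ev_X]
  have h := EuclideanSpace.norm_sq_eq (𝕜 := ℝ) y
  rw [hy, one_pow] at h
  simp only [Real.norm_eq_abs, sq_abs] at h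
  exact_mod_cast h.symm

lemma ev_Zq (x y : E n) (hy : ‖y‖ = 1) (k : ℕ) :
    ev (Zq x k) y = (Cg (lam n) (inner ℝ x y : ℝ) k : ℂ) := by
  induction k using Nat.strong_induction_on with
  | _ k ih =>
    match k, ih with
    | 0, _ => rw [Zq, Cg]; simp [ev]
    | 1, _ => rw [Zq, Cg, ev_mul, ev_C, ev_Lx]; push_cast; ring
    | k + 2, ih =>
      have hsub : ∀ p q : MvPolynomial (Fin n) ℂ, ev (p - q) y = ev p y - ev q y := fun p q => by
        simp [ev]
      rw [Zq, ev_mul, hsub, ev_C, ev_mul, ev_mul, ev_mul, ev_mul, ev_C, ev_C, ev_Lx, ev_RR y hy,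
        ih (k + 1) (by omega), ih k (by omega), Cg]
      push_cast
      field_simp

lemma Lap_add (p q : MvPolynomial (Fin n) ℂ) : Lap (p + q) = Lap p + Lap q := by
  unfold Lap
  rw [← Finset.sum_add_distrib]
  exact Finset.sum_congr rfl fun i _ => by rw [map_add, map_add]

lemma Lap_C (c : ℂ) (p : MvPolynomial (Fin n) ℂ) :
    Lap (MvPolynomial.C c * p) = MvPolynomial.C c * Lap p := by
  unfold Lap
  rw [Finset.mul_sum]
  exact Finset.sum_congr rfl fun i _ => by
    rw [MvPolynomial.pderiv_C_mul, MvPolynomial.pderiv_C_mul]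

lemma Lap_sub (p q : MvPolynomial (Fin n) ℂ) : Lap (p - q) = Lap p - Lap q := by
  unfold Lap
  rw [← Finset.sum_sub_distrib]
  exact Finset.sum_congr rfl fun i _ => by rw [map_sub, map_sub]

lemma Dx_C (x : E n) (c : ℂ) (p : MvPolynomial (Fin n) ℂ) :
    Dx x (MvPolynomial.C c * p) = MvPolynomial.C c * Dx x p := by
  rw [Dx_apply, Dx_apply, Finset.mul_sum]
  refine Finset.sum_congr rfl fun i _ => ?_
  rw [MvPolynomial.pderiv_C_mul]
  ring

lemma Dx_Zq (x : E n) (hx : ‖x‖ = 1) (k : ℕ) :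
    Dx x (Zq x (k + 1)) = MvPolynomial.C (k + 2 * lam n : ℂ) * Zq x k := by
  have hL : Dx x (Lx x) = 1 := by
    rw [Dx_Lx, hx]; simp
  have h0 : Dx x (Zq x 0) = 0 := by
    rw [Zq]; exact Derivation.map_one_eq_zero _
  induction k using Nat.strong_induction_on with
  | _ k ih =>
    match k, ih with
    | 0, _ =>
      rw [zero_add, Zq_one, Dx_C, hL, Zq_zero]
      simp
    | 1, _ =>
      have h1 : Dx x (Zq x 1) = MvPolynomial.C (2 * lam n : ℂ) := by
        rw [Zq_one, Dx_C, hL, mul_one]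
      rw [show 1 + 1 = 0 + 2 by rfl, Zq_two, Dx_C, map_sub, Dx_C, Dx_C, Derivation.leibniz,
        Derivation.leibniz, hL, Dx_RR, h0]
      simp only [smul_eq_mul, zero_add]
      rw [h1]
      have e2 : MvPolynomial.C (2 : ℂ) = (2 : MvPolynomial (Fin n) ℂ) := map_ofNat MvPolynomial.C 2
      simp only [Zq_one, Zq_zero, Nat.cast_zero, zero_add, map_add, map_mul, map_one, Nat.cast_one, e2]
      have e3 : (MvPolynomial.C ((2 : ℂ)⁻¹) : MvPolynomial (Fin n) ℂ) * 2 = 1 := by
        rw [← e2, ← map_mul]; simp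
      linear_combination ((1 + 2 * MvPolynomial.C (lam n : ℂ)) * 2 * MvPolynomial.C (lam n : ℂ) *
        Lx x : MvPolynomial (Fin n) ℂ) * e3
    | k + 2, ih =>
      have i1 := ih (k + 1) (by omega)
      have i0 := ih k (by omega)
      rw [show k + 2 + 1 = (k + 1) + 2 by ring, Zq_two, Dx_C, map_sub, Dx_C, Dx_C,
        Derivation.leibniz, Derivation.leibniz, hL, Dx_RR]
      simp only [smul_eq_mul]
      rw [i1, i0]
      have hrec : MvPolynomial.C ((k : ℂ) + 2) * Zq x (k + 2) =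
          MvPolynomial.C (2 * (k + 1 + lam n) : ℂ) * (Lx x * Zq x (k + 1)) -
            MvPolynomial.C (k + 2 * lam n : ℂ) * (RR n * Zq x k) := by
        rw [Zq_two, ← mul_assoc, ← map_mul, mul_inv_cancel₀ (k2_ne k), map_one, one_mul]
      have e3 : (MvPolynomial.C ((((k + 1 : ℕ) : ℂ) + 2)⁻¹) : MvPolynomial (Fin n) ℂ) *
          MvPolynomial.C (((k + 1 : ℕ) : ℂ) + 2) = 1 := by
        rw [← map_mul, inv_mul_cancel₀ (k2_ne (k + 1)), map_one]
      have e2 : MvPolynomial.C (2 : ℂ) = (2 : MvPolynomial (Fin n) ℂ) := map_ofNat MvPolynomial.C 2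
      push_cast at e3 ⊢
      simp only [map_add, map_mul, map_one, e2] at hrec e3 ⊢
      linear_combination (MvPolynomial.C (((k : ℂ) + 1 + 2)⁻¹) * (MvPolynomial.C (k : ℂ) + 1 +
        2 * MvPolynomial.C (lam n : ℂ)) : MvPolynomial (Fin n) ℂ) * (-1) * hrec +
        ((MvPolynomial.C (k : ℂ) + 2 + 2 * MvPolynomial.C (lam n : ℂ)) * Zq x (k + 2) :
          MvPolynomial (Fin n) ℂ) * e3

lemma Zq_harm (x : E n) (hx : ‖x‖ = 1) (k : ℕ) : Harm (Zq x k) := by
  change Lap (Zq x k) = 0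
  have h0 : Lap (Zq x 0) = 0 := by
    rw [Zq]; unfold Lap
    exact Finset.sum_eq_zero fun i _ => by simp
  have h1 : Lap (Zq x 1) = 0 := by
    rw [Zq, Lap_C]
    have : Lx x = Lx x * 1 := (mul_one _).symm
    rw [this, Lap_Lx]
    have hD : Dx x (1 : MvPolynomial (Fin n) ℂ) = 0 := Derivation.map_one_eq_zero _
    have hLa : Lap (1 : MvPolynomial (Fin n) ℂ) = 0 := by rw [Zq] at h0; exact h0
    rw [hD, hLa]
    ring
  induction k using Nat.strong_induction_on with
  | _ k ih =>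
    match k, ih with
    | 0, _ => exact h0
    | 1, _ => exact h1
    | k + 2, ih =>
      rw [Zq, Lap_C, Lap_sub, Lap_C, Lap_C, Lap_Lx, Lap_RR _ k (Zq_hom x k), ih (k + 1) (by omega),
        ih k (by omega), Dx_Zq x hx k]
      have e2 : MvPolynomial.C (2 : ℂ) = (2 : MvPolynomial (Fin n) ℂ) := map_ofNat MvPolynomial.C 2
      have e4 : MvPolynomial.C (4 : ℂ) = (4 : MvPolynomial (Fin n) ℂ) := map_ofNat MvPolynomial.C 4
      have hl : MvPolynomial.C (2 * (lam n : ℂ)) = (MvPolynomial.C ((n : ℂ) - 2) :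
          MvPolynomial (Fin n) ℂ) := by
        congr 1
        unfold lam
        push_cast
        ring
      simp only [map_add, map_mul, map_one, map_sub, e2, e4] at hl ⊢
      linear_combination (MvPolynomial.C ((k : ℂ) + 2)⁻¹ * (MvPolynomial.C (k : ℂ) +
        2 * MvPolynomial.C (lam n : ℂ)) * 2 * Zq x k : MvPolynomial (Fin n) ℂ) * hl

end Pool.Agent.W5h46.LS
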