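import Mathlib
import Pool.Agent.W5h46.LS.Wave
import Pool.Agent.W5h46.LS.Gap
import Pool.Agent.W5h46.LS.Zon
set_option autoImplicit false

/-! Projections of a density to one degree. -/

namespace Pool.Agent.W5h46.LS

open MeasureTheory Measure Set Metric Complex
open Pool.Agent.H789R2.FR (E sg sg_finite sg_ae T polar)
open scoped ENNReal RealInnerProductSpace

variable {n : ℕ}

lemma Zg_cont (l : ℝ) (k : ℕ) : Continuous fun t => Zg l t k := by
  have h : Continuous fun t => Cg l t k := by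
    induction k using Nat.strong_induction_on with
    | _ k ih =>
      match k, ih with
      | 0, _ => simp only [Cg]; fun_prop
      | 1, _ => simp only [Cg]; fun_prop
      | k + 2, ih =>
        have h1 := ih (k + 1) (by omega)
        have h0 := ih k (by omega)
        simp only [Cg]
        fun_prop
  unfold Zg
  fun_prop

/-- the projection to degree `k` (up to a constant) -/
noncomputable def Yk (g : E n → ℂ) (k : ℕ) (x : E n) : ℂ :=
  ∫ y, g y * (Zg (lam n) (⟪x, y⟫ : ℝ) k : ℂ) ∂(sg n)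

lemma ker_meas (k : ℕ) : Measurable fun z : E n × E n =>
    (Zg (lam n) (⟪z.1, z.2⟫ : ℝ) k : ℂ) := by
  have h1 : Continuous fun z : E n × E n => (⟪z.1, z.2⟫ : ℝ) := by fun_prop
  exact (Complex.continuous_ofReal.comp ((Zg_cont (lam n) k).comp h1)).measurable

lemma ker_meas1 (k : ℕ) (x : E n) : Measurable fun y : E n =>
    (Zg (lam n) (⟪x, y⟫ : ℝ) k : ℂ) :=
  (ker_meas k).comp (measurable_const.prodMk measurable_id)

lemma Yk_meas {g : E n → ℂ} (hg : Measurable g) (k : ℕ) : Measurable (Yk g k) := by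
  have := sg_finite n
  have h : StronglyMeasurable fun z : E n × E n =>
      g z.2 * (Zg (lam n) (⟪z.1, z.2⟫ : ℝ) k : ℂ) :=
    ((hg.comp measurable_snd).mul (ker_meas k)).stronglyMeasurable
  exact h.integral_prod_right.measurable

lemma Zg_b (hn : 3 ≤ n) : ∃ (C : ℝ) (N : ℕ), 0 < C ∧ ∀ (x : E n), ‖x‖ = 1 → ∀ (k : ℕ),
    ∀ᵐ y ∂(sg n), ‖(Zg (lam n) (⟪x, y⟫ : ℝ) k : ℂ)‖ ≤ C * ((k : ℝ) + 1) ^ N := by
  obtain ⟨C, N, hC, h⟩ := Zg_bound (lam_pos hn)
  refine ⟨C, N, hC, fun x hx k => ?_⟩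
  filter_upwards [sg_ae n] with y hy
  rw [norm_real, Real.norm_eq_abs]
  exact h _ (inner_le hx hy) k

lemma gZ_int (hn : 3 ≤ n) {g : E n → ℂ} (hg : Integrable g (sg n)) (x : E n) (hx : ‖x‖ = 1)
    (k : ℕ) : Integrable (fun y => g y * (Zg (lam n) (⟪x, y⟫ : ℝ) k : ℂ)) (sg n) := by
  obtain ⟨C, N, hC, h⟩ := Zg_b (n := n) hn
  exact hg.mul_bdd (c := C * ((k : ℝ) + 1) ^ N) (ker_meas1 k x).aestronglyMeasurable (h x hx k)

lemma Yk_bound (hn : 3 ≤ n) : ∃ (C : ℝ) (N : ℕ), 0 < C ∧ ∀ (g : E n → ℂ), Integrable g (sg n) →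
    ∀ (x : E n), ‖x‖ = 1 → ∀ k : ℕ, ‖Yk g k x‖ ≤ C * ((k : ℝ) + 1) ^ N * ∫ y, ‖g y‖ ∂(sg n) := by
  obtain ⟨C, N, hC, h⟩ := Zg_b (n := n) hn
  refine ⟨C, N, hC, fun g hg x hx k => ?_⟩
  unfold Yk
  rw [← integral_const_mul]
  apply norm_integral_le_of_norm_le (hg.norm.const_mul _)
  filter_upwards [h x hx k] with y hy
  rw [norm_mul, mul_comm]
  exact mul_le_mul_of_nonneg_right hy (norm_nonneg _)

/-- general series lemma -/
lemma series_gen (hn : 3 ≤ n) {g : E n → ℂ} (hg : Integrable g (sg n)) (x : E n) (hx : ‖x‖ = 1)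
    (a : ℕ → ℂ) (hsum : ∀ N : ℕ, Summable fun k => ‖a k‖ * ((k : ℝ) + 1) ^ N)
    (G : E n → ℂ) (hG : ∀ᵐ y ∂(sg n), HasSum (fun k => a k * (Zg (lam n) (⟪x, y⟫ : ℝ) k : ℂ)) (G y)) :
    HasSum (fun k => a k * Yk g k x) (∫ y, g y * G y ∂(sg n)) := by
  obtain ⟨C, N, hC, h⟩ := Zg_b (n := n) hn
  have h1 : ∀ k, Integrable (fun y => a k * (g y * (Zg (lam n) (⟪x, y⟫ : ℝ) k : ℂ))) (sg n) :=
    fun k => (gZ_int hn hg x hx k).const_mul _
  have h2 : Summable fun k => ∫ y, ‖a k * (g y * (Zg (lam n) (⟪x, y⟫ : ℝ) k : ℂ))‖ ∂(sg n) := by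
    apply Summable.of_nonneg_of_le (fun k => integral_nonneg fun _ => norm_nonneg _) _
      ((hsum N).mul_right (C * ∫ y, ‖g y‖ ∂(sg n)))
    intro k
    have : ∫ y, ‖a k * (g y * (Zg (lam n) (⟪x, y⟫ : ℝ) k : ℂ))‖ ∂(sg n) ≤
        ∫ y, (‖a k‖ * (C * ((k : ℝ) + 1) ^ N)) * ‖g y‖ ∂(sg n) := by
      apply integral_mono_ae (h1 k).norm (hg.norm.const_mul _)
      filter_upwards [h x hx k] with y hy
      rw [norm_mul, norm_mul]
      have := mul_le_mul_of_nonneg_left hy (norm_nonneg (g y))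
      have := mul_le_mul_of_nonneg_left this (norm_nonneg (a k))
      linarith
    rw [integral_const_mul] at this
    refine this.trans (le_of_eq ?_)
    ring
  have h3 := hasSum_integral_of_summable_integral_norm h1 h2
  have e1 : (fun k => ∫ y, a k * (g y * (Zg (lam n) (⟪x, y⟫ : ℝ) k : ℂ)) ∂(sg n)) =
      fun k => a k * Yk g k x := by
    funext k
    rw [integral_const_mul]
    rfl
  have e2 : ∫ y, ∑' k, a k * (g y * (Zg (lam n) (⟪x, y⟫ : ℝ) k : ℂ)) ∂(sg n) =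
      ∫ y, g y * G y ∂(sg n) := by
    apply integral_congr_ae
    filter_upwards [hG] with y hy
    have : (fun k => a k * (g y * (Zg (lam n) (⟪x, y⟫ : ℝ) k : ℂ))) =
        fun k => g y * (a k * (Zg (lam n) (⟪x, y⟫ : ℝ) k : ℂ)) := by
      funext k; ring
    simp only [this]
    exact (hy.mul_left (g y)).tsum_eq
  rw [e1, e2] at h3
  exact h3

/-- expansion of `T g` -/
lemma T_series (hn : 3 ≤ n) {g : E n → ℂ} (hg : Integrable g (sg n)) (w : E n) (hw : ‖w‖ = 1)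
    {r : ℝ} (hr : 0 ≤ r) :
    HasSum (fun k => ((-I) ^ k * (mu n k r : ℂ)) * Yk g k w) (T g (r • w)) := by
  have h := series_gen hn hg w hw (fun k => (-I) ^ k * (mu n k r : ℂ)) (fun N => by
    refine (Zmu_summable hn r hr N).congr fun k => ?_
    rw [norm_mul, norm_pow, norm_neg, norm_I, one_pow, one_mul, norm_real, Real.norm_eq_abs])
    (fun y => Complex.exp (-I * (r * (⟪w, y⟫ : ℝ)))) (by
      filter_upwards [sg_ae n] with y hy
      exact plane_wave hn (inner_le hw hy) hr)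
  convert h using 1
  unfold T
  congr 1
  funext y
  rw [mul_comm (g y)]
  congr 2
  rw [real_inner_smul_left]
  push_cast
  ring

/-- expansion in the disc -/
lemma F_series (hn : 3 ≤ n) {g : E n → ℂ} (hg : Integrable g (sg n)) (x : E n) (hx : ‖x‖ = 1)
    {z : ℂ} (hz : ‖z‖ < 1) :
    HasSum (fun k => z ^ k * Yk g k x) (∫ y, g y * Kz (lam n) (⟪x, y⟫ : ℝ) z ∂(sg n)) := by
  apply series_gen hn hg x hx (fun k => z ^ k) (fun N => by
    refine (poly_summable N (norm_nonneg z) hz).congr fun k => ?_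
    rw [norm_pow, mul_comm])
  filter_upwards [sg_ae n] with y hy
  have h := (Zg_summable (lam_pos hn) (inner_le hx hy) hz).of_norm.hasSum
  have e : (fun k : ℕ => z ^ k * (Zg (lam n) (⟪x, y⟫ : ℝ) k : ℂ)) =
      fun k : ℕ => (Zg (lam n) (⟪x, y⟫ : ℝ) k : ℂ) * z ^ k := by
    funext k
    rw [mul_comm]
  rw [e]
  exact h

lemma Pg_fin {g : E n → ℂ} (hg : Integrable g (sg n)) (x : E n) (hx : ‖x‖ = 1) {ρ : ℝ}
    (h0 : 0 ≤ ρ) (h1 : ρ < 1) : Pg g ρ x ≠ ∞ := by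
  have ha : 0 < 1 - ρ := by linarith
  set K : ℝ := 2 * (1 - ρ) * 17 ^ n * ((1 - ρ)⁻¹) ^ n with hK
  have h2 : Pg g ρ x ≤ ∫⁻ y, ‖g y‖ₑ * ENNReal.ofReal K ∂(sg n) := by
    unfold Pg
    apply lintegral_mono_ae
    filter_upwards [sg_ae n] with y hy
    gcongr
    exact PK_le hx hy h0 h1 ha (by nlinarith [sq_nonneg (‖x - y‖)])
  refine ne_top_of_le_ne_top ?_ h2
  rw [lintegral_mul_const' _ _ ENNReal.ofReal_ne_top]
  exact ENNReal.mul_ne_top hg.2.ne ENNReal.ofReal_ne_top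

lemma F_bound (hn : 3 ≤ n) {g : E n → ℂ} (hg : Integrable g (sg n)) (x : E n) (hx : ‖x‖ = 1)
    {ρ : ℝ} (h0 : 0 ≤ ρ) (h1 : ρ < 1) (θ : ℝ) :
    ‖∫ y, g y * Kz (lam n) (⟪x, y⟫ : ℝ) (ρ * exp (I * θ)) ∂(sg n)‖ ≤
      (1 + 2 * |θ| / (1 - ρ)) ^ (n + 1) * (Pg g ρ x).toReal := by
  have ha : 0 < 1 - ρ := by linarith
  set A : ℝ := 1 + 2 * |θ| / (1 - ρ) with hA
  have hA0 : 0 ≤ A := by positivity
  have hfin := Pg_fin hg x hx h0 h1
  have h2 : ‖∫ y, g y * Kz (lam n) (⟪x, y⟫ : ℝ) (ρ * exp (I * θ)) ∂(sg n)‖ₑ ≤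
      ENNReal.ofReal (A ^ (n + 1)) * Pg g ρ x := by
    refine (enorm_integral_le_lintegral_enorm _).trans ?_
    unfold Pg
    rw [← lintegral_const_mul' _ _ ENNReal.ofReal_ne_top]
    apply lintegral_mono_ae
    filter_upwards [sg_ae n] with y hy
    have h3 := Kz_le (lam_pos hn) (inner_le hx hy) h0 h1 θ
    have e : (1 + 2 * |θ| / (1 - ρ)) ^ (2 * lam n + 3) = A ^ (n + 1) := by
      rw [← Real.rpow_natCast A (n + 1)]
      congr 1
      unfold lam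
      push_cast
      ring
    rw [e] at h3
    rw [enorm_mul, mul_comm (ENNReal.ofReal (A ^ (n + 1))), mul_assoc]
    gcongr
    rw [← ofReal_norm, ← ENNReal.ofReal_mul (PK_pos (inner_le hx hy) h0 h1).le, mul_comm (PK _ _ _)]
    exact ENNReal.ofReal_le_ofReal h3
  have h3 := ENNReal.toReal_mono (ENNReal.mul_ne_top ENNReal.ofReal_ne_top hfin) h2
  rwa [toReal_enorm, ENNReal.toReal_mul, ENNReal.toReal_ofReal (by positivity)] at h3

/-- **Extraction of a degree** surrounded by gaps. -/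
theorem Yk_extract (hn : 3 ≤ n) : ∃ C : ℝ, 0 < C ∧ ∀ (g : E n → ℂ), Integrable g (sg n) →
    ∀ (x : E n), ‖x‖ = 1 → ∀ (k M : ℕ), 0 < M →
    (∀ l, Yk g l x ≠ 0 → l ≠ k → (((n + 1 + 2) * (M - 1) : ℕ) : ℤ) < |(l : ℤ) - k|) →
    ‖Yk g k x‖ₑ ≤ ENNReal.ofReal (C * (1 + 2 * (k + 1) / M) ^ (n + 1)) *
      Pg g ((k : ℝ) / (k + 1)) x := by
  obtain ⟨C, hC, h⟩ := extract (n + 1)
  refine ⟨C, hC, fun g hg x hx k M hM hgap => ?_⟩
  obtain ⟨C1, N, hC1, hY⟩ := Yk_bound (n := n) hn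
  set ρ : ℝ := (k : ℝ) / (k + 1) with hρ
  have hρ0 : 0 ≤ ρ := by positivity
  have hρ1 : ρ < 1 := by
    rw [hρ, div_lt_one (by positivity)]
    linarith
  have hfin := Pg_fin hg x hx hρ0 hρ1
  have h1ρ : 1 - ρ = 1 / ((k : ℝ) + 1) := by
    rw [hρ]
    field_simp
    ring
  have h1 := h (fun l => Yk g l x) k M (Pg g ρ x).toReal hM ENNReal.toReal_nonneg (by
    apply Summable.of_nonneg_of_le (fun l => by positivity) _
      ((poly_summable N hρ0 hρ1).mul_left (C1 * ∫ y, ‖g y‖ ∂(sg n)))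
    intro l
    have h2 := mul_le_mul_of_nonneg_right (hY g hg x hx l) (pow_nonneg hρ0 l)
    refine h2.trans (le_of_eq ?_)
    ring) hgap (by
    intro θ _
    have hz : ‖((ρ : ℝ) : ℂ) * exp (I * θ)‖ < 1 := by
      rw [norm_mul, norm_real, Real.norm_eq_abs, abs_of_nonneg hρ0, mul_comm I,
        norm_exp_ofReal_mul_I, mul_one]
      exact hρ1
    have h3 := (F_series hn hg x hx hz).tsum_eq
    have e : (fun l : ℕ => Yk g l x * (((ρ : ℝ) : ℂ) * exp (I * θ)) ^ l) =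
        fun l : ℕ => (((ρ : ℝ) : ℂ) * exp (I * θ)) ^ l * Yk g l x := by
      funext l
      rw [mul_comm]
    rw [e, h3]
    have h4 := F_bound hn hg x hx hρ0 hρ1 θ
    have e2 : 2 * |θ| / (1 - ρ) = 2 * (k + 1) * |θ| := by
      rw [h1ρ]
      field_simp
    rwa [e2] at h4)
  rw [← ofReal_norm, ← ENNReal.ofReal_toReal hfin, ← ENNReal.ofReal_mul (by positivity)]
  exact ENNReal.ofReal_le_ofReal h1

end Pool.Agent.W5h46.LS
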