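import Mathlib
import Pool.Agent.W5h46.LS.Proj
set_option autoImplicit false

/-! `L^p` bounds of the projections and the pointwise estimate on a shell. -/

namespace Pool.Agent.W5h46.LS

open MeasureTheory Measure Set Metric Complex
open Pool.Agent.H789R2.FR (E sg sg_finite sg_ae T polar)
open scoped ENNReal RealInnerProductSpace

variable {n : ℕ}

/-- the exponent integral -/
noncomputable def NG (p : ℝ) (g : E n → ℂ) : ℝ≥0∞ := ∫⁻ x, ‖g x‖ₑ ^ p ∂(sg n)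

lemma holder1 {α : Type*} [MeasurableSpace α] (μ : Measure α) {f : α → ℝ≥0∞} (hf : Measurable f)
    {p : ℝ} (hp : 1 < p) : (∫⁻ x, f x ∂μ) ^ p ≤ (μ univ) ^ (p - 1) * ∫⁻ x, f x ^ p ∂μ := by
  have hp0 : 0 < p := by linarith
  obtain ⟨q, hpq⟩ : ∃ q, p.HolderConjugate q := ⟨_, Real.HolderConjugate.conjExponent hp⟩
  have hq0 : 0 < q := hpq.symm.pos
  have hqp : 1 / q * p = p - 1 := by
    have h := hpq.inv_add_inv_eq_one
    field_simp at h ⊢
    linarith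
  have h := ENNReal.lintegral_mul_le_Lp_mul_Lq μ hpq (f := f) (g := fun _ => 1)
    hf.aemeasurable measurable_const.aemeasurable
  simp only [Pi.mul_apply, mul_one, ENNReal.one_rpow, lintegral_const, one_mul] at h
  have h2 := ENNReal.rpow_le_rpow h hp0.le
  rw [ENNReal.mul_rpow_of_nonneg _ _ hp0.le, ← ENNReal.rpow_mul, ← ENNReal.rpow_mul,
    one_div_mul_cancel hp0.ne', ENNReal.rpow_one, hqp, mul_comm] at h2
  exact h2

lemma int_of_Lp {g : E n → ℂ} (hg : Measurable g) {p : ℝ} (hp : 1 < p) (h : NG p g ≠ ∞) :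
    Integrable g (sg n) := by
  have := sg_finite n
  refine ⟨hg.aestronglyMeasurable, ?_⟩
  have h1 := holder1 (sg n) hg.enorm hp
  have h2 : (∫⁻ x, ‖g x‖ₑ ∂(sg n)) ^ p < ∞ := by
    refine lt_of_le_of_lt h1 ?_
    exact ENNReal.mul_lt_top (ENNReal.rpow_lt_top_of_nonneg (by linarith) (measure_ne_top _ _))
      (lt_top_iff_ne_top.mpr h)
  rw [HasFiniteIntegral]
  by_contra h3
  rw [not_lt, top_le_iff] at h3
  rw [h3, ENNReal.top_rpow_of_pos (by linarith)] at h2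
  exact lt_irrefl _ h2

/-- `L^p` bound of a projection -/
theorem Yk_Lp (hn : 3 ≤ n) (p : ℝ) (hp : 1 < p) : ∃ C D : ℝ, 0 < C ∧ 0 < D ∧ ∀ (c δ : ℝ), 0 < c →
    c ≤ 1 → 0 < δ → δ ≤ 1 → ∀ S : Set ℕ, GapSet c δ S → ∀ g : E n → ℂ, Measurable g →
    NG p g ≠ ∞ → (∀ k, k ∉ S → ∀ x, ‖x‖ = 1 → Yk g k x = 0) → ∀ k ∈ S,
    ∫⁻ w, ‖Yk g k w‖ₑ ^ p ∂(sg n) ≤
      ENNReal.ofReal ((C * ((1 + 8 * ((n : ℝ) + 3) / c) * ((k : ℝ) + 1) ^ δ) ^ (n + 1)) ^ p * D) *
        NG p g := by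
  obtain ⟨C, hC, hext⟩ := Yk_extract (n := n) hn
  obtain ⟨D, hD, hP⟩ := Pg_Lp n (by omega) p hp
  refine ⟨C, D.toReal + 1, hC, by positivity, ?_⟩
  intro c δ hc hc1 hδ hδ1 S hS g hg hfin hvan k hk
  have hp0 : 0 < p := by linarith
  have hint := int_of_Lp hg hp hfin
  obtain ⟨M, hM, hgap, hMb⟩ := gap_width hc hc1 hδ hδ1 hS (n + 1) hk
  have hN : ((n + 1 : ℕ) : ℝ) + 2 = (n : ℝ) + 3 := by push_cast; ring
  rw [hN] at hMb
  set X : ℝ := C * ((1 + 8 * ((n : ℝ) + 3) / c) * ((k : ℝ) + 1) ^ δ) ^ (n + 1) with hX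
  have hX0 : 0 ≤ X := by positivity
  set ρ : ℝ := (k : ℝ) / (k + 1) with hρ
  have hρ0 : 0 ≤ ρ := by positivity
  have hρ1 : ρ < 1 := by
    rw [hρ, div_lt_one (by positivity)]
    linarith
  have h1 : ∀ᵐ w ∂(sg n), ‖Yk g k w‖ₑ ^ p ≤ ENNReal.ofReal (X ^ p) * Pg g ρ w ^ p := by
    filter_upwards [sg_ae n] with w hw
    have h2 := hext g hint w hw k M hM (fun l hl hlk => hgap l (by
      by_contra hlS
      exact hl (hvan l hlS w hw)) hlk)
    have h3 : ‖Yk g k w‖ₑ ≤ ENNReal.ofReal X * Pg g ρ w := by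
      refine h2.trans ?_
      gcongr
      rw [hX]
      gcongr
    calc ‖Yk g k w‖ₑ ^ p ≤ (ENNReal.ofReal X * Pg g ρ w) ^ p := by gcongr
      _ = _ := by
        rw [ENNReal.mul_rpow_of_nonneg _ _ hp0.le, ENNReal.ofReal_rpow_of_nonneg hX0 hp0.le]
  refine (lintegral_mono_ae h1).trans ?_
  rw [lintegral_const_mul' _ _ ENNReal.ofReal_ne_top, ENNReal.ofReal_mul (by positivity), mul_assoc]
  gcongr
  refine (hP ρ hρ0 hρ1 g hg).trans ?_
  unfold NG
  gcongr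
  calc D = ENNReal.ofReal D.toReal := (ENNReal.ofReal_toReal hD).symm
    _ ≤ _ := ENNReal.ofReal_le_ofReal (by linarith)

open Classical in
/-- the pointwise bound on a shell -/
theorem T_point (hn : 3 ≤ n) : ∃ D : ℝ, 0 < D ∧ ∀ (S : Set ℕ) (g : E n → ℂ), Integrable g (sg n) →
    (∀ k, k ∉ S → ∀ x, ‖x‖ = 1 → Yk g k x = 0) → ∀ (w : E n), ‖w‖ = 1 → ∀ (r : ℝ) (L : ℕ),
    0 ≤ r → 8 * r ≤ L → ‖T g (r • w)‖ₑ ≤
      (∑ k ∈ (Finset.range L).filter (fun k => k ∈ S), ‖mu n k r‖ₑ * ‖Yk g k w‖ₑ) +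
        ENNReal.ofReal (D * (1 / 2) ^ L) * ∫⁻ y, ‖g y‖ₑ ∂(sg n) := by
  obtain ⟨C, N, hC, hY⟩ := Yk_bound (n := n) hn
  have hs := poly_summable N (r := 1 / 2) (by norm_num) (by norm_num)
  set D0 : ℝ := ∑' k : ℕ, ((k : ℝ) + 1) ^ N * (1 / 2) ^ k with hD0
  have hD1 : ∀ k : ℕ, ((k : ℝ) + 1) ^ N * (1 / 2) ^ k ≤ D0 := fun k =>
    hs.le_tsum k (fun j _ => by positivity)
  have hD00 : 0 < D0 := lt_of_lt_of_le (by norm_num) (hD1 0)
  refine ⟨2 * (C * D0), by positivity, ?_⟩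
  intro S g hg hvan w hw r L hr hL
  have h1 := T_series hn hg w hw hr
  set a : ℕ → ℂ := fun k => ((-I) ^ k * (mu n k r : ℂ)) * Yk g k w with ha
  have han : ∀ k, ‖a k‖ = |mu n k r| * ‖Yk g k w‖ := by
    intro k
    simp only [ha]
    rw [norm_mul, norm_mul, norm_pow, norm_neg, norm_I, one_pow, one_mul, norm_real,
      Real.norm_eq_abs]
  have h2 := h1.summable.sum_add_tsum_nat_add L
  rw [h1.tsum_eq] at h2
  rw [← h2]
  refine (enorm_add_le _ _).trans (add_le_add ?_ ?_)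
  · have h3 : ∑ k ∈ Finset.range L, a k = ∑ k ∈ (Finset.range L).filter (fun k => k ∈ S), a k := by
      symm
      apply Finset.sum_subset (Finset.filter_subset _ _)
      intro k hk hk2
      rw [Finset.mem_filter] at hk2
      have : k ∉ S := fun h => hk2 ⟨hk, h⟩
      simp only [ha]
      rw [hvan k this w hw, mul_zero]
    rw [h3]
    refine (enorm_sum_le _ _).trans (Finset.sum_le_sum fun k _ => ?_)
    rw [← ofReal_norm, han, ENNReal.ofReal_mul (abs_nonneg _), ofReal_norm, ← Real.norm_eq_abs,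
      ofReal_norm]
  · set G : ℝ := ∫ y, ‖g y‖ ∂(sg n) with hG
    have hG0 : 0 ≤ G := integral_nonneg fun _ => norm_nonneg _
    have h3 : ∀ k : ℕ, ‖a (k + L)‖ ≤ (C * D0 * G * (1 / 2) ^ L) * (1 / 2) ^ k := by
      intro k
      rw [han]
      have h4 := mu_tail (n := n) (by omega) (k + L) hr (by
        push_cast
        have : (0 : ℝ) ≤ k := Nat.cast_nonneg k
        linarith)
      have h5 := hY g hg w hw (k + L)
      have h6 := hD1 (k + L)
      calc |mu n (k + L) r| * ‖Yk g (k + L) w‖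
          ≤ (1 / 4) ^ (k + L) * (C * (((k + L : ℕ) : ℝ) + 1) ^ N * G) :=
            mul_le_mul h4 h5 (norm_nonneg _) (by positivity)
        _ = (C * G * (1 / 2) ^ (k + L)) * ((((k + L : ℕ) : ℝ) + 1) ^ N * (1 / 2) ^ (k + L)) := by
            have : (1 / 4 : ℝ) = (1 / 2) * (1 / 2) := by norm_num
            rw [this, mul_pow]
            ring
        _ ≤ (C * G * (1 / 2) ^ (k + L)) * D0 := mul_le_mul_of_nonneg_left h6 (by positivity)
        _ = _ := by rw [pow_add]; ring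
    have h4 : ‖∑' k, a (k + L)‖ ≤ (C * D0 * G * (1 / 2) ^ L) * 2 :=
      tsum_of_norm_bounded (hasSum_geometric_two.mul_left _) h3
    have h5 : ∫⁻ y, ‖g y‖ₑ ∂(sg n) = ENNReal.ofReal G := by
      rw [hG, ofReal_integral_eq_lintegral_ofReal hg.norm
        (Filter.Eventually.of_forall fun _ => norm_nonneg _)]
      simp_rw [ofReal_norm]
    rw [h5, ← ENNReal.ofReal_mul (by positivity), ← ofReal_norm]
    apply ENNReal.ofReal_le_ofReal
    refine h4.trans (le_of_eq ?_)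
    ring

end Pool.Agent.W5h46.LS
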