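import Mathlib
import Pool.Agent.W5h55.SH.A10
import Pool.Agent.W5h46.LS.Main1
set_option autoImplicit false

/-! The estimate on a dyadic shell. -/

namespace Pool.Agent.W5h46.LS

open MeasureTheory Measure Set Metric Complex
open Pool.Agent.H789R2.FR (E sg sg_finite sg_ae T polar)
open Pool.Agent.H789R2.FR.L2 (measurable_T)
open Pool.Agent.W5h55.SH (ga ga_Lp ar ar_pos phi_cont cc pow_cover)
open scoped ENNReal RealInnerProductSpace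

variable {n : ℕ}

lemma mu_continuous (hn : 1 ≤ n) (k : ℕ) : Continuous (mu n k) := by
  unfold mu
  have := phi_cont (2 * k + n) (by omega)
  fun_prop

lemma ga_eq_mu (k : ℕ) (r : ℝ) : ga n k r = ar n * mu n k r := by
  unfold ga mu cc pn
  ring

lemma shell_polar (hn : 0 < n) (F : E n → ℝ≥0∞) (hF : Measurable F) (a b : ℝ) (ha : 0 ≤ a) :
    ∫⁻ x in {x : E n | ‖x‖ ∈ Ioc a b}, F x =
      ∫⁻ w, (∫⁻ r in Ioc a b, ENNReal.ofReal (r ^ (n - 1)) * F (r • w)) ∂(sg n) := by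
  have hAm : MeasurableSet {x : E n | ‖x‖ ∈ Ioc a b} := measurable_norm measurableSet_Ioc
  rw [← lintegral_indicator hAm, polar hn _ (hF.indicator hAm)]
  refine lintegral_congr_ae ?_
  filter_upwards [sg_ae n] with w hw
  rw [← lintegral_indicator (measurableSet_Ioi), ← lintegral_indicator measurableSet_Ioc]
  refine lintegral_congr fun r => ?_
  by_cases hr : r ∈ Ioi (0 : ℝ)
  · have hnr : ‖r • w‖ = r := by rw [norm_smul, hw, mul_one, Real.norm_of_nonneg (le_of_lt hr)]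
    rw [indicator_of_mem hr]
    by_cases hrA : r ∈ Ioc a b
    · rw [indicator_of_mem hrA, indicator_of_mem]
      change ‖r • w‖ ∈ Ioc a b
      rw [hnr]
      exact hrA
    · rw [indicator_of_notMem hrA, indicator_of_notMem, mul_zero]
      intro h
      change ‖r • w‖ ∈ Ioc a b at h
      rw [hnr] at h
      exact hrA h
  · rw [indicator_of_notMem hr, indicator_of_notMem]
    intro h
    exact hr (lt_of_le_of_lt ha h.1)

lemma num1 {p δ η0 Kc B C C2 D R : ℝ} (hp : 1 < p) (hKc : 0 < Kc) (hB : 0 < B) (hC : 0 < C)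
    (hC2 : 0 < C2) (hD : 0 < D) (hR : 1 ≤ R) (hδ : 0 < δ)
    (hδη : δ * ((n : ℝ) + 2) * p ≤ η0 / 2) :
    2 ^ (p - 1) * ((Kc * (16 * R) ^ δ) ^ (p - 1) * (Kc * (16 * R) ^ δ)) * (C2 * R ^ (-η0)) *
      ((C * (B * (16 * R) ^ δ) ^ (n + 1)) ^ p * D) ≤
    (2 ^ (p - 1) * Kc ^ p * C2 * (C * B ^ (n + 1)) ^ p * D * 16 ^ (η0 / 2)) * R ^ (-(η0 / 2)) := by
  have hR0 : 0 < R := by linarith
  set X : ℝ := 16 * R with hX
  have hX1 : 1 ≤ X := by linarith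
  have hX0 : 0 < X := by linarith
  have hXd : 0 < X ^ δ := Real.rpow_pos_of_pos hX0 _
  have e1 : (Kc * X ^ δ) ^ (p - 1) * (Kc * X ^ δ) = Kc ^ p * (X ^ δ) ^ p := by
    rw [← Real.mul_rpow hKc.le hXd.le, Real.rpow_sub_one (by positivity)]
    field_simp
  have e2 : (C * (B * X ^ δ) ^ (n + 1)) ^ p = (C * B ^ (n + 1)) ^ p * ((X ^ δ) ^ (n + 1)) ^ p := by
    rw [← Real.mul_rpow (by positivity) (by positivity), mul_pow]
    congr 1
    ring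
  have e3 : (X ^ δ) ^ p * ((X ^ δ) ^ (n + 1)) ^ p = X ^ (δ * ((n : ℝ) + 2) * p) := by
    rw [← Real.mul_rpow (by positivity) (by positivity), ← pow_succ', ← Real.rpow_natCast,
      ← Real.rpow_mul hX0.le, ← Real.rpow_mul hX0.le]
    congr 1
    push_cast
    ring
  have e4 : X ^ (δ * ((n : ℝ) + 2) * p) ≤ 16 ^ (η0 / 2) * R ^ (η0 / 2) := by
    rw [← Real.mul_rpow (by norm_num) hR0.le]
    exact Real.rpow_le_rpow_of_exponent_le hX1 hδη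
  have e5 : R ^ (η0 / 2) * R ^ (-η0) = R ^ (-(η0 / 2)) := by
    rw [← Real.rpow_add hR0]
    congr 1
    ring
  rw [e1, e2]
  calc 2 ^ (p - 1) * (Kc ^ p * (X ^ δ) ^ p) * (C2 * R ^ (-η0)) *
      ((C * B ^ (n + 1)) ^ p * ((X ^ δ) ^ (n + 1)) ^ p * D)
      = (2 ^ (p - 1) * Kc ^ p * C2 * (C * B ^ (n + 1)) ^ p * D * R ^ (-η0)) *
        ((X ^ δ) ^ p * ((X ^ δ) ^ (n + 1)) ^ p) := by ring
    _ ≤ (2 ^ (p - 1) * Kc ^ p * C2 * (C * B ^ (n + 1)) ^ p * D * R ^ (-η0)) *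
        (16 ^ (η0 / 2) * R ^ (η0 / 2)) := by
        rw [e3]
        exact mul_le_mul_of_nonneg_left e4 (by positivity)
    _ = (2 ^ (p - 1) * Kc ^ p * C2 * (C * B ^ (n + 1)) ^ p * D * 16 ^ (η0 / 2)) *
        (R ^ (η0 / 2) * R ^ (-η0)) := by ring
    _ = _ := by rw [e5]

lemma num2 (n : ℕ) {p D3 s : ℝ} (hp : 1 < p) (hD3 : 0 < D3) (hs : 0 ≤ s) : ∃ C : ℝ, 0 < C ∧
    ∀ (j : ℕ) (η : ℝ), η ≤ 1 → 2 ^ (p - 1) * (D3 * (1 / 2) ^ (16 * 2 ^ j)) ^ p * (s ^ (p - 1) * s) *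
      (2 * (2 : ℝ) ^ j) ^ n ≤ C * ((2 : ℝ) ^ j) ^ (-η) := by
  have hs2 := poly_summable (n + 1) (r := 1 / 2) (by norm_num) (by norm_num)
  set D0 : ℝ := ∑' k : ℕ, ((k : ℝ) + 1) ^ (n + 1) * (1 / 2) ^ k with hD0
  have hD1 : ∀ k : ℕ, ((k : ℝ) + 1) ^ (n + 1) * (1 / 2) ^ k ≤ D0 := fun k =>
    hs2.le_tsum k (fun j _ => by positivity)
  have hD00 : 0 < D0 := lt_of_lt_of_le (by norm_num) (hD1 0)
  refine ⟨2 ^ (p - 1) * D3 ^ p * (s ^ (p - 1) * s) * 2 ^ n * D0 + 1, by positivity, ?_⟩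
  intro j η hη
  set R : ℝ := (2 : ℝ) ^ j with hR
  have hR1 : 1 ≤ R := one_le_pow₀ (by norm_num)
  have hR0 : 0 < R := by linarith
  have h1 : ((D3 * (1 / 2) ^ (16 * 2 ^ j)) ^ p : ℝ) ≤ D3 ^ p * (1 / 2) ^ (16 * 2 ^ j) := by
    rw [Real.mul_rpow hD3.le (by positivity)]
    apply mul_le_mul_of_nonneg_left _ (by positivity)
    have hq : ((1 / 2 : ℝ) ^ (16 * 2 ^ j)) ≤ 1 := pow_le_one₀ (by norm_num) (by norm_num)
    calc ((1 / 2 : ℝ) ^ (16 * 2 ^ j)) ^ p ≤ ((1 / 2 : ℝ) ^ (16 * 2 ^ j)) ^ (1 : ℝ) :=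
          Real.rpow_le_rpow_of_exponent_ge (by positivity) hq hp.le
      _ = _ := Real.rpow_one _
  have h2 : (1 / 2 : ℝ) ^ (16 * 2 ^ j) * R ^ (n + 1) ≤ D0 := by
    have h3 := hD1 (16 * 2 ^ j)
    refine le_trans ?_ h3
    rw [mul_comm]
    apply mul_le_mul_of_nonneg_right _ (by positivity)
    apply pow_le_pow_left₀ hR0.le
    push_cast
    rw [← hR]
    linarith
  have h3 : (1 / 2 : ℝ) ^ (16 * 2 ^ j) * R ^ n ≤ D0 * R ^ (-η) := by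
    have h4 : R ^ (-1 : ℝ) ≤ R ^ (-η) := Real.rpow_le_rpow_of_exponent_le hR1 (by linarith)
    have h5 : (1 / 2 : ℝ) ^ (16 * 2 ^ j) * R ^ n ≤ D0 * R ^ (-1 : ℝ) := by
      rw [Real.rpow_neg_one, ← div_eq_mul_inv, le_div_iff₀ hR0]
      rw [pow_succ, ← mul_assoc] at h2
      exact h2
    exact h5.trans (mul_le_mul_of_nonneg_left h4 hD00.le)
  have hA : 0 ≤ 2 ^ (p - 1) * D3 ^ p * (s ^ (p - 1) * s) * 2 ^ n := by positivity
  calc 2 ^ (p - 1) * (D3 * (1 / 2) ^ (16 * 2 ^ j)) ^ p * (s ^ (p - 1) * s) * (2 * R) ^ n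
      ≤ 2 ^ (p - 1) * (D3 ^ p * (1 / 2) ^ (16 * 2 ^ j)) * (s ^ (p - 1) * s) * (2 * R) ^ n := by
        gcongr
    _ = (2 ^ (p - 1) * D3 ^ p * (s ^ (p - 1) * s) * 2 ^ n) *
        ((1 / 2 : ℝ) ^ (16 * 2 ^ j) * R ^ n) := by
        rw [mul_pow]; ring
    _ ≤ (2 ^ (p - 1) * D3 ^ p * (s ^ (p - 1) * s) * 2 ^ n) * (D0 * R ^ (-η)) :=
        mul_le_mul_of_nonneg_left h3 hA
    _ ≤ _ := by
        have : 0 < R ^ (-η) := Real.rpow_pos_of_pos hR0 _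
        nlinarith

end Pool.Agent.W5h46.LS
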