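import Mathlib
import Pool.Agent.W5h46.LS.Main2
set_option autoImplicit false

/-! The estimate on a dyadic shell, and the sum over the shells. -/

namespace Pool.Agent.W5h46.LS

open MeasureTheory Measure Set Metric Complex
open Pool.Agent.H789R2.FR (E sg sg_finite sg_ae T polar)
open Pool.Agent.H789R2.FR.L2 (measurable_T)
open Pool.Agent.W5h55.SH (ga ga_Lp ar ar_pos phi_cont cc pow_cover)
open scoped ENNReal RealInnerProductSpace

variable {n : ℕ}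

/-- weighted integral over an annulus of the radial factor -/
noncomputable def Ik (n k : ℕ) (p R : ℝ) : ℝ≥0∞ :=
  ∫⁻ r in Ioc R (2 * R), ENNReal.ofReal (r ^ (n - 1)) * ‖mu n k r‖ₑ ^ p

lemma Ik_bound (hn : 3 ≤ n) (p : ℝ) (hp : 2 * (n : ℝ) / (n - 1) < p) (hp1 : 1 < p) :
    ∃ C η : ℝ, 0 < C ∧ 0 < η ∧ ∀ (k : ℕ) (R : ℝ), 1 ≤ R →
      Ik n k p R ≤ ENNReal.ofReal (C * R ^ (-η)) := by
  obtain ⟨C, η, hC, hη, h⟩ := ga_Lp n hn p hp
  have ha := ar_pos (n := n) (by omega)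
  have hp0 : 0 < p := by linarith
  refine ⟨(ar n ^ p)⁻¹ * C, η, by positivity, hη, fun k R hR => ?_⟩
  have h1 : ∀ r : ℝ, ‖mu n k r‖ₑ ^ p = ENNReal.ofReal ((ar n ^ p)⁻¹) * ‖ga n k r‖ₑ ^ p := by
    intro r
    rw [ga_eq_mu, enorm_mul, ENNReal.mul_rpow_of_nonneg _ _ hp0.le, ← mul_assoc,
      Real.enorm_of_nonneg ha.le, ENNReal.ofReal_rpow_of_pos ha, ← ENNReal.ofReal_mul (by positivity),
      inv_mul_cancel₀ (by positivity), ENNReal.ofReal_one, one_mul]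
  unfold Ik
  simp_rw [h1]
  calc ∫⁻ r in Ioc R (2 * R), ENNReal.ofReal (r ^ (n - 1)) *
        (ENNReal.ofReal ((ar n ^ p)⁻¹) * ‖ga n k r‖ₑ ^ p)
      = ∫⁻ r in Ioc R (2 * R), ENNReal.ofReal ((ar n ^ p)⁻¹) *
        (ENNReal.ofReal (r ^ (n - 1)) * ‖ga n k r‖ₑ ^ p) := by
        apply lintegral_congr
        intro r
        ring
    _ = ENNReal.ofReal ((ar n ^ p)⁻¹) * ∫⁻ r in Ioc R (2 * R),
        (ENNReal.ofReal (r ^ (n - 1)) * ‖ga n k r‖ₑ ^ p) :=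
        lintegral_const_mul' _ _ ENNReal.ofReal_ne_top
    _ ≤ ENNReal.ofReal ((ar n ^ p)⁻¹) * ENNReal.ofReal (C * R ^ (-η)) := by
        gcongr
        exact h k R hR
    _ = _ := by
        rw [← ENNReal.ofReal_mul (by positivity), mul_assoc]

lemma vol_annulus (n : ℕ) (hn : 1 ≤ n) (R : ℝ) (hR : 0 < R) :
    ∫⁻ r in Ioc R (2 * R), ENNReal.ofReal (r ^ (n - 1)) ≤ ENNReal.ofReal ((2 * R) ^ n) := by
  calc ∫⁻ r in Ioc R (2 * R), ENNReal.ofReal (r ^ (n - 1))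
      ≤ ∫⁻ _r in Ioc R (2 * R), ENNReal.ofReal ((2 * R) ^ (n - 1)) := by
        apply setLIntegral_mono measurable_const
        intro r hr
        apply ENNReal.ofReal_le_ofReal
        exact pow_le_pow_left₀ (hR.trans hr.1).le hr.2 _
    _ = ENNReal.ofReal ((2 * R) ^ (n - 1)) * ENNReal.ofReal (2 * R - R) := by
        rw [setLIntegral_const, Real.volume_Ioc]
    _ = ENNReal.ofReal ((2 * R) ^ (n - 1) * (2 * R - R)) := by
        rw [ENNReal.ofReal_mul (by positivity)]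
    _ ≤ _ := by
        apply ENNReal.ofReal_le_ofReal
        obtain ⟨m, rfl⟩ : ∃ m, n = m + 1 := ⟨n - 1, by omega⟩
        rw [Nat.add_sub_cancel, pow_succ]
        apply mul_le_mul_of_nonneg_left _ (by positivity)
        linarith

open Classical in
/-- structure of the estimate on one shell -/
lemma shell_struct (hn : 3 ≤ n) (p : ℝ) (hp1 : 1 < p) : ∃ D : ℝ, 0 < D ∧ ∀ (S : Set ℕ)
    (g : E n → ℂ), Measurable g → NG p g ≠ ∞ →
    (∀ k, k ∉ S → ∀ x, ‖x‖ = 1 → Yk g k x = 0) → ∀ j : ℕ,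
    ∫⁻ x in {x : E n | ‖x‖ ∈ Ioc ((2 : ℝ) ^ j) (2 * 2 ^ j)}, ‖T g x‖ₑ ^ p ≤
      (2 : ℝ≥0∞) ^ (p - 1) * (((Finset.range (16 * 2 ^ j)).filter (fun k => k ∈ S)).card : ℝ≥0∞) ^
        (p - 1) * (∑ k ∈ (Finset.range (16 * 2 ^ j)).filter (fun k => k ∈ S),
          Ik n k p (2 ^ j) * ∫⁻ w, ‖Yk g k w‖ₑ ^ p ∂(sg n)) +
      (2 : ℝ≥0∞) ^ (p - 1) * (ENNReal.ofReal (D * (1 / 2) ^ (16 * 2 ^ j)) *
        ∫⁻ y, ‖g y‖ₑ ∂(sg n)) ^ p * (ENNReal.ofReal ((2 * (2 : ℝ) ^ j) ^ n) * (sg n) univ) := by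
  obtain ⟨D, hD, hpt⟩ := T_point (n := n) hn
  refine ⟨D, hD, fun S g hg hfin hvan j => ?_⟩
  have hsf := sg_finite n
  have hp0 : 0 < p := by linarith
  have hint := int_of_Lp hg hp1 hfin
  set R : ℝ := (2 : ℝ) ^ j with hR
  have hR1 : 1 ≤ R := one_le_pow₀ (by norm_num)
  have hR0 : 0 < R := by linarith
  set L : ℕ := 16 * 2 ^ j with hL
  have hLR : (L : ℝ) = 16 * R := by rw [hL, hR]; push_cast; ring
  set F := (Finset.range L).filter (fun k => k ∈ S) with hF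
  set G := ∫⁻ y, ‖g y‖ₑ ∂(sg n) with hG
  set Q1 : ℝ≥0∞ := (2 : ℝ≥0∞) ^ (p - 1) * (F.card : ℝ≥0∞) ^ (p - 1) with hQ1
  set Q2 : ℝ≥0∞ := (2 : ℝ≥0∞) ^ (p - 1) * (ENNReal.ofReal (D * (1 / 2) ^ L) * G) ^ p with hQ2
  have hTm : Measurable (fun x => ‖T g x‖ₑ ^ p) := (measurable_T g hg).measurable.enorm.pow_const p
  rw [shell_polar (by omega) _ hTm R (2 * R) hR0.le]
  have hrm : Measurable fun r : ℝ => ENNReal.ofReal (r ^ (n - 1)) :=
    (measurable_id.pow_const _).ennreal_ofReal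
  have hmm : ∀ k, Measurable fun r : ℝ => ENNReal.ofReal (r ^ (n - 1)) * ‖mu n k r‖ₑ ^ p := fun k =>
    hrm.mul ((mu_continuous (by omega) k).measurable.enorm.pow_const p)
  have hinner : ∀ᵐ w ∂(sg n), ∫⁻ r in Ioc R (2 * R), ENNReal.ofReal (r ^ (n - 1)) *
      ‖T g (r • w)‖ₑ ^ p ≤ Q1 * (∑ k ∈ F, Ik n k p R * ‖Yk g k w‖ₑ ^ p) +
        Q2 * ENNReal.ofReal ((2 * R) ^ n) := by
    filter_upwards [sg_ae n] with w hw
    have h1 : ∀ r ∈ Ioc R (2 * R), ENNReal.ofReal (r ^ (n - 1)) * ‖T g (r • w)‖ₑ ^ p ≤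
        Q1 * (∑ k ∈ F, (ENNReal.ofReal (r ^ (n - 1)) * ‖mu n k r‖ₑ ^ p) * ‖Yk g k w‖ₑ ^ p) +
          Q2 * ENNReal.ofReal (r ^ (n - 1)) := by
      intro r hr
      have h2 := hpt S g hint hvan w hw r L (hR0.trans hr.1).le (by rw [hLR]; linarith [hr.2])
      have h3 : ‖T g (r • w)‖ₑ ^ p ≤ (2 : ℝ≥0∞) ^ (p - 1) *
          ((F.card : ℝ≥0∞) ^ (p - 1) * (∑ k ∈ F, (‖mu n k r‖ₑ * ‖Yk g k w‖ₑ) ^ p) +
            (ENNReal.ofReal (D * (1 / 2) ^ L) * G) ^ p) := by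
        refine (ENNReal.rpow_le_rpow h2 hp0.le).trans ?_
        refine (ENNReal.rpow_add_le_mul_rpow_add_rpow _ _ hp1.le).trans ?_
        gcongr
        exact ENNReal.rpow_sum_le_const_mul_sum_rpow _ _ hp1.le
      calc ENNReal.ofReal (r ^ (n - 1)) * ‖T g (r • w)‖ₑ ^ p
          ≤ ENNReal.ofReal (r ^ (n - 1)) * ((2 : ℝ≥0∞) ^ (p - 1) *
          ((F.card : ℝ≥0∞) ^ (p - 1) * (∑ k ∈ F, (‖mu n k r‖ₑ * ‖Yk g k w‖ₑ) ^ p) +
            (ENNReal.ofReal (D * (1 / 2) ^ L) * G) ^ p)) := by gcongr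
        _ = _ := by
            rw [hQ1, hQ2]
            have e : ∀ k, ENNReal.ofReal (r ^ (n - 1)) * ‖mu n k r‖ₑ ^ p * ‖Yk g k w‖ₑ ^ p =
                ENNReal.ofReal (r ^ (n - 1)) * (‖mu n k r‖ₑ * ‖Yk g k w‖ₑ) ^ p := fun k => by
              rw [ENNReal.mul_rpow_of_nonneg _ _ hp0.le, mul_assoc]
            simp_rw [e]
            rw [← Finset.mul_sum]
            ring
    calc ∫⁻ r in Ioc R (2 * R), ENNReal.ofReal (r ^ (n - 1)) * ‖T g (r • w)‖ₑ ^ p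
        ≤ ∫⁻ r in Ioc R (2 * R), (Q1 * (∑ k ∈ F, (ENNReal.ofReal (r ^ (n - 1)) *
            ‖mu n k r‖ₑ ^ p) * ‖Yk g k w‖ₑ ^ p) + Q2 * ENNReal.ofReal (r ^ (n - 1))) := by
          refine setLIntegral_mono ?_ h1
          apply Measurable.add
          · apply Measurable.const_mul
            exact Finset.measurable_sum _ fun k _ => (hmm k).mul_const _
          · exact hrm.const_mul _
      _ = Q1 * (∑ k ∈ F, Ik n k p R * ‖Yk g k w‖ₑ ^ p) +
          Q2 * ∫⁻ r in Ioc R (2 * R), ENNReal.ofReal (r ^ (n - 1)) := by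
          rw [lintegral_add_right _ (hrm.const_mul _), lintegral_const_mul _
            (Finset.measurable_sum _ fun k _ => (hmm k).mul_const _),
            lintegral_finsetSum _ fun k _ => (hmm k).mul_const _, lintegral_const_mul _ hrm]
          congr 2
          apply Finset.sum_congr rfl
          intro k _
          rw [lintegral_mul_const _ (hmm k)]
          rfl
      _ ≤ _ := by
          gcongr
          exact vol_annulus n (by omega) R hR0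
  have hYm : ∀ k, Measurable fun w => ‖Yk g k w‖ₑ ^ p := fun k => (Yk_meas hg k).enorm.pow_const p
  calc ∫⁻ w, (∫⁻ r in Ioc R (2 * R), ENNReal.ofReal (r ^ (n - 1)) * ‖T g (r • w)‖ₑ ^ p) ∂(sg n)
      ≤ ∫⁻ w, (Q1 * (∑ k ∈ F, Ik n k p R * ‖Yk g k w‖ₑ ^ p) +
        Q2 * ENNReal.ofReal ((2 * R) ^ n)) ∂(sg n) := lintegral_mono_ae hinner
    _ = Q1 * (∑ k ∈ F, Ik n k p R * ∫⁻ w, ‖Yk g k w‖ₑ ^ p ∂(sg n)) +
        Q2 * ENNReal.ofReal ((2 * R) ^ n) * (sg n) univ := by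
        rw [lintegral_add_right _ measurable_const, lintegral_const_mul _
          (Finset.measurable_sum _ fun k _ => (hYm k).const_mul _),
          lintegral_finsetSum _ fun k _ => (hYm k).const_mul _, lintegral_const]
        congr 2
        apply Finset.sum_congr rfl
        intro k _
        rw [lintegral_const_mul _ (hYm k)]
    _ = _ := by
        rw [mul_assoc Q2]

end Pool.Agent.W5h46.LS
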