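import Mathlib
import Pool.Agent.W5h46.LS.Main3
set_option autoImplicit false

/-! The sum over the shells. -/

namespace Pool.Agent.W5h46.LS

open MeasureTheory Measure Set Metric Complex
open Pool.Agent.H789R2.FR (E sg sg_finite sg_ae T polar)
open Pool.Agent.H789R2.FR.L2 (measurable_T)
open Pool.Agent.W5h55.SH (ga ga_Lp ar ar_pos phi_cont cc pow_cover)
open scoped ENNReal RealInnerProductSpace

variable {n : ℕ}

lemma ofReal_mul5 {a b c d e : ℝ} (ha : 0 ≤ a) (hb : 0 ≤ b) (hc : 0 ≤ c) (hd : 0 ≤ d) :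
    ENNReal.ofReal (a * (b * c) * d * e) = ENNReal.ofReal a * (ENNReal.ofReal b *
      ENNReal.ofReal c) * ENNReal.ofReal d * ENNReal.ofReal e := by
  rw [ENNReal.ofReal_mul (by positivity), ENNReal.ofReal_mul (by positivity),
    ENNReal.ofReal_mul (by positivity), ENNReal.ofReal_mul hb]

/-- **One shell.** -/
theorem shell_bound (hn : 3 ≤ n) (p : ℝ) (hp : 2 * (n : ℝ) / (n - 1) < p) (hp1 : 1 < p) :
    ∃ δ : ℝ, 0 < δ ∧ δ ≤ 1 ∧ ∀ c : ℝ, 0 < c → c ≤ 1 → ∃ C η : ℝ, 0 < C ∧ 0 < η ∧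
    ∀ (S : Set ℕ), GapSet c δ S → ∀ (g : E n → ℂ), Measurable g → NG p g ≠ ∞ →
    (∀ k, k ∉ S → ∀ x, ‖x‖ = 1 → Yk g k x = 0) → ∀ j : ℕ,
    ∫⁻ x in {x : E n | ‖x‖ ∈ Ioc ((2 : ℝ) ^ j) (2 * 2 ^ j)}, ‖T g x‖ₑ ^ p ≤
      ENNReal.ofReal (C * ((2 : ℝ) ^ j) ^ (-η)) * NG p g := by
  classical
  have hsf := sg_finite n
  have hp0 : 0 < p := by linarith
  obtain ⟨C2, η0, hC2, hη0, hI⟩ := Ik_bound hn p hp hp1
  obtain ⟨D3, hD3, hstr⟩ := shell_struct (n := n) hn p hp1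
  obtain ⟨C, D, hC, hD, hYp⟩ := Yk_Lp (n := n) hn p hp1
  set s : ℝ := (sg n).real univ with hs
  have hs0 : 0 ≤ s := measureReal_nonneg
  have hsu : (sg n) univ = ENNReal.ofReal s := by
    rw [hs, ofReal_measureReal]
  obtain ⟨C4, hC4, hnum2⟩ := num2 n hp1 hD3 hs0
  have hn2 : (0 : ℝ) < (n : ℝ) + 2 := by positivity
  set δ : ℝ := min 1 (η0 / 2 / (((n : ℝ) + 2) * p)) with hδ
  have hδ0 : 0 < δ := lt_min one_pos (by positivity)
  have hδ1 : δ ≤ 1 := min_le_left _ _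
  have hδη : δ * ((n : ℝ) + 2) * p ≤ η0 / 2 := by
    have : δ ≤ η0 / 2 / (((n : ℝ) + 2) * p) := min_le_right _ _
    rw [le_div_iff₀ (by positivity)] at this
    linarith
  refine ⟨δ, hδ0, hδ1, ?_⟩
  intro c hc hc1
  set B : ℝ := 1 + 8 * ((n : ℝ) + 3) / c with hB
  have hB0 : 0 < B := by positivity
  set Kc : ℝ := 2 + 2 / (δ * c) with hKc
  have hKc0 : 0 < Kc := by positivity
  set C5 : ℝ := 2 ^ (p - 1) * Kc ^ p * C2 * (C * B ^ (n + 1)) ^ p * D * 16 ^ (η0 / 2) with hC5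
  have hC50 : 0 < C5 := by positivity
  set η : ℝ := min 1 (η0 / 2) with hη
  have hη00 : 0 < η := lt_min one_pos (by positivity)
  have hη1 : η ≤ 1 := min_le_left _ _
  have hη2 : η ≤ η0 / 2 := min_le_right _ _
  refine ⟨C5 + C4, η, by positivity, hη00, ?_⟩
  intro S hS g hg hfin hvan j
  refine (hstr S g hg hfin hvan j).trans ?_
  set R : ℝ := (2 : ℝ) ^ j with hR
  have hR1 : 1 ≤ R := one_le_pow₀ (by norm_num)
  have hR0 : 0 < R := by linarith
  set L : ℕ := 16 * 2 ^ j with hL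
  have hL1 : 1 ≤ L := by
    have : 1 ≤ 2 ^ j := Nat.one_le_two_pow
    omega
  have hLR : (L : ℝ) = 16 * R := by rw [hL, hR]; push_cast; ring
  set F := (Finset.range L).filter (fun k => k ∈ S) with hF
  have hX1 : 1 ≤ 16 * R := by linarith
  have hXd : 0 < (16 * R) ^ δ := Real.rpow_pos_of_pos (by linarith) _
  set u : ℝ := Kc * (16 * R) ^ δ with hu
  have hu0 : 0 < u := by positivity
  have hcard : (F.card : ℝ≥0∞) ≤ ENNReal.ofReal u := by
    have h1 := gap_count hc hc1 hδ0 hS L hL1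
    rw [hLR] at h1
    rw [← ENNReal.ofReal_natCast]
    exact ENNReal.ofReal_le_ofReal h1
  have h2two : (2 : ℝ≥0∞) ^ (p - 1) = ENNReal.ofReal (2 ^ (p - 1)) := by
    rw [← ENNReal.ofReal_rpow_of_pos (by norm_num), ENNReal.ofReal_ofNat]
  -- the first term
  have ht1 : (2 : ℝ≥0∞) ^ (p - 1) * (F.card : ℝ≥0∞) ^ (p - 1) * (∑ k ∈ F,
      Ik n k p R * ∫⁻ w, ‖Yk g k w‖ₑ ^ p ∂(sg n)) ≤
      ENNReal.ofReal (C5 * R ^ (-η)) * NG p g := by
    set V : ℝ := (C * (B * (16 * R) ^ δ) ^ (n + 1)) ^ p * D with hV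
    have hV0 : 0 < V := by positivity
    have hterm : ∀ k ∈ F, Ik n k p R * ∫⁻ w, ‖Yk g k w‖ₑ ^ p ∂(sg n) ≤
        ENNReal.ofReal (C2 * R ^ (-η0)) * (ENNReal.ofReal V * NG p g) := by
      intro k hk
      rw [hF, Finset.mem_filter, Finset.mem_range] at hk
      have h1 := hYp c δ hc hc1 hδ0 hδ1 S hS g hg hfin hvan k hk.2
      have h2 : ((k : ℝ) + 1) ^ δ ≤ (16 * R) ^ δ := by
        apply Real.rpow_le_rpow (by positivity) _ hδ0.le
        rw [← hLR]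
        exact_mod_cast hk.1
      apply mul_le_mul' (hI k R hR1)
      refine h1.trans ?_
      apply mul_le_mul' _ le_rfl
      apply ENNReal.ofReal_le_ofReal
      rw [hV]
      gcongr
    calc (2 : ℝ≥0∞) ^ (p - 1) * (F.card : ℝ≥0∞) ^ (p - 1) * (∑ k ∈ F,
          Ik n k p R * ∫⁻ w, ‖Yk g k w‖ₑ ^ p ∂(sg n))
        ≤ (2 : ℝ≥0∞) ^ (p - 1) * (F.card : ℝ≥0∞) ^ (p - 1) * ((F.card : ℝ≥0∞) *
          (ENNReal.ofReal (C2 * R ^ (-η0)) * (ENNReal.ofReal V * NG p g))) := by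
          apply mul_le_mul' le_rfl
          refine (Finset.sum_le_sum hterm).trans (le_of_eq ?_)
          rw [Finset.sum_const, nsmul_eq_mul]
      _ ≤ ENNReal.ofReal (2 ^ (p - 1)) * (ENNReal.ofReal (u ^ (p - 1))) * (ENNReal.ofReal u *
          (ENNReal.ofReal (C2 * R ^ (-η0)) * (ENNReal.ofReal V * NG p g))) := by
          rw [h2two]
          have h3 : (F.card : ℝ≥0∞) ^ (p - 1) ≤ ENNReal.ofReal (u ^ (p - 1)) := by
            rw [← ENNReal.ofReal_rpow_of_pos hu0]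
            exact ENNReal.rpow_le_rpow hcard (by linarith)
          exact mul_le_mul' (mul_le_mul' le_rfl h3) (mul_le_mul' hcard le_rfl)
      _ = ENNReal.ofReal (2 ^ (p - 1) * (u ^ (p - 1) * u) * (C2 * R ^ (-η0)) * V) * NG p g := by
          rw [ofReal_mul5 (by positivity) (by positivity) hu0.le (by positivity)]
          ring
      _ ≤ ENNReal.ofReal (C5 * R ^ (-η)) * NG p g := by
          apply mul_le_mul' _ le_rfl
          apply ENNReal.ofReal_le_ofReal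
          have h4 := num1 (n := n) (η0 := η0) hp1 hKc0 hB0 hC hC2 hD hR1 hδ0 hδη
          refine h4.trans ?_
          apply mul_le_mul_of_nonneg_left _ hC50.le
          exact Real.rpow_le_rpow_of_exponent_le hR1 (by linarith)
  -- the second term
  have ht2 : (2 : ℝ≥0∞) ^ (p - 1) * (ENNReal.ofReal (D3 * (1 / 2) ^ L) *
        ∫⁻ y, ‖g y‖ₑ ∂(sg n)) ^ p * (ENNReal.ofReal ((2 * R) ^ n) * (sg n) univ) ≤
      ENNReal.ofReal (C4 * R ^ (-η)) * NG p g := by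
    have hG := holder1 (sg n) hg.enorm hp1
    rw [hsu] at hG ⊢
    calc (2 : ℝ≥0∞) ^ (p - 1) * (ENNReal.ofReal (D3 * (1 / 2) ^ L) *
          ∫⁻ y, ‖g y‖ₑ ∂(sg n)) ^ p * (ENNReal.ofReal ((2 * R) ^ n) * ENNReal.ofReal s)
        = ENNReal.ofReal (2 ^ (p - 1)) * (ENNReal.ofReal ((D3 * (1 / 2) ^ L) ^ p) *
          (∫⁻ y, ‖g y‖ₑ ∂(sg n)) ^ p) * (ENNReal.ofReal ((2 * R) ^ n) * ENNReal.ofReal s) := by
          rw [h2two, ENNReal.mul_rpow_of_nonneg _ _ hp0.le,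
            ENNReal.ofReal_rpow_of_nonneg (by positivity) hp0.le]
      _ ≤ ENNReal.ofReal (2 ^ (p - 1)) * (ENNReal.ofReal ((D3 * (1 / 2) ^ L) ^ p) *
          (ENNReal.ofReal s ^ (p - 1) * NG p g)) *
            (ENNReal.ofReal ((2 * R) ^ n) * ENNReal.ofReal s) := by
          gcongr
          exact hG
      _ = ENNReal.ofReal (2 ^ (p - 1) * (s ^ (p - 1) * s) * (D3 * (1 / 2) ^ L) ^ p *
          (2 * R) ^ n) * NG p g := by
          rw [ENNReal.ofReal_rpow_of_nonneg hs0 (by linarith),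
            ofReal_mul5 (by positivity) (by positivity) hs0 (by positivity)]
          ring
      _ = ENNReal.ofReal (2 ^ (p - 1) * (D3 * (1 / 2) ^ L) ^ p * (s ^ (p - 1) * s) *
          (2 * R) ^ n) * NG p g := by
          congr 2
          ring
      _ ≤ _ := by
          apply mul_le_mul' _ le_rfl
          apply ENNReal.ofReal_le_ofReal
          exact hnum2 j η hη1
  refine (add_le_add ht1 ht2).trans (le_of_eq ?_)
  rw [← add_mul, ← ENNReal.ofReal_add (by positivity) (by positivity)]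
  congr 2
  ring

lemma T_triv {g : E n → ℂ} (x : E n) : ‖T g x‖ₑ ≤ ∫⁻ y, ‖g y‖ₑ ∂(sg n) := by
  unfold T
  refine (enorm_integral_le_lintegral_enorm _).trans (le_of_eq ?_)
  apply lintegral_congr
  intro y
  rw [enorm_mul]
  have : ‖Complex.exp (-((⟪x, y⟫ : ℝ) : ℂ) * I)‖ₑ = 1 := by
    have e : -((⟪x, y⟫ : ℝ) : ℂ) * I = ((-(⟪x, y⟫ : ℝ) : ℝ) : ℂ) * I := by push_cast; ring
    rw [← ofReal_norm, e, norm_exp_ofReal_mul_I, ENNReal.ofReal_one]
  rw [this, one_mul]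

/-- **Main estimate.** -/
theorem T_Lp (hn : 3 ≤ n) (p : ℝ) (hp : 2 * (n : ℝ) / (n - 1) < p) :
    ∃ δ : ℝ, 0 < δ ∧ δ ≤ 1 ∧ ∀ c : ℝ, 0 < c → ∃ C : ℝ, 0 < C ∧
    ∀ (S : Set ℕ), GapSet c δ S → ∀ (g : E n → ℂ), Measurable g →
    (∀ k, k ∉ S → ∀ x, ‖x‖ = 1 → Yk g k x = 0) →
    ∫⁻ x : E n, ‖T g x‖ₑ ^ p ≤ ENNReal.ofReal C * NG p g := by
  have hn' : (3 : ℝ) ≤ n := by exact_mod_cast hn
  have hsf := sg_finite n
  have hp1 : 1 < p := by
    have : 1 ≤ 2 * (n : ℝ) / (n - 1) := by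
      rw [le_div_iff₀ (by linarith)]
      linarith
    linarith
  have hp0 : 0 < p := by linarith
  obtain ⟨δ, hδ0, hδ1, h⟩ := shell_bound hn p hp hp1
  refine ⟨δ, hδ0, hδ1, fun c' hc' => ?_⟩
  obtain ⟨C, η, hC, hη, hsh⟩ := h (min c' 1) (lt_min hc' one_pos) (min_le_right _ _)
  set v : ℝ≥0∞ := volume (closedBall (0 : E n) 1) * (sg n) univ ^ (p - 1) with hv
  have hvt : v ≠ ∞ := ENNReal.mul_ne_top (measure_closedBall_lt_top).ne
    (ENNReal.rpow_ne_top_of_nonneg (by linarith) (measure_ne_top _ _))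
  set q : ℝ := (2 : ℝ) ^ (-η) with hq
  have hq0 : 0 < q := Real.rpow_pos_of_pos (by norm_num) _
  have hq1 : q < 1 := Real.rpow_lt_one_of_one_lt_of_neg (by norm_num) (by linarith)
  have hqs : Summable fun j : ℕ => C * q ^ j := (summable_geometric_of_lt_one hq0.le hq1).mul_left C
  refine ⟨v.toReal + ∑' j : ℕ, C * q ^ j + 1, by positivity, ?_⟩
  intro S hS g hg hvan
  by_cases hfin : NG p g = ∞
  · rw [hfin, ENNReal.mul_top]
    · exact le_top
    · rw [Ne, ENNReal.ofReal_eq_zero, not_le]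
      positivity
  have hS' : GapSet (min c' 1) δ S := hS.mono (min_le_left _ _)
  have hcov : (univ : Set (E n)) ⊆ closedBall (0 : E n) 1 ∪
      ⋃ j : ℕ, {x : E n | ‖x‖ ∈ Ioc ((2 : ℝ) ^ j) (2 * 2 ^ j)} := by
    intro x _
    rcases le_or_gt ‖x‖ 1 with h1 | h1
    · left
      rwa [mem_closedBall_zero_iff]
    · right
      obtain ⟨j, hj⟩ := pow_cover _ h1
      exact mem_iUnion.mpr ⟨j, hj⟩
  calc ∫⁻ x : E n, ‖T g x‖ₑ ^ p = ∫⁻ x in univ, ‖T g x‖ₑ ^ p := by rw [Measure.restrict_univ]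
    _ ≤ ∫⁻ x in closedBall (0 : E n) 1 ∪
      ⋃ j : ℕ, {x : E n | ‖x‖ ∈ Ioc ((2 : ℝ) ^ j) (2 * 2 ^ j)}, ‖T g x‖ₑ ^ p :=
        lintegral_mono_set hcov
    _ ≤ (∫⁻ x in closedBall (0 : E n) 1, ‖T g x‖ₑ ^ p) +
      ∑' j : ℕ, ∫⁻ x in {x : E n | ‖x‖ ∈ Ioc ((2 : ℝ) ^ j) (2 * 2 ^ j)}, ‖T g x‖ₑ ^ p :=
        (lintegral_union_le _ _ _).trans (add_le_add le_rfl (lintegral_iUnion_le _ _))
    _ ≤ v * NG p g + ∑' j : ℕ, ENNReal.ofReal (C * q ^ j) * NG p g := by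
        apply add_le_add
        · calc ∫⁻ x in closedBall (0 : E n) 1, ‖T g x‖ₑ ^ p
              ≤ ∫⁻ _x in closedBall (0 : E n) 1, (∫⁻ y, ‖g y‖ₑ ∂(sg n)) ^ p := by
                apply lintegral_mono
                intro x
                exact ENNReal.rpow_le_rpow (T_triv x) hp0.le
            _ = volume (closedBall (0 : E n) 1) * (∫⁻ y, ‖g y‖ₑ ∂(sg n)) ^ p := by
                rw [setLIntegral_const, mul_comm]
            _ ≤ volume (closedBall (0 : E n) 1) * ((sg n) univ ^ (p - 1) * NG p g) := by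
                gcongr
                exact holder1 (sg n) hg.enorm hp1
            _ = v * NG p g := by rw [hv, mul_assoc]
        · apply ENNReal.tsum_le_tsum
          intro j
          have h1 := hsh S hS' g hg hfin hvan j
          have e : ((2 : ℝ) ^ j) ^ (-η) = q ^ j := by
            rw [hq, ← Real.rpow_natCast, ← Real.rpow_mul (by norm_num), ← Real.rpow_natCast,
              ← Real.rpow_mul (by norm_num), mul_comm]
          rwa [e] at h1
    _ = (v + ENNReal.ofReal (∑' j : ℕ, C * q ^ j)) * NG p g := by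
        rw [ENNReal.tsum_mul_right, add_mul,
          ENNReal.ofReal_tsum_of_nonneg (fun j => by positivity) hqs]
    _ ≤ _ := by
        apply mul_le_mul' _ le_rfl
        have h0 : 0 ≤ ∑' j : ℕ, C * q ^ j := tsum_nonneg fun j => by positivity
        rw [ENNReal.ofReal_add (by positivity) (by norm_num), ENNReal.ofReal_add
          ENNReal.toReal_nonneg h0, ENNReal.ofReal_toReal hvt]
        exact le_self_add

end Pool.Agent.W5h46.LS
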