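import Mathlib
import Pool.Agent.W5h46.LS.Main4
set_option autoImplicit false

/-! Even and odd parts: only the gaps between degrees of the same parity matter. -/

namespace Pool.Agent.W5h46.LS

open MeasureTheory Measure Set Metric Complex
open Pool.Agent.H789R2.FR (E sg sg_finite sg_ae sg_inv T polar)
open Pool.Agent.H789R2.FR.L2 (measurable_T)
open scoped ENNReal RealInnerProductSpace

variable {n : ℕ}

lemma Cg_neg (l t : ℝ) (k : ℕ) : Cg l (-t) k = (-1) ^ k * Cg l t k := by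
  induction k using Nat.strong_induction_on with
  | _ k ih =>
    match k, ih with
    | 0, _ => simp [Cg]
    | 1, _ => simp [Cg]
    | k + 2, ih =>
      rw [Cg, Cg, ih (k + 1) (by omega), ih k (by omega), pow_succ, pow_add]
      ring

lemma Zg_neg (l t : ℝ) (k : ℕ) : Zg l (-t) k = (-1) ^ k * Zg l t k := by
  unfold Zg
  rw [Cg_neg]
  ring

/-- even (`s = 1`) and odd (`s = -1`) part -/
noncomputable def Pt (s : ℂ) (g : E n → ℂ) (x : E n) : ℂ := (g x + s * g (-x)) / 2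

lemma Pt_meas (s : ℂ) {g : E n → ℂ} (hg : Measurable g) : Measurable (Pt s g) := by
  unfold Pt
  exact (hg.add ((hg.comp measurable_neg).const_mul s)).div_const 2

lemma neg_mp : MeasurePreserving (fun x : E n => -x) (sg n) (sg n) :=
  sg_inv (LinearIsometryEquiv.neg ℝ)

lemma neg_int {g : E n → ℂ} (hg : Integrable g (sg n)) : Integrable (fun x => g (-x)) (sg n) :=
  neg_mp.integrable_comp_of_integrable hg

lemma Pt_int (s : ℂ) {g : E n → ℂ} (hg : Integrable g (sg n)) : Integrable (Pt s g) (sg n) := by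
  unfold Pt
  exact (hg.add ((neg_int hg).const_mul s)).div_const 2

lemma Yk_neg (hn : 3 ≤ n) (s : ℂ) {g : E n → ℂ} (hg : Integrable g (sg n)) (k : ℕ) (x : E n)
    (hx : ‖x‖ = 1) : Yk (Pt s g) k x = (1 + s * (-1) ^ k) / 2 * Yk g k x := by
  have h1 := gZ_int hn hg x hx k
  have h2 := gZ_int hn (neg_int hg) x hx k
  have h3 : ∫ y, g (-y) * (Zg (lam n) (⟪x, y⟫ : ℝ) k : ℂ) ∂(sg n) = (-1) ^ k * Yk g k x := by
    have h4 := neg_mp (n := n) |>.integral_comp (MeasurableEquiv.neg (E n)).measurableEmbedding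
      (fun y => g y * (Zg (lam n) (⟪x, -y⟫ : ℝ) k : ℂ))
    simp only [neg_neg] at h4
    rw [h4]
    unfold Yk
    rw [← integral_const_mul]
    congr 1
    funext y
    rw [inner_neg_right, Zg_neg]
    push_cast
    ring
  unfold Yk Pt at *
  have e : ∀ y : E n, (g y + s * g (-y)) / 2 * (Zg (lam n) (⟪x, y⟫ : ℝ) k : ℂ) =
      (1 / 2) * (g y * (Zg (lam n) (⟪x, y⟫ : ℝ) k : ℂ)) +
        (s / 2) * (g (-y) * (Zg (lam n) (⟪x, y⟫ : ℝ) k : ℂ)) := by
    intro y; ring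
  simp_rw [e]
  rw [integral_add (h1.const_mul _) (h2.const_mul _), integral_const_mul, integral_const_mul, h3]
  ring

lemma NG_Pt (s : ℂ) (hs : ‖s‖ ≤ 1) {p : ℝ} (hp : 1 < p) {g : E n → ℂ} (hg : Measurable g) :
    NG p (Pt s g) ≤ (2 : ℝ≥0∞) ^ p * NG p g := by
  have hp0 : 0 < p := by linarith
  have h1 : ∀ x : E n, ‖Pt s g x‖ₑ ^ p ≤ (2 : ℝ≥0∞) ^ (p - 1) * (‖g x‖ₑ ^ p + ‖g (-x)‖ₑ ^ p) := by
    intro x
    have h2 : ‖Pt s g x‖ₑ ≤ ‖g x‖ₑ + ‖g (-x)‖ₑ := by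
      have h3 : ‖Pt s g x‖ ≤ ‖g x‖ + ‖g (-x)‖ := by
        unfold Pt
        rw [norm_div, Complex.norm_ofNat]
        have h4 := norm_add_le (g x) (s * g (-x))
        rw [norm_mul] at h4
        have h5 := mul_le_mul_of_nonneg_right hs (norm_nonneg (g (-x)))
        have h6 := norm_nonneg (g x)
        have h7 := norm_nonneg (g (-x))
        rw [div_le_iff₀ (by norm_num)]
        linarith
      rw [← ofReal_norm, ← ofReal_norm, ← ofReal_norm, ← ENNReal.ofReal_add (norm_nonneg _)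
        (norm_nonneg _)]
      exact ENNReal.ofReal_le_ofReal h3
    exact (ENNReal.rpow_le_rpow h2 hp0.le).trans (ENNReal.rpow_add_le_mul_rpow_add_rpow _ _ hp.le)
  unfold NG
  have hm : Measurable fun x : E n => ‖g x‖ₑ ^ p := hg.enorm.pow_const p
  calc ∫⁻ x, ‖Pt s g x‖ₑ ^ p ∂(sg n)
      ≤ ∫⁻ x, (2 : ℝ≥0∞) ^ (p - 1) * (‖g x‖ₑ ^ p + ‖g (-x)‖ₑ ^ p) ∂(sg n) := lintegral_mono h1
    _ = (2 : ℝ≥0∞) ^ (p - 1) * ((∫⁻ x, ‖g x‖ₑ ^ p ∂(sg n)) + ∫⁻ x, ‖g x‖ₑ ^ p ∂(sg n)) := by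
        rw [lintegral_const_mul' _ _ (ENNReal.rpow_ne_top_of_nonneg (by linarith) (by norm_num)),
          lintegral_add_left hm]
        congr 2
        exact neg_mp.lintegral_comp hm
    _ = _ := by
        rw [← two_mul, ← mul_assoc]
        congr 1
        calc (2 : ℝ≥0∞) ^ (p - 1) * 2 = (2 : ℝ≥0∞) ^ (p - 1) * (2 : ℝ≥0∞) ^ (1 : ℝ) := by
              rw [ENNReal.rpow_one]
          _ = _ := by
              rw [← ENNReal.rpow_add _ _ (by norm_num) (by norm_num)]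
              congr 1
              ring

lemma kerT_int {g : E n → ℂ} (hg : Integrable g (sg n)) (x : E n) :
    Integrable (fun w => Complex.exp (-((⟪x, w⟫ : ℝ) : ℂ) * I) * g w) (sg n) := by
  refine hg.bdd_mul (c := 1) ?_ ?_
  · exact (by fun_prop : Continuous fun w : E n =>
      Complex.exp (-((⟪x, w⟫ : ℝ) : ℂ) * I)).aestronglyMeasurable
  · refine Filter.Eventually.of_forall fun w => ?_
    have e : -((⟪x, w⟫ : ℝ) : ℂ) * I = ((-(⟪x, w⟫ : ℝ) : ℝ) : ℂ) * I := by push_cast; ring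
    rw [e, norm_exp_ofReal_mul_I]

lemma T_split {g : E n → ℂ} (hg : Integrable g (sg n)) (x : E n) :
    T g x = T (Pt 1 g) x + T (Pt (-1) g) x := by
  unfold T
  rw [← integral_add (kerT_int (Pt_int 1 hg) x) (kerT_int (Pt_int (-1) hg) x)]
  congr 1
  funext w
  unfold Pt
  ring

/-- **Main estimate with parity.** -/
theorem T_Lp' (hn : 3 ≤ n) (p : ℝ) (hp : 2 * (n : ℝ) / (n - 1) < p) :
    ∃ δ : ℝ, 0 < δ ∧ δ ≤ 1 ∧ ∀ c : ℝ, 0 < c → ∃ C : ℝ, 0 < C ∧
    ∀ (S : Set ℕ), (∀ k ∈ S, ∀ l ∈ S, (Even k ↔ Even l) → k < l →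
      c * (k : ℝ) ^ (1 - δ) ≤ (l : ℝ) - k) → ∀ (g : E n → ℂ), Measurable g →
    (∀ k, k ∉ S → ∀ x, ‖x‖ = 1 → Yk g k x = 0) →
    ∫⁻ x : E n, ‖T g x‖ₑ ^ p ≤ ENNReal.ofReal C * NG p g := by
  have hn' : (3 : ℝ) ≤ n := by exact_mod_cast hn
  have hp1 : 1 < p := by
    have : 1 ≤ 2 * (n : ℝ) / (n - 1) := by
      rw [le_div_iff₀ (by linarith)]
      linarith
    linarith
  have hp0 : 0 < p := by linarith
  obtain ⟨δ, hδ0, hδ1, h⟩ := T_Lp hn p hp
  refine ⟨δ, hδ0, hδ1, fun c hc => ?_⟩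
  obtain ⟨C, hC, hT⟩ := h c hc
  refine ⟨2 ^ (p - 1) * (2 * (C * 2 ^ p)), by positivity, ?_⟩
  intro S hS g hg hvan
  by_cases hfin : NG p g = ∞
  · rw [hfin, ENNReal.mul_top]
    · exact le_top
    · rw [Ne, ENNReal.ofReal_eq_zero, not_le]
      positivity
  have hint := int_of_Lp hg hp1 hfin
  have h1 : ∫⁻ x : E n, ‖T (Pt 1 g) x‖ₑ ^ p ≤ ENNReal.ofReal C * ((2 : ℝ≥0∞) ^ p * NG p g) := by
    refine (hT {k | k ∈ S ∧ Even k} ?_ (Pt 1 g) (Pt_meas 1 hg) ?_).trans ?_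
    · intro k hk l hl hkl
      exact hS k hk.1 l hl.1 ⟨fun _ => hl.2, fun _ => hk.2⟩ hkl
    · intro k hk x hx
      rw [Yk_neg hn 1 hint k x hx]
      by_cases hkS : k ∈ S
      · have hodd : Odd k := by
          rw [← Nat.not_even_iff_odd]
          exact fun he => hk ⟨hkS, he⟩
        rw [hodd.neg_one_pow]
        ring
      · rw [hvan k hkS x hx, mul_zero]
    · gcongr
      exact NG_Pt 1 (by simp) hp1 hg
  have h2 : ∫⁻ x : E n, ‖T (Pt (-1) g) x‖ₑ ^ p ≤ ENNReal.ofReal C * ((2 : ℝ≥0∞) ^ p * NG p g) := by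
    refine (hT {k | k ∈ S ∧ ¬ Even k} ?_ (Pt (-1) g) (Pt_meas (-1) hg) ?_).trans ?_
    · intro k hk l hl hkl
      exact hS k hk.1 l hl.1 ⟨fun h => absurd h hk.2, fun h => absurd h hl.2⟩ hkl
    · intro k hk x hx
      rw [Yk_neg hn (-1) hint k x hx]
      by_cases hkS : k ∈ S
      · have heven : Even k := by
          by_contra he
          exact hk ⟨hkS, he⟩
        rw [heven.neg_one_pow]
        ring
      · rw [hvan k hkS x hx, mul_zero]
    · gcongr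
      exact NG_Pt (-1) (by simp) hp1 hg
  have hm1 : Measurable fun x => ‖T (Pt 1 g) x‖ₑ ^ p := by
    have := sg_finite n
    exact (measurable_T _ (Pt_meas 1 hg)).measurable.enorm.pow_const p
  calc ∫⁻ x : E n, ‖T g x‖ₑ ^ p ≤ ∫⁻ x : E n, (2 : ℝ≥0∞) ^ (p - 1) *
        (‖T (Pt 1 g) x‖ₑ ^ p + ‖T (Pt (-1) g) x‖ₑ ^ p) := by
        apply lintegral_mono
        intro x
        simp only
        rw [T_split hint x]
        exact (ENNReal.rpow_le_rpow (enorm_add_le _ _) hp0.le).trans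
          (ENNReal.rpow_add_le_mul_rpow_add_rpow _ _ hp1.le)
    _ = (2 : ℝ≥0∞) ^ (p - 1) * ((∫⁻ x : E n, ‖T (Pt 1 g) x‖ₑ ^ p) +
        (∫⁻ x : E n, ‖T (Pt (-1) g) x‖ₑ ^ p)) := by
        rw [lintegral_const_mul' _ _ (ENNReal.rpow_ne_top_of_nonneg (by linarith) (by norm_num)),
          lintegral_add_left hm1]
    _ ≤ (2 : ℝ≥0∞) ^ (p - 1) * (ENNReal.ofReal C * ((2 : ℝ≥0∞) ^ p * NG p g) +
        ENNReal.ofReal C * ((2 : ℝ≥0∞) ^ p * NG p g)) := by gcongr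
    _ = _ := by
        have e1 : (2 : ℝ≥0∞) ^ (p - 1) = ENNReal.ofReal (2 ^ (p - 1)) := by
          rw [← ENNReal.ofReal_rpow_of_pos (by norm_num), ENNReal.ofReal_ofNat]
        have e2 : (2 : ℝ≥0∞) ^ p = ENNReal.ofReal (2 ^ p) := by
          rw [← ENNReal.ofReal_rpow_of_pos (by norm_num), ENNReal.ofReal_ofNat]
        rw [e1, e2, ENNReal.ofReal_mul (by positivity), ENNReal.ofReal_mul (by norm_num),
          ENNReal.ofReal_mul hC.le, ENNReal.ofReal_ofNat]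
        ring

end Pool.Agent.W5h46.LS
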