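import Mathlib
import Pool.Agent.W5h46.LS.Par
set_option autoImplicit false

/-! Vector valued estimates: Poisson averages of nonnegative functions. -/

namespace Pool.Agent.W5h46.LS

open MeasureTheory Measure Set Metric Complex
open Pool.Agent.H789R2.FR (E sg sg_finite sg_ae T polar)
open scoped ENNReal RealInnerProductSpace

variable {n : ℕ}

/-- Poisson type average of a nonnegative function -/
noncomputable def PF (F : E n → ℝ≥0∞) (ρ : ℝ) (x : E n) : ℝ≥0∞ :=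
  ∫⁻ y, F y * ENNReal.ofReal (PK (lam n) ρ (⟪x, y⟫ : ℝ)) ∂(sg n)

lemma PK_m1 (x : E n) (ρ : ℝ) : Measurable fun y : E n =>
    ENNReal.ofReal (PK (lam n) ρ (⟪x, y⟫ : ℝ)) :=
  (PK_meas2.comp (measurable_const.prodMk measurable_id)).ennreal_ofReal

lemma PF_meas {F : E n → ℝ≥0∞} (hF : Measurable F) (ρ : ℝ) : Measurable (PF F ρ) := by
  have := sg_finite n
  have h : Measurable fun z : E n × E n =>
      F z.2 * ENNReal.ofReal (PK (lam n) ρ (⟪z.1, z.2⟫ : ℝ)) :=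
    (hF.comp measurable_snd).mul PK_meas2.ennreal_ofReal
  exact h.lintegral_prod_right'

lemma PF_sum (s : Finset ℕ) (F : ℕ → E n → ℝ≥0∞) (hF : ∀ i, Measurable (F i)) (ρ : ℝ) (x : E n) :
    PF (fun y => ∑ i ∈ s, F i y) ρ x = ∑ i ∈ s, PF (F i) ρ x := by
  unfold PF
  have h := lintegral_finsetSum (μ := sg n) s
    (f := fun i y => F i y * ENNReal.ofReal (PK (lam n) ρ (⟪x, y⟫ : ℝ)))
    fun i _ => (hF i).mul (PK_m1 x ρ)
  rw [← h]
  apply lintegral_congr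
  intro y
  rw [Finset.sum_mul]

lemma PF_Lp (n : ℕ) (hn : 2 ≤ n) (p : ℝ) (hp : 1 < p) : ∃ C : ℝ≥0∞, C ≠ ∞ ∧ ∀ ρ : ℝ, 0 ≤ ρ →
    ρ < 1 → ∀ F : E n → ℝ≥0∞, Measurable F →
    ∫⁻ x, (PF F ρ x) ^ p ∂(sg n) ≤ C * ∫⁻ x, F x ^ p ∂(sg n) := by
  have := sg_finite n
  obtain ⟨C, hC, hint⟩ := PK_int n hn
  refine ⟨(ENNReal.ofReal C) ^ (p - 1) * ENNReal.ofReal C, ?_, ?_⟩
  · exact ENNReal.mul_ne_top (ENNReal.rpow_ne_top_of_nonneg (by linarith) ENNReal.ofReal_ne_top)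
      ENNReal.ofReal_ne_top
  intro ρ h0 h1 F hF
  rw [mul_assoc]
  refine schur (sg n) (fun x y => ENNReal.ofReal (PK (lam n) ρ (⟪x, y⟫ : ℝ)))
    PK_meas2.ennreal_ofReal _ ?_ ?_ F hF p hp
  · filter_upwards [sg_ae n] with x hx
    exact hint ρ h0 h1 x hx
  · filter_upwards [sg_ae n] with y hy
    have e : ∀ x : E n, ENNReal.ofReal (PK (lam n) ρ (⟪x, y⟫ : ℝ)) =
        ENNReal.ofReal (PK (lam n) ρ (⟪y, x⟫ : ℝ)) := fun x => by rw [real_inner_comm]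
    simp_rw [e]
    exact hint ρ h0 h1 y hy

/-- Cauchy-Schwarz -/
lemma PF_sq (n : ℕ) (hn : 2 ≤ n) : ∃ C : ℝ, 0 < C ∧ ∀ ρ : ℝ, 0 ≤ ρ → ρ < 1 →
    ∀ F : E n → ℝ≥0∞, Measurable F → ∀ x : E n, ‖x‖ = 1 →
    (PF F ρ x) ^ (2 : ℝ) ≤ ENNReal.ofReal C * PF (fun y => F y ^ (2 : ℝ)) ρ x := by
  obtain ⟨C, hC, hint⟩ := PK_int n hn
  refine ⟨C, hC, fun ρ h0 h1 F hF x hx => ?_⟩
  have hk := PK_m1 x ρ
  set k : E n → ℝ≥0∞ := fun y => ENNReal.ofReal (PK (lam n) ρ (⟪x, y⟫ : ℝ)) with hkd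
  have e1 : PF F ρ x = ∫⁻ y, ((fun y => F y * k y ^ (1 / (2 : ℝ))) *
      (fun y => k y ^ (1 / (2 : ℝ)))) y ∂(sg n) := by
    unfold PF
    apply lintegral_congr
    intro y
    simp only [Pi.mul_apply]
    rw [mul_assoc, ← ENNReal.rpow_add_of_nonneg _ _ (by positivity) (by positivity)]
    norm_num [hkd]
  have h2 := ENNReal.lintegral_mul_le_Lp_mul_Lq (sg n) Real.HolderConjugate.two_two
    (f := fun y => F y * k y ^ (1 / (2 : ℝ))) (g := fun y => k y ^ (1 / (2 : ℝ)))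
    ((hF.mul (hk.pow_const _)).aemeasurable) ((hk.pow_const _).aemeasurable)
  rw [← e1] at h2
  have e3 : ∀ y, (F y * k y ^ (1 / (2 : ℝ))) ^ (2 : ℝ) = F y ^ (2 : ℝ) * k y := by
    intro y
    rw [ENNReal.mul_rpow_of_nonneg _ _ (by norm_num), ← ENNReal.rpow_mul,
      one_div_mul_cancel (by norm_num), ENNReal.rpow_one]
  have e4 : ∀ y, (k y ^ (1 / (2 : ℝ))) ^ (2 : ℝ) = k y := by
    intro y
    rw [← ENNReal.rpow_mul, one_div_mul_cancel (by norm_num), ENNReal.rpow_one]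
  simp only [e3, e4] at h2
  have h5 := ENNReal.rpow_le_rpow h2 (show (0 : ℝ) ≤ 2 by norm_num)
  rw [ENNReal.mul_rpow_of_nonneg _ _ (by norm_num), ← ENNReal.rpow_mul, ← ENNReal.rpow_mul,
    one_div_mul_cancel (by norm_num), ENNReal.rpow_one, ENNReal.rpow_one] at h5
  refine h5.trans ?_
  rw [mul_comm]
  exact mul_le_mul' (hint ρ h0 h1 x hx) le_rfl

/-- comparison of Poisson kernels with comparable radii -/
lemma PK_comp {x y : E n} (hx : ‖x‖ = 1) (hy : ‖y‖ = 1) {a b : ℝ} (ha : 0 < a)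
    (ha1 : a ≤ 1) (hab : a ≤ b) (hb : b ≤ 2 * a) (hb1 : b ≤ 1) :
    PK (lam n) (1 - a) (⟪x, y⟫ : ℝ) ≤ 2 * 34 ^ n * PK (lam n) (1 - b) (⟪x, y⟫ : ℝ) := by
  have hb0 : 0 < b := by linarith
  set d : ℝ := ‖x - y‖ with hd
  have hd0 : 0 ≤ d := norm_nonneg _
  have h2 : d ^ 2 = 2 - 2 * (⟪x, y⟫ : ℝ) := by
    rw [hd, norm_sub_sq_real, hx, hy]; ring
  set κ : ℝ := Real.sqrt (a ^ 2 + d ^ 2) with hκ
  have hκ0 : 0 < κ := Real.sqrt_pos.mpr (by positivity)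
  have hκ2 : κ ^ 2 = a ^ 2 + d ^ 2 := Real.sq_sqrt (by positivity)
  have h1 := PK_le hx hy (ρ := 1 - a) (by linarith) (by linarith) hκ0 (by
    rw [hκ2]; ring_nf; rfl)
  have hq0 : 0 < 1 - 2 * (⟪x, y⟫ : ℝ) * (1 - b) + (1 - b) ^ 2 := by
    have := quad_low hx hy (ρ := 1 - b) (by linarith) (by linarith)
    have h3 : 0 < ((1 - (1 - b)) ^ 2 + ‖x - y‖ ^ 2) / 17 := by
      have : (1 - (1 - b)) ^ 2 = b ^ 2 := by ring
      rw [this]
      positivity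
    linarith
  have hq : 1 - 2 * (⟪x, y⟫ : ℝ) * (1 - b) + (1 - b) ^ 2 ≤ (2 * κ) ^ 2 := by
    rw [mul_pow, hκ2]
    have h4 : 1 - 2 * (⟪x, y⟫ : ℝ) * (1 - b) + (1 - b) ^ 2 = b ^ 2 + (1 - b) * d ^ 2 := by
      rw [h2]; ring
    rw [h4]
    nlinarith [sq_nonneg d, mul_nonneg hb0.le (sq_nonneg d)]
  have h5 : (1 - 2 * (⟪x, y⟫ : ℝ) * (1 - b) + (1 - b) ^ 2) ^ ((n : ℝ) / 2) ≤ (2 * κ) ^ n := by
    calc (1 - 2 * (⟪x, y⟫ : ℝ) * (1 - b) + (1 - b) ^ 2) ^ ((n : ℝ) / 2)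
        ≤ ((2 * κ) ^ 2) ^ ((n : ℝ) / 2) := Real.rpow_le_rpow hq0.le hq (by positivity)
      _ = _ := by
        rw [← Real.rpow_natCast (2 * κ) 2, ← Real.rpow_mul (by positivity),
          ← Real.rpow_natCast (2 * κ) n]
        congr 1
        push_cast; ring
  have h6 : a * ((2 * κ) ^ n)⁻¹ ≤ PK (lam n) (1 - b) (⟪x, y⟫ : ℝ) := by
    unfold PK
    have hl : lam n + 1 = (n : ℝ) / 2 := by unfold lam; ring
    rw [hl, ← div_eq_mul_inv]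
    apply div_le_div₀ _ _ (Real.rpow_pos_of_pos hq0 _) h5
    · nlinarith
    · nlinarith
  calc PK (lam n) (1 - a) (⟪x, y⟫ : ℝ) ≤ 2 * (1 - (1 - a)) * 17 ^ n * (κ⁻¹) ^ n := h1
    _ = 2 * 34 ^ n * (a * ((2 * κ) ^ n)⁻¹) := by
        have : (34 : ℝ) = 17 * 2 := by norm_num
        rw [this, mul_pow, mul_pow, inv_pow]
        have h2n : (2 : ℝ) ^ n ≠ 0 := by positivity
        field_simp
        ring
    _ ≤ _ := mul_le_mul_of_nonneg_left h6 (by positivity)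

/-- comparison with dyadic radii -/
lemma PF_dyad (F : E n → ℝ≥0∞) (x : E n) (hx : ‖x‖ = 1) (k : ℕ) :
    PF F ((k : ℝ) / (k + 1)) x ≤ ENNReal.ofReal (2 * 34 ^ n) *
      PF F (1 - (1 / 2) ^ (Nat.log 2 (k + 1))) x := by
  unfold PF
  rw [← lintegral_const_mul' _ _ ENNReal.ofReal_ne_top]
  apply lintegral_mono_ae
  filter_upwards [sg_ae n] with y hy
  have e : (k : ℝ) / (k + 1) = 1 - 1 / ((k : ℝ) + 1) := by
    have : (k : ℝ) + 1 ≠ 0 := by positivity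
    field_simp
    ring
  have hl1 : (2 : ℝ) ^ (Nat.log 2 (k + 1)) ≤ (k : ℝ) + 1 := by
    have := Nat.pow_log_le_self 2 (show k + 1 ≠ 0 by omega)
    exact_mod_cast this
  have hl2 : (k : ℝ) + 1 ≤ 2 * (2 : ℝ) ^ (Nat.log 2 (k + 1)) := by
    have := (Nat.lt_pow_succ_log_self (show 1 < 2 by norm_num) (k + 1)).le
    rw [Nat.pow_succ] at this
    have h3 : ((k + 1 : ℕ) : ℝ) ≤ ((2 ^ (Nat.log 2 (k + 1)) * 2 : ℕ) : ℝ) := by exact_mod_cast this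
    push_cast at h3
    linarith
  have hp : (0 : ℝ) < 2 ^ (Nat.log 2 (k + 1)) := by positivity
  have h1 := PK_comp hx hy (a := 1 / ((k : ℝ) + 1)) (b := (1 / 2) ^ (Nat.log 2 (k + 1)))
    (by positivity) (by
      rw [div_le_one (by positivity)]
      have : (0 : ℝ) ≤ k := Nat.cast_nonneg k
      linarith) (by
      rw [one_div_pow]
      exact one_div_le_one_div_of_le hp hl1) (by
      rw [one_div_pow, mul_one_div, div_le_div_iff₀ hp (by positivity)]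
      linarith) (pow_le_one₀ (by norm_num) (by norm_num))
  rw [e, mul_left_comm, ← ENNReal.ofReal_mul (by positivity)]
  exact mul_le_mul' le_rfl (ENNReal.ofReal_le_ofReal h1)

end Pool.Agent.W5h46.LS
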