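import Mathlib
import Pool.Agent.W5h46.LS.V1
set_option autoImplicit false

/-! Vector valued estimates: the square function of the projections. -/

namespace Pool.Agent.W5h46.LS

open MeasureTheory Measure Set Metric Complex
open Pool.Agent.H789R2.FR (E sg sg_finite sg_ae T polar)
open scoped ENNReal RealInnerProductSpace

variable {n : ℕ}

/-- the square of the square function -/
noncomputable def SQ (s : Finset ℕ) (f : ℕ → E n → ℂ) (x : E n) : ℝ≥0∞ :=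
  ∑ i ∈ s, ‖f i x‖ₑ ^ (2 : ℝ)

lemma SQ_meas (s : Finset ℕ) {f : ℕ → E n → ℂ} (hf : ∀ i, Measurable (f i)) :
    Measurable (SQ s f) :=
  Finset.measurable_fun_sum _ fun i _ => (hf i).enorm.pow_const _

/-- `g` has a gap spectrum -/
def GapD (c δ : ℝ) (g : E n → ℂ) : Prop :=
  ∃ S : Set ℕ, GapSet c δ S ∧ ∀ k, k ∉ S → ∀ x, ‖x‖ = 1 → Yk g k x = 0

/-- the constant -/
noncomputable def AL (n : ℕ) (C c δ : ℝ) (L : ℝ) : ℝ :=
  ((2 + 2 / (δ * c)) * L ^ δ) *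
    (C * ((1 + 8 * ((n : ℝ) + 3) / c) * L ^ δ) ^ (n + 1)) ^ 2

open Classical in
theorem Y_sq (hn : 3 ≤ n) : ∃ C : ℝ, 0 < C ∧ ∀ (c δ : ℝ), 0 < c → c ≤ 1 → 0 < δ → δ ≤ 1 →
    ∀ g : E n → ℂ, Measurable g → Integrable g (sg n) → GapD c δ g → ∀ (L J : ℕ), 1 ≤ L →
    L < 2 ^ J → ∀ x : E n, ‖x‖ = 1 →
    ∑ k ∈ Finset.range L, ‖Yk g k x‖ₑ ^ (2 : ℝ) ≤ ENNReal.ofReal (AL n C c δ L) *
      ∑ j ∈ Finset.range J, PF (fun y => ‖g y‖ₑ ^ (2 : ℝ)) (1 - (1 / 2) ^ j) x := by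
  obtain ⟨C1, hC1, hext⟩ := Yk_extract (n := n) hn
  obtain ⟨C2, hC2, hsq⟩ := PF_sq n (by omega)
  refine ⟨C1 * (2 * 34 ^ n) * Real.sqrt C2, by positivity, ?_⟩
  intro c δ hc hc1 hδ hδ1 g hg hint hgap L J hL hLJ x hx
  obtain ⟨S, hS, hvan⟩ := hgap
  set B : ℝ := 1 + 8 * ((n : ℝ) + 3) / c with hB
  have hB0 : 0 < B := by positivity
  set X : ℝ := C1 * (B * (L : ℝ) ^ δ) ^ (n + 1) with hX
  have hL0 : (0 : ℝ) < L := by exact_mod_cast hL
  have hLd : 0 < (L : ℝ) ^ δ := Real.rpow_pos_of_pos hL0 _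
  have hX0 : 0 < X := by positivity
  set H : ℝ≥0∞ := ∑ j ∈ Finset.range J, PF (fun y => ‖g y‖ₑ ^ (2 : ℝ)) (1 - (1 / 2) ^ j) x with hH
  have hk : ∀ k ∈ (Finset.range L).filter (fun k => k ∈ S), ‖Yk g k x‖ₑ ^ (2 : ℝ) ≤
      ENNReal.ofReal ((X * (2 * 34 ^ n)) ^ 2 * C2) * H := by
    intro k hk
    rw [Finset.mem_filter, Finset.mem_range] at hk
    obtain ⟨M, hM, hgap, hMb⟩ := gap_width hc hc1 hδ hδ1 hS (n + 1) hk.2
    have hN : ((n + 1 : ℕ) : ℝ) + 2 = (n : ℝ) + 3 := by push_cast; ring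
    rw [hN] at hMb
    have h2 := hext g hint x hx k M hM (fun l hl hlk => hgap l (by
      by_contra hlS
      exact hl (hvan l hlS x hx)) hlk)
    have hkL : ((k : ℝ) + 1) ^ δ ≤ (L : ℝ) ^ δ := by
      apply Real.rpow_le_rpow (by positivity) _ hδ.le
      exact_mod_cast hk.1
    have h3 : ‖Yk g k x‖ₑ ≤ ENNReal.ofReal X * Pg g ((k : ℝ) / (k + 1)) x := by
      refine h2.trans ?_
      refine mul_le_mul' (ENNReal.ofReal_le_ofReal ?_) le_rfl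
      rw [hX]
      apply mul_le_mul_of_nonneg_left _ hC1.le
      apply pow_le_pow_left₀ (by positivity)
      refine hMb.trans ?_
      exact mul_le_mul_of_nonneg_left hkL hB0.le
    have h4 : Pg g ((k : ℝ) / (k + 1)) x ≤ ENNReal.ofReal (2 * 34 ^ n) *
        PF (fun y => ‖g y‖ₑ) (1 - (1 / 2) ^ (Nat.log 2 (k + 1))) x :=
      PF_dyad (fun y => ‖g y‖ₑ) x hx k
    have hρ0 : (0 : ℝ) ≤ 1 - (1 / 2) ^ (Nat.log 2 (k + 1)) := by
      have := pow_le_one₀ (n := Nat.log 2 (k + 1)) (show (0 : ℝ) ≤ 1 / 2 by norm_num)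
        (by norm_num)
      linarith
    have hρ1 : 1 - (1 / 2 : ℝ) ^ (Nat.log 2 (k + 1)) < 1 := by
      have : (0 : ℝ) < (1 / 2) ^ (Nat.log 2 (k + 1)) := by positivity
      linarith
    have h5 := hsq _ hρ0 hρ1 (fun y => ‖g y‖ₑ) hg.enorm x hx
    have hj : Nat.log 2 (k + 1) ∈ Finset.range J := by
      rw [Finset.mem_range]
      apply Nat.log_lt_of_lt_pow (by omega)
      omega
    have h6 : PF (fun y => ‖g y‖ₑ ^ (2 : ℝ)) (1 - (1 / 2) ^ (Nat.log 2 (k + 1))) x ≤ H :=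
      Finset.single_le_sum
        (f := fun j : ℕ => PF (fun y => ‖g y‖ₑ ^ (2 : ℝ)) (1 - (1 / 2) ^ j) x)
        (fun _ _ => zero_le) hj
    calc ‖Yk g k x‖ₑ ^ (2 : ℝ)
        ≤ (ENNReal.ofReal X * (ENNReal.ofReal (2 * 34 ^ n) *
          PF (fun y => ‖g y‖ₑ) (1 - (1 / 2) ^ (Nat.log 2 (k + 1))) x)) ^ (2 : ℝ) := by
          apply ENNReal.rpow_le_rpow _ (by norm_num)
          exact h3.trans (mul_le_mul' le_rfl h4)
      _ = ENNReal.ofReal ((X * (2 * 34 ^ n)) ^ 2) *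
          (PF (fun y => ‖g y‖ₑ) (1 - (1 / 2) ^ (Nat.log 2 (k + 1))) x) ^ (2 : ℝ) := by
          rw [← mul_assoc, ← ENNReal.ofReal_mul hX0.le, ENNReal.mul_rpow_of_nonneg _ _ (by norm_num),
            ENNReal.ofReal_rpow_of_nonneg (by positivity) (by norm_num)]
          congr 2
          exact Real.rpow_two _
      _ ≤ ENNReal.ofReal ((X * (2 * 34 ^ n)) ^ 2) * (ENNReal.ofReal C2 * H) :=
          mul_le_mul' le_rfl (h5.trans (mul_le_mul' le_rfl h6))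
      _ = _ := by
          rw [← mul_assoc, ← ENNReal.ofReal_mul (by positivity)]
  have h7 : ∑ k ∈ Finset.range L, ‖Yk g k x‖ₑ ^ (2 : ℝ) =
      ∑ k ∈ (Finset.range L).filter (fun k => k ∈ S), ‖Yk g k x‖ₑ ^ (2 : ℝ) := by
    symm
    apply Finset.sum_subset (Finset.filter_subset _ _)
    intro k hk1 hk2
    rw [Finset.mem_filter] at hk2
    have : k ∉ S := fun h => hk2 ⟨hk1, h⟩
    rw [hvan k this x hx, enorm_zero, ENNReal.zero_rpow_of_pos (by norm_num)]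
  rw [h7]
  refine (Finset.sum_le_sum hk).trans ?_
  rw [Finset.sum_const, nsmul_eq_mul, ← mul_assoc]
  refine mul_le_mul' ?_ le_rfl
  have h8 := gap_count hc hc1 hδ hS L hL
  rw [← ENNReal.ofReal_natCast, ← ENNReal.ofReal_mul (Nat.cast_nonneg _)]
  apply ENNReal.ofReal_le_ofReal
  unfold AL
  have e : (C1 * (2 * 34 ^ n) * Real.sqrt C2 * (B * (L : ℝ) ^ δ) ^ (n + 1)) ^ 2 =
      (X * (2 * 34 ^ n)) ^ 2 * C2 := by
    rw [hX]
    have := Real.sq_sqrt hC2.le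
    calc _ = (C1 * (B * (L : ℝ) ^ δ) ^ (n + 1) * (2 * 34 ^ n)) ^ 2 * (Real.sqrt C2) ^ 2 := by ring
      _ = _ := by rw [this]
  rw [e]
  exact mul_le_mul_of_nonneg_right h8 (by positivity)

theorem V_sq (hn : 3 ≤ n) : ∃ C : ℝ, 0 < C ∧ ∀ (c δ : ℝ), 0 < c → c ≤ 1 → 0 < δ → δ ≤ 1 →
    ∀ (s : Finset ℕ) (g : ℕ → E n → ℂ), (∀ i, Measurable (g i)) →
    (∀ i ∈ s, Integrable (g i) (sg n)) → (∀ i ∈ s, GapD c δ (g i)) → ∀ (L J : ℕ), 1 ≤ L →
    L < 2 ^ J → ∀ x : E n, ‖x‖ = 1 →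
    ∑ k ∈ Finset.range L, SQ s (fun i => Yk (g i) k) x ≤ ENNReal.ofReal (AL n C c δ L) *
      ∑ j ∈ Finset.range J, PF (SQ s g) (1 - (1 / 2) ^ j) x := by
  obtain ⟨C, hC, h⟩ := Y_sq (n := n) hn
  refine ⟨C, hC, fun c δ hc hc1 hδ hδ1 s g hg hint hgap L J hL hLJ x hx => ?_⟩
  have h1 : ∀ j, PF (SQ s g) (1 - (1 / 2) ^ j) x =
      ∑ i ∈ s, PF (fun y => ‖g i y‖ₑ ^ (2 : ℝ)) (1 - (1 / 2) ^ j) x := fun j =>
    PF_sum s (fun i y => ‖g i y‖ₑ ^ (2 : ℝ)) (fun i => (hg i).enorm.pow_const _) _ x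
  simp_rw [h1]
  unfold SQ
  rw [Finset.sum_comm, Finset.sum_comm (s := Finset.range J), Finset.mul_sum]
  apply Finset.sum_le_sum
  intro i hi
  exact h c δ hc hc1 hδ hδ1 (g i) (hg i) (hint i hi) (hgap i hi) L J hL hLJ x hx

lemma sum_pow_le (J : ℕ) (a : ℕ → ℝ≥0∞) {q : ℝ} (hq : 1 ≤ q) :
    (∑ j ∈ Finset.range J, a j) ^ q ≤ (J : ℝ≥0∞) ^ (q - 1) * ∑ j ∈ Finset.range J, a j ^ q := by
  have := ENNReal.rpow_sum_le_const_mul_sum_rpow (s := Finset.range J) (f := a) hq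
  rwa [Finset.card_range] at this

/-- the `L^(2q)` bound of the square function of the projections -/
theorem V_Lq (hn : 3 ≤ n) (q : ℝ) (hq : 1 < q) : ∃ C D : ℝ, 0 < C ∧ 0 < D ∧
    ∀ (c δ : ℝ), 0 < c → c ≤ 1 → 0 < δ → δ ≤ 1 →
    ∀ (s : Finset ℕ) (g : ℕ → E n → ℂ), (∀ i, Measurable (g i)) →
    (∀ i ∈ s, Integrable (g i) (sg n)) → (∀ i ∈ s, GapD c δ (g i)) → ∀ (L J : ℕ), 1 ≤ L →
    L < 2 ^ J →
    ∫⁻ x, (∑ k ∈ Finset.range L, SQ s (fun i => Yk (g i) k) x) ^ q ∂(sg n) ≤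
      ENNReal.ofReal ((AL n C c δ L) ^ q * (J : ℝ) ^ q * D) *
        ∫⁻ x, (SQ s g x) ^ q ∂(sg n) := by
  obtain ⟨C, hC, h⟩ := V_sq (n := n) hn
  obtain ⟨D, hD, hP⟩ := PF_Lp n (by omega) q hq
  refine ⟨C, D.toReal + 1, hC, by positivity, ?_⟩
  intro c δ hc hc1 hδ hδ1 s g hg hint hgap L J hL hLJ
  have hq0 : 0 < q := by linarith
  have hL0 : (0 : ℝ) < L := by exact_mod_cast hL
  have hLd : 0 < (L : ℝ) ^ δ := Real.rpow_pos_of_pos hL0 _
  have hA0 : 0 ≤ AL n C c δ L := by unfold AL; positivity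
  have hG := SQ_meas s hg
  set N : ℝ≥0∞ := ∫⁻ x, (SQ s g x) ^ q ∂(sg n) with hN
  have hD' : D ≤ ENNReal.ofReal (D.toReal + 1) := by
    calc D = ENNReal.ofReal D.toReal := (ENNReal.ofReal_toReal hD).symm
      _ ≤ _ := ENNReal.ofReal_le_ofReal (by linarith)
  have hm : ∀ j : ℕ, Measurable fun x => (PF (SQ s g) (1 - (1 / 2) ^ j) x) ^ q := fun j =>
    (PF_meas hG _).pow_const _
  calc ∫⁻ x, (∑ k ∈ Finset.range L, SQ s (fun i => Yk (g i) k) x) ^ q ∂(sg n)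
      ≤ ∫⁻ x, ENNReal.ofReal ((AL n C c δ L) ^ q) * ((J : ℝ≥0∞) ^ (q - 1) *
        ∑ j ∈ Finset.range J, (PF (SQ s g) (1 - (1 / 2) ^ j) x) ^ q) ∂(sg n) := by
        apply lintegral_mono_ae
        filter_upwards [sg_ae n] with x hx
        calc (∑ k ∈ Finset.range L, SQ s (fun i => Yk (g i) k) x) ^ q
            ≤ (ENNReal.ofReal (AL n C c δ L) *
              ∑ j ∈ Finset.range J, PF (SQ s g) (1 - (1 / 2) ^ j) x) ^ q :=
              ENNReal.rpow_le_rpow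
                (h c δ hc hc1 hδ hδ1 s g hg hint hgap L J hL hLJ x hx) hq0.le
          _ ≤ _ := by
              rw [ENNReal.mul_rpow_of_nonneg _ _ hq0.le, ENNReal.ofReal_rpow_of_nonneg hA0 hq0.le]
              exact mul_le_mul' le_rfl (sum_pow_le J _ hq.le)
    _ = ENNReal.ofReal ((AL n C c δ L) ^ q) * ((J : ℝ≥0∞) ^ (q - 1) *
        ∑ j ∈ Finset.range J, ∫⁻ x, (PF (SQ s g) (1 - (1 / 2) ^ j) x) ^ q ∂(sg n)) := by
        rw [lintegral_const_mul' _ _ ENNReal.ofReal_ne_top, lintegral_const_mul' _ _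
          (ENNReal.rpow_ne_top_of_nonneg (by linarith) (ENNReal.natCast_ne_top _)),
          lintegral_finsetSum _ fun j _ => hm j]
    _ ≤ ENNReal.ofReal ((AL n C c δ L) ^ q) * ((J : ℝ≥0∞) ^ (q - 1) *
        ∑ j ∈ Finset.range J, ENNReal.ofReal (D.toReal + 1) * N) := by
        gcongr with j hj
        refine (hP _ ?_ ?_ _ hG).trans (mul_le_mul' hD' le_rfl)
        · have := pow_le_one₀ (n := j) (show (0 : ℝ) ≤ 1 / 2 by norm_num) (by norm_num)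
          linarith
        · have : (0 : ℝ) < (1 / 2) ^ j := by positivity
          linarith
    _ = _ := by
        rw [Finset.sum_const, nsmul_eq_mul, Finset.card_range]
        have e1 : (J : ℝ≥0∞) ^ (q - 1) * ((J : ℝ≥0∞) * (ENNReal.ofReal (D.toReal + 1) * N)) =
            ENNReal.ofReal ((J : ℝ) ^ q) * (ENNReal.ofReal (D.toReal + 1) * N) := by
          rw [← mul_assoc]
          congr 1
          rw [← ENNReal.ofReal_rpow_of_nonneg (Nat.cast_nonneg _) hq0.le, ENNReal.ofReal_natCast]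
          calc (J : ℝ≥0∞) ^ (q - 1) * (J : ℝ≥0∞) = (J : ℝ≥0∞) ^ (q - 1) * (J : ℝ≥0∞) ^ (1 : ℝ) := by
                rw [ENNReal.rpow_one]
            _ = _ := by
                rw [← ENNReal.rpow_add_of_nonneg _ _ (by linarith) (by norm_num)]
                congr 1
                ring
        rw [e1, ← mul_assoc, ← mul_assoc, ← ENNReal.ofReal_mul (by positivity),
          ← ENNReal.ofReal_mul (by positivity)]

end Pool.Agent.W5h46.LS
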