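import Mathlib
import Pool.Agent.W5h46.LS.V2
set_option autoImplicit false

/-! Vector valued estimates: one shell. -/

namespace Pool.Agent.W5h46.LS

open MeasureTheory Measure Set Metric Complex
open Pool.Agent.H789R2.FR (E sg sg_finite sg_ae T polar)
open Pool.Agent.H789R2.FR.L2 (measurable_T)
open scoped ENNReal RealInnerProductSpace

variable {n : ℕ}

/-- weighted Jensen inequality -/
lemma jensen_w (s : Finset ℕ) (w f : ℕ → ℝ≥0∞) {q : ℝ} (hq : 1 ≤ q) :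
    (∑ k ∈ s, w k * f k) ^ q ≤ (∑ k ∈ s, w k) ^ (q - 1) * ∑ k ∈ s, w k * f k ^ q := by
  have hq0 : 0 < q := by linarith
  have h := ENNReal.rpow_le_rpow (ENNReal.inner_le_weight_mul_Lp_of_nonneg s hq w f) hq0.le
  refine h.trans (le_of_eq ?_)
  rw [ENNReal.mul_rpow_of_nonneg _ _ hq0.le, ← ENNReal.rpow_mul, ← ENNReal.rpow_mul,
    inv_mul_cancel₀ hq0.ne', ENNReal.rpow_one]
  congr 2
  field_simp

lemma two_rpow_sub : (2 : ℝ≥0∞) ^ ((2 : ℝ) - 1) = 2 := by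
  norm_num

/-- the sum of the squares of the `L^1` norms -/
noncomputable def G1 (s : Finset ℕ) (g : ℕ → E n → ℂ) : ℝ≥0∞ :=
  ∑ i ∈ s, (∫⁻ y, ‖g i y‖ₑ ∂(sg n)) ^ (2 : ℝ)

lemma lint_sq {α : Type*} [MeasurableSpace α] (μ : Measure α) {f : α → ℝ≥0∞}
    (hf : Measurable f) : (∫⁻ x, f x ∂μ) ^ (2 : ℝ) ≤ μ univ * ∫⁻ x, f x ^ (2 : ℝ) ∂μ := by
  have h := holder1 μ hf (p := 2) (by norm_num)
  have e : (2 : ℝ) - 1 = 1 := by norm_num
  rwa [e, ENNReal.rpow_one] at h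

lemma G1_le (s : Finset ℕ) {g : ℕ → E n → ℂ} (hg : ∀ i, Measurable (g i)) :
    G1 s g ≤ (sg n) univ * ∫⁻ x, SQ s g x ∂(sg n) := by
  unfold G1 SQ
  rw [lintegral_finsetSum _ fun i _ => (hg i).enorm.pow_const _, Finset.mul_sum]
  exact Finset.sum_le_sum fun i _ => lint_sq _ (hg i).enorm

lemma G1_pow (s : Finset ℕ) {g : ℕ → E n → ℂ} (hg : ∀ i, Measurable (g i)) {q : ℝ} (hq : 1 < q) :
    (G1 s g) ^ q ≤ (sg n) univ ^ q * ((sg n) univ ^ (q - 1) * ∫⁻ x, (SQ s g x) ^ q ∂(sg n)) := by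
  have hq0 : 0 < q := by linarith
  refine (ENNReal.rpow_le_rpow (G1_le s hg) hq0.le).trans ?_
  rw [ENNReal.mul_rpow_of_nonneg _ _ hq0.le]
  exact mul_le_mul' le_rfl (holder1 _ (SQ_meas s hg) hq)

open Classical in
/-- the pointwise bound on a shell -/
theorem SQ_point (hn : 3 ≤ n) : ∃ D : ℝ, 0 < D ∧ ∀ (c δ : ℝ), 0 < c → c ≤ 1 → 0 < δ →
    ∀ (s : Finset ℕ) (g : ℕ → E n → ℂ),
    (∀ i ∈ s, Integrable (g i) (sg n)) → (∀ i ∈ s, GapD c δ (g i)) →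
    ∀ (w : E n), ‖w‖ = 1 → ∀ (r : ℝ) (L : ℕ), 1 ≤ L → 0 ≤ r → 8 * r ≤ L →
    SQ s (fun i => T (g i)) (r • w) ≤
      ENNReal.ofReal (2 * ((2 + 2 / (δ * c)) * (L : ℝ) ^ δ)) *
        (∑ k ∈ Finset.range L, SQ s (fun i => Yk (g i) k) w * ‖mu n k r‖ₑ ^ (2 : ℝ)) +
        2 * ENNReal.ofReal ((D * (1 / 2) ^ L) ^ 2) * G1 s g := by
  obtain ⟨D, hD, hpt⟩ := T_point (n := n) hn
  refine ⟨D, hD, ?_⟩
  intro c δ hc hc1 hδ s g hint hgap w hw r L hL1 hr hL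
  set u : ℝ := (2 + 2 / (δ * c)) * (L : ℝ) ^ δ with hu
  have hL0 : (0 : ℝ) < L := by exact_mod_cast hL1
  have hLd : 0 < (L : ℝ) ^ δ := Real.rpow_pos_of_pos hL0 _
  have hu0 : 0 < u := by positivity
  have key : ∀ i ∈ s, ‖T (g i) (r • w)‖ₑ ^ (2 : ℝ) ≤
      ENNReal.ofReal (2 * u) * (∑ k ∈ Finset.range L, ‖Yk (g i) k w‖ₑ ^ (2 : ℝ) *
        ‖mu n k r‖ₑ ^ (2 : ℝ)) + 2 * ENNReal.ofReal ((D * (1 / 2) ^ L) ^ 2) *
          (∫⁻ y, ‖g i y‖ₑ ∂(sg n)) ^ (2 : ℝ) := by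
    intro i hi
    obtain ⟨S, hS, hvan⟩ := hgap i hi
    set F := (Finset.range L).filter (fun k => k ∈ S) with hF
    have hcard : (F.card : ℝ≥0∞) ≤ ENNReal.ofReal u := by
      have h1 := gap_count hc hc1 hδ hS L hL1
      rw [← ENNReal.ofReal_natCast]
      exact ENNReal.ofReal_le_ofReal h1
    have h1 := hpt S (g i) (hint i hi) hvan w hw r L hr hL
    refine (ENNReal.rpow_le_rpow h1 (by norm_num)).trans ?_
    refine (ENNReal.rpow_add_le_mul_rpow_add_rpow _ _ (by norm_num)).trans ?_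
    rw [two_rpow_sub, mul_add]
    apply add_le_add
    · have h2 : (∑ k ∈ F, ‖mu n k r‖ₑ * ‖Yk (g i) k w‖ₑ) ^ (2 : ℝ) ≤
          (F.card : ℝ≥0∞) * ∑ k ∈ F, (‖mu n k r‖ₑ * ‖Yk (g i) k w‖ₑ) ^ (2 : ℝ) := by
        have h3 := ENNReal.rpow_sum_le_const_mul_sum_rpow (s := F)
          (f := fun k => ‖mu n k r‖ₑ * ‖Yk (g i) k w‖ₑ) (p := 2) (by norm_num)
        have e : (2 : ℝ) - 1 = 1 := by norm_num
        rwa [e, ENNReal.rpow_one] at h3
      have h4 : ∑ k ∈ F, (‖mu n k r‖ₑ * ‖Yk (g i) k w‖ₑ) ^ (2 : ℝ) ≤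
          ∑ k ∈ Finset.range L, ‖Yk (g i) k w‖ₑ ^ (2 : ℝ) * ‖mu n k r‖ₑ ^ (2 : ℝ) := by
        refine (Finset.sum_le_sum_of_subset (Finset.filter_subset _ _)).trans (le_of_eq ?_)
        apply Finset.sum_congr rfl
        intro k _
        rw [ENNReal.mul_rpow_of_nonneg _ _ (by norm_num), mul_comm]
      calc 2 * (∑ k ∈ F, ‖mu n k r‖ₑ * ‖Yk (g i) k w‖ₑ) ^ (2 : ℝ)
          ≤ 2 * (ENNReal.ofReal u * ∑ k ∈ Finset.range L, ‖Yk (g i) k w‖ₑ ^ (2 : ℝ) *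
            ‖mu n k r‖ₑ ^ (2 : ℝ)) :=
            mul_le_mul' le_rfl (h2.trans (mul_le_mul' hcard h4))
        _ = _ := by
            rw [ENNReal.ofReal_mul (p := 2) (q := u) (by norm_num), ENNReal.ofReal_ofNat, mul_assoc]
    · rw [ENNReal.mul_rpow_of_nonneg _ _ (by norm_num), ENNReal.ofReal_rpow_of_nonneg
        (by positivity) (by norm_num), Real.rpow_two, mul_assoc]
  unfold SQ G1
  refine (Finset.sum_le_sum key).trans (le_of_eq ?_)
  rw [Finset.sum_add_distrib, ← Finset.mul_sum, ← Finset.mul_sum, Finset.sum_comm]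
  congr 2
  apply Finset.sum_congr rfl
  intro k _
  rw [Finset.sum_mul]

/-- structure of the estimate on one shell -/
lemma shell_vec (hn : 3 ≤ n) (p : ℝ) (hp2 : 2 < p) : ∃ D : ℝ, 0 < D ∧
    ∀ (c δ : ℝ), 0 < c → c ≤ 1 → 0 < δ → ∀ (s : Finset ℕ) (g : ℕ → E n → ℂ),
    (∀ i, Measurable (g i)) → (∀ i ∈ s, Integrable (g i) (sg n)) →
    (∀ i ∈ s, GapD c δ (g i)) → ∀ (j : ℕ) (I0 : ℝ≥0∞),
    (∀ k, Ik n k p (2 ^ j) ≤ I0) →
    ∫⁻ x in {x : E n | ‖x‖ ∈ Ioc ((2 : ℝ) ^ j) (2 * 2 ^ j)}, SQ s (fun i => T (g i)) x ^ (p / 2) ≤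
      (2 : ℝ≥0∞) ^ (p / 2 - 1) * (ENNReal.ofReal (2 * ((2 + 2 / (δ * c)) *
        ((16 * 2 ^ j : ℕ) : ℝ) ^ δ)) ^ (p / 2) * (I0 *
          ∫⁻ w, (∑ k ∈ Finset.range (16 * 2 ^ j), SQ s (fun i => Yk (g i) k) w) ^ (p / 2) ∂(sg n))) +
      (2 : ℝ≥0∞) ^ (p / 2 - 1) * (2 * ENNReal.ofReal ((D * (1 / 2) ^ (16 * 2 ^ j)) ^ 2) *
        G1 s g) ^ (p / 2) * (ENNReal.ofReal ((2 * (2 : ℝ) ^ j) ^ n) * (sg n) univ) := by
  obtain ⟨D, hD, hpt⟩ := SQ_point (n := n) hn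
  refine ⟨D, hD, fun c δ hc hc1 hδ s g hg hint hgap j I0 hI => ?_⟩
  have hsf := sg_finite n
  have hp0 : 0 < p := by linarith
  set q : ℝ := p / 2 with hq
  have hq1 : 1 < q := by rw [hq]; linarith
  have hq0 : 0 < q := by linarith
  set R : ℝ := (2 : ℝ) ^ j with hR
  have hR1 : 1 ≤ R := one_le_pow₀ (by norm_num)
  have hR0 : 0 < R := by linarith
  set L : ℕ := 16 * 2 ^ j with hL
  have hL1 : 1 ≤ L := by
    have : 1 ≤ 2 ^ j := Nat.one_le_two_pow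
    omega
  have hLR : (L : ℝ) = 16 * R := by rw [hL, hR]; push_cast; ring
  set U : ℝ≥0∞ := ENNReal.ofReal (2 * ((2 + 2 / (δ * c)) * (L : ℝ) ^ δ)) with hU
  set Q : ℝ≥0∞ := 2 * ENNReal.ofReal ((D * (1 / 2) ^ L) ^ 2) * G1 s g with hQ
  set V : ℕ → E n → ℝ≥0∞ := fun k w => SQ s (fun i => Yk (g i) k) w with hV
  have hVm : ∀ k, Measurable (V k) := fun k => SQ_meas s fun i => Yk_meas (hg i) k
  have hTm : Measurable (fun x => SQ s (fun i => T (g i)) x ^ q) :=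
    (SQ_meas s fun i => (measurable_T (g i) (hg i)).measurable).pow_const q
  rw [shell_polar (by omega) _ hTm R (2 * R) hR0.le]
  have hrm : Measurable fun r : ℝ => ENNReal.ofReal (r ^ (n - 1)) :=
    (measurable_id.pow_const _).ennreal_ofReal
  have hmm : ∀ k, Measurable fun r : ℝ => ENNReal.ofReal (r ^ (n - 1)) * ‖mu n k r‖ₑ ^ p := fun k =>
    hrm.mul ((mu_continuous (by omega) k).measurable.enorm.pow_const p)
  have hinner : ∀ᵐ w ∂(sg n), ∫⁻ r in Ioc R (2 * R), ENNReal.ofReal (r ^ (n - 1)) *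
      SQ s (fun i => T (g i)) (r • w) ^ q ≤ (2 : ℝ≥0∞) ^ (q - 1) * (U ^ q * (I0 *
        (∑ k ∈ Finset.range L, V k w) ^ q)) +
        (2 : ℝ≥0∞) ^ (q - 1) * Q ^ q * ENNReal.ofReal ((2 * R) ^ n) := by
    filter_upwards [sg_ae n] with w hw
    set W : ℝ≥0∞ := (∑ k ∈ Finset.range L, V k w) with hW
    have h1 : ∀ r ∈ Ioc R (2 * R), ENNReal.ofReal (r ^ (n - 1)) *
        SQ s (fun i => T (g i)) (r • w) ^ q ≤
        (2 : ℝ≥0∞) ^ (q - 1) * U ^ q * W ^ (q - 1) * (∑ k ∈ Finset.range L,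
          V k w * (ENNReal.ofReal (r ^ (n - 1)) * ‖mu n k r‖ₑ ^ p)) +
          (2 : ℝ≥0∞) ^ (q - 1) * Q ^ q * ENNReal.ofReal (r ^ (n - 1)) := by
      intro r hr
      have h2 := hpt c δ hc hc1 hδ s g hint hgap w hw r L hL1 (hR0.trans hr.1).le
        (by rw [hLR]; linarith [hr.2])
      have h3 : (∑ k ∈ Finset.range L, V k w * ‖mu n k r‖ₑ ^ (2 : ℝ)) ^ q ≤
          W ^ (q - 1) * ∑ k ∈ Finset.range L, V k w * ‖mu n k r‖ₑ ^ p := by
        have h4 := jensen_w (Finset.range L) (fun k => V k w) (fun k => ‖mu n k r‖ₑ ^ (2 : ℝ))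
          hq1.le
        refine h4.trans (le_of_eq ?_)
        congr 1
        apply Finset.sum_congr rfl
        intro k _
        rw [← ENNReal.rpow_mul]
        congr 2
        rw [hq]; ring
      have h5 : SQ s (fun i => T (g i)) (r • w) ^ q ≤ (2 : ℝ≥0∞) ^ (q - 1) *
          (U ^ q * (W ^ (q - 1) * ∑ k ∈ Finset.range L, V k w * ‖mu n k r‖ₑ ^ p) + Q ^ q) := by
        refine (ENNReal.rpow_le_rpow h2 hq0.le).trans ?_
        refine (ENNReal.rpow_add_le_mul_rpow_add_rpow _ _ hq1.le).trans ?_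
        refine mul_le_mul' le_rfl (add_le_add ?_ le_rfl)
        rw [ENNReal.mul_rpow_of_nonneg _ _ hq0.le]
        exact mul_le_mul' le_rfl h3
      calc ENNReal.ofReal (r ^ (n - 1)) * SQ s (fun i => T (g i)) (r • w) ^ q
          ≤ ENNReal.ofReal (r ^ (n - 1)) * ((2 : ℝ≥0∞) ^ (q - 1) *
          (U ^ q * (W ^ (q - 1) * ∑ k ∈ Finset.range L, V k w * ‖mu n k r‖ₑ ^ p) + Q ^ q)) :=
            mul_le_mul' le_rfl h5
        _ = _ := by
            have e : ∀ k, V k w * (ENNReal.ofReal (r ^ (n - 1)) * ‖mu n k r‖ₑ ^ p) =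
                ENNReal.ofReal (r ^ (n - 1)) * (V k w * ‖mu n k r‖ₑ ^ p) := fun k => by
              ring
            simp_rw [e]
            rw [← Finset.mul_sum]
            ring
    have hI2 : ∀ k, ∫⁻ r in Ioc R (2 * R), V k w * (ENNReal.ofReal (r ^ (n - 1)) *
        ‖mu n k r‖ₑ ^ p) ≤ V k w * I0 := by
      intro k
      rw [lintegral_const_mul _ (hmm k)]
      exact mul_le_mul' le_rfl (hI k)
    calc ∫⁻ r in Ioc R (2 * R), ENNReal.ofReal (r ^ (n - 1)) * SQ s (fun i => T (g i)) (r • w) ^ q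
        ≤ ∫⁻ r in Ioc R (2 * R), ((2 : ℝ≥0∞) ^ (q - 1) * U ^ q * W ^ (q - 1) *
            (∑ k ∈ Finset.range L, V k w * (ENNReal.ofReal (r ^ (n - 1)) * ‖mu n k r‖ₑ ^ p)) +
          (2 : ℝ≥0∞) ^ (q - 1) * Q ^ q * ENNReal.ofReal (r ^ (n - 1))) := by
          refine setLIntegral_mono ?_ h1
          apply Measurable.add
          · apply Measurable.const_mul
            exact Finset.measurable_fun_sum _ fun k _ => (hmm k).const_mul _
          · exact hrm.const_mul _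
      _ = (2 : ℝ≥0∞) ^ (q - 1) * U ^ q * W ^ (q - 1) *
            (∑ k ∈ Finset.range L, ∫⁻ r in Ioc R (2 * R), V k w *
              (ENNReal.ofReal (r ^ (n - 1)) * ‖mu n k r‖ₑ ^ p)) +
          (2 : ℝ≥0∞) ^ (q - 1) * Q ^ q * ∫⁻ r in Ioc R (2 * R), ENNReal.ofReal (r ^ (n - 1)) := by
          rw [lintegral_add_right _ (hrm.const_mul _), lintegral_const_mul _
            (Finset.measurable_fun_sum _ fun k _ => (hmm k).const_mul _),
            lintegral_finsetSum _ fun k _ => (hmm k).const_mul _, lintegral_const_mul _ hrm]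
      _ ≤ (2 : ℝ≥0∞) ^ (q - 1) * U ^ q * W ^ (q - 1) * (∑ k ∈ Finset.range L, V k w * I0) +
          (2 : ℝ≥0∞) ^ (q - 1) * Q ^ q * ENNReal.ofReal ((2 * R) ^ n) :=
          add_le_add (mul_le_mul' le_rfl (Finset.sum_le_sum fun k _ => hI2 k))
            (mul_le_mul' le_rfl (vol_annulus n (by omega) R hR0))
      _ = _ := by
          rw [← Finset.sum_mul]
          congr 1
          have e : W ^ (q - 1) * W = W ^ q := by
            calc W ^ (q - 1) * W = W ^ (q - 1) * W ^ (1 : ℝ) := by rw [ENNReal.rpow_one]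
              _ = W ^ q := by
                rw [← ENNReal.rpow_add_of_nonneg _ _ (by linarith) (by norm_num)]
                congr 1
                ring
          rw [← e]
          ring
  have hWm : Measurable fun w => (∑ k ∈ Finset.range L, V k w) ^ q :=
    (Finset.measurable_fun_sum _ fun k _ => hVm k).pow_const _
  calc ∫⁻ w, (∫⁻ r in Ioc R (2 * R), ENNReal.ofReal (r ^ (n - 1)) *
        SQ s (fun i => T (g i)) (r • w) ^ q) ∂(sg n)
      ≤ ∫⁻ w, ((2 : ℝ≥0∞) ^ (q - 1) * (U ^ q * (I0 *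
        (∑ k ∈ Finset.range L, V k w) ^ q)) +
        (2 : ℝ≥0∞) ^ (q - 1) * Q ^ q * ENNReal.ofReal ((2 * R) ^ n)) ∂(sg n) :=
        lintegral_mono_ae hinner
    _ = _ := by
        rw [lintegral_add_right _ measurable_const, lintegral_const_mul _
          ((hWm.const_mul _).const_mul _), lintegral_const_mul _ (hWm.const_mul _),
          lintegral_const_mul _ hWm, lintegral_const]
        ring

end Pool.Agent.W5h46.LS
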