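import Mathlib
import Pool.Agent.W5h46.LS.V3
set_option autoImplicit false

/-! Vector valued estimates: the sum over the shells. -/

namespace Pool.Agent.W5h46.LS

open MeasureTheory Measure Set Metric Complex
open Pool.Agent.H789R2.FR (E sg sg_finite sg_ae T polar)
open Pool.Agent.H789R2.FR.L2 (measurable_T)
open Pool.Agent.W5h55.SH (ga ga_Lp ar ar_pos phi_cont cc pow_cover)
open scoped ENNReal RealInnerProductSpace

variable {n : ℕ}

lemma num1v {q δ η0 Kc B C C2 D R Jq : ℝ} (hKc : 0 < Kc) (hB : 0 < B) (hC : 0 < C)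
    (hC2 : 0 < C2) (hD : 0 < D) (hR : 1 ≤ R) (hJ : 0 ≤ Jq)
    (hδη : δ * ((n : ℝ) + 2) * (2 * q) ≤ η0 / 2) :
    2 ^ (q - 1) * ((2 * (Kc * (16 * R) ^ δ)) ^ q * (C2 * R ^ (-η0) *
      (((Kc * (16 * R) ^ δ) * (C * (B * (16 * R) ^ δ) ^ (n + 1)) ^ 2) ^ q * Jq * D))) ≤
    (2 ^ (q - 1) * 2 ^ q * (Kc * C * B ^ (n + 1)) ^ (2 * q) * C2 * D * 16 ^ (η0 / 2)) *
      (R ^ (-(η0 / 2)) * Jq) := by
  have hR0 : 0 < R := by linarith
  set X : ℝ := 16 * R with hX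
  have hX1 : 1 ≤ X := by linarith
  have hX0 : 0 < X := by linarith
  set Z : ℝ := X ^ δ with hZ
  have hXd : 0 < Z := Real.rpow_pos_of_pos hX0 _
  have e1 : (2 * (Kc * Z)) ^ q * ((Kc * Z) * (C * (B * Z) ^ (n + 1)) ^ 2) ^ q =
      2 ^ q * (Kc * C * B ^ (n + 1)) ^ (2 * q) * X ^ (δ * ((n : ℝ) + 2) * (2 * q)) := by
    rw [← Real.mul_rpow (by positivity) (by positivity)]
    have e2 : 2 * (Kc * Z) * (Kc * Z * (C * (B * Z) ^ (n + 1)) ^ 2) =
        2 * ((Kc * C * B ^ (n + 1)) ^ (2 : ℝ) * (Z ^ (n + 2)) ^ (2 : ℝ)) := by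
      rw [Real.rpow_two, Real.rpow_two]
      ring
    rw [e2, Real.mul_rpow (by norm_num) (by positivity), Real.mul_rpow (by positivity)
      (by positivity), ← Real.rpow_mul (by positivity), ← Real.rpow_mul (by positivity),
      ← mul_assoc (2 ^ q)]
    congr 1
    rw [hZ, ← Real.rpow_natCast, ← Real.rpow_mul hX0.le, ← Real.rpow_mul hX0.le]
    congr 1
    push_cast
    ring
  have e4 : X ^ (δ * ((n : ℝ) + 2) * (2 * q)) ≤ 16 ^ (η0 / 2) * R ^ (η0 / 2) := by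
    rw [← Real.mul_rpow (by norm_num) hR0.le]
    exact Real.rpow_le_rpow_of_exponent_le hX1 hδη
  have e5 : R ^ (η0 / 2) * R ^ (-η0) = R ^ (-(η0 / 2)) := by
    rw [← Real.rpow_add hR0]
    congr 1
    ring
  calc 2 ^ (q - 1) * ((2 * (Kc * Z)) ^ q * (C2 * R ^ (-η0) *
        (((Kc * Z) * (C * (B * Z) ^ (n + 1)) ^ 2) ^ q * Jq * D)))
      = (2 ^ (q - 1) * C2 * R ^ (-η0) * Jq * D) *
        ((2 * (Kc * Z)) ^ q * ((Kc * Z) * (C * (B * Z) ^ (n + 1)) ^ 2) ^ q) := by ring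
    _ ≤ (2 ^ (q - 1) * C2 * R ^ (-η0) * Jq * D) * (2 ^ q * (Kc * C * B ^ (n + 1)) ^ (2 * q) *
        (16 ^ (η0 / 2) * R ^ (η0 / 2))) := by
        rw [e1]
        apply mul_le_mul_of_nonneg_left _ (by positivity)
        exact mul_le_mul_of_nonneg_left e4 (by positivity)
    _ = (2 ^ (q - 1) * 2 ^ q * (Kc * C * B ^ (n + 1)) ^ (2 * q) * C2 * D * 16 ^ (η0 / 2)) *
        ((R ^ (η0 / 2) * R ^ (-η0)) * Jq) := by ring
    _ = _ := by rw [e5]

/-- the logarithmic factor -/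
lemma numJ {q η1 : ℝ} (hη : 0 < η1) : ∃ C : ℝ, 0 < C ∧ ∀ j : ℕ,
    ((2 : ℝ) ^ j) ^ (-η1) * ((j + 5 : ℕ) : ℝ) ^ q ≤ C * ((2 : ℝ) ^ j) ^ (-(η1 / 2)) := by
  set r : ℝ := (2 : ℝ) ^ (-(η1 / 2)) with hr
  have hr0 : 0 < r := Real.rpow_pos_of_pos (by norm_num) _
  have hr1 : r < 1 := Real.rpow_lt_one_of_one_lt_of_neg (by norm_num) (by linarith)
  set N : ℕ := ⌈q⌉₊ with hN
  have hqN : q ≤ N := Nat.le_ceil q
  have hs := poly_summable N hr0.le hr1
  set D0 : ℝ := ∑' k : ℕ, ((k : ℝ) + 1) ^ N * r ^ k with hD0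
  have hD1 : ∀ k : ℕ, ((k : ℝ) + 1) ^ N * r ^ k ≤ D0 := fun k =>
    hs.le_tsum k (fun j _ => by positivity)
  have hD00 : 0 < D0 := lt_of_lt_of_le (by positivity) (hD1 0)
  refine ⟨5 ^ N * D0, by positivity, fun j => ?_⟩
  have e1 : ((2 : ℝ) ^ j) ^ (-(η1 / 2)) = r ^ j := by
    rw [hr, ← Real.rpow_natCast, ← Real.rpow_mul (by norm_num), ← Real.rpow_natCast,
      ← Real.rpow_mul (by norm_num), mul_comm]
  have e2 : ((2 : ℝ) ^ j) ^ (-η1) = r ^ j * r ^ j := by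
    rw [← e1, ← Real.rpow_add (by positivity)]
    congr 1
    ring
  rw [e1, e2]
  have h1 : ((j + 5 : ℕ) : ℝ) ^ q ≤ 5 ^ N * ((j : ℝ) + 1) ^ N := by
    have hj : (0 : ℝ) ≤ j := Nat.cast_nonneg j
    calc ((j + 5 : ℕ) : ℝ) ^ q ≤ ((j + 5 : ℕ) : ℝ) ^ (N : ℝ) := by
          apply Real.rpow_le_rpow_of_exponent_le _ hqN
          push_cast
          linarith
      _ = ((j + 5 : ℕ) : ℝ) ^ N := Real.rpow_natCast _ _
      _ ≤ (5 * ((j : ℝ) + 1)) ^ N := by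
          apply pow_le_pow_left₀ (Nat.cast_nonneg _)
          push_cast
          linarith
      _ = _ := by rw [mul_pow]
  calc r ^ j * r ^ j * ((j + 5 : ℕ) : ℝ) ^ q ≤ r ^ j * r ^ j * (5 ^ N * ((j : ℝ) + 1) ^ N) :=
        mul_le_mul_of_nonneg_left h1 (by positivity)
    _ = 5 ^ N * (((j : ℝ) + 1) ^ N * r ^ j) * r ^ j := by ring
    _ ≤ 5 ^ N * D0 * r ^ j := by
        apply mul_le_mul_of_nonneg_right _ (by positivity)
        exact mul_le_mul_of_nonneg_left (hD1 j) (by positivity)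

lemma SQ_ge {s : Finset ℕ} {f : ℕ → E n → ℂ} {i : ℕ} (hi : i ∈ s) (x : E n) :
    ‖f i x‖ₑ ^ (2 : ℝ) ≤ SQ s f x :=
  Finset.single_le_sum (f := fun i => ‖f i x‖ₑ ^ (2 : ℝ)) (fun _ _ => zero_le) hi

lemma int_of_SQ {s : Finset ℕ} {g : ℕ → E n → ℂ} (hg : ∀ i, Measurable (g i)) {p : ℝ}
    (hp : 2 < p) (h : ∫⁻ x, SQ s g x ^ (p / 2) ∂(sg n) ≠ ∞) : ∀ i ∈ s, Integrable (g i) (sg n) := by
  intro i hi
  apply int_of_Lp (hg i) (p := p) (by linarith)
  refine ne_top_of_le_ne_top h ?_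
  unfold NG
  apply lintegral_mono
  intro x
  simp only
  calc ‖g i x‖ₑ ^ p = (‖g i x‖ₑ ^ (2 : ℝ)) ^ (p / 2) := by
        rw [← ENNReal.rpow_mul]
        congr 1
        ring
    _ ≤ _ := ENNReal.rpow_le_rpow (SQ_ge hi x) (by linarith)

/-- **One shell.** -/
theorem shellv_bound (hn : 3 ≤ n) (p : ℝ) (hp : 2 * (n : ℝ) / (n - 1) < p) (hp2 : 2 < p) :
    ∃ δ : ℝ, 0 < δ ∧ δ ≤ 1 ∧ ∀ c : ℝ, 0 < c → c ≤ 1 → ∃ C η : ℝ, 0 < C ∧ 0 < η ∧
    ∀ (s : Finset ℕ) (g : ℕ → E n → ℂ), (∀ i, Measurable (g i)) →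
    (∀ i ∈ s, Integrable (g i) (sg n)) → (∀ i ∈ s, GapD c δ (g i)) → ∀ j : ℕ,
    ∫⁻ x in {x : E n | ‖x‖ ∈ Ioc ((2 : ℝ) ^ j) (2 * 2 ^ j)}, SQ s (fun i => T (g i)) x ^ (p / 2) ≤
      ENNReal.ofReal (C * ((2 : ℝ) ^ j) ^ (-η)) * ∫⁻ x, SQ s g x ^ (p / 2) ∂(sg n) := by
  classical
  have hsf := sg_finite n
  have hp1 : 1 < p := by linarith
  have hp0 : 0 < p := by linarith
  set q : ℝ := p / 2 with hq
  have hq1 : 1 < q := by rw [hq]; linarith
  have hq0 : 0 < q := by linarith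
  have hpq : p = 2 * q := by rw [hq]; ring
  obtain ⟨C2, η0, hC2, hη0, hI⟩ := Ik_bound hn p hp hp1
  obtain ⟨D3, hD3, hstr⟩ := shell_vec (n := n) hn p hp2
  obtain ⟨C, D, hC, hD, hV⟩ := V_Lq (n := n) hn q hq1
  set σ : ℝ := (sg n).real univ with hs
  have hs0 : 0 ≤ σ := measureReal_nonneg
  have hsu : (sg n) univ = ENNReal.ofReal σ := by
    rw [hs, ofReal_measureReal]
  obtain ⟨C4, hC4, hnum2⟩ := num2 n hp1 hD3 hs0
  have hn2 : (0 : ℝ) < (n : ℝ) + 2 := by positivity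
  set δ : ℝ := min 1 (η0 / 2 / (((n : ℝ) + 2) * (2 * q))) with hδ
  have hδ0 : 0 < δ := lt_min one_pos (by positivity)
  have hδ1 : δ ≤ 1 := min_le_left _ _
  have hδη : δ * ((n : ℝ) + 2) * (2 * q) ≤ η0 / 2 := by
    have : δ ≤ η0 / 2 / (((n : ℝ) + 2) * (2 * q)) := min_le_right _ _
    rw [le_div_iff₀ (by positivity)] at this
    linarith
  obtain ⟨C6, hC6, hJ⟩ := numJ (q := q) (η1 := η0 / 2) (by linarith)
  refine ⟨δ, hδ0, hδ1, ?_⟩
  intro c hc hc1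
  set B : ℝ := 1 + 8 * ((n : ℝ) + 3) / c with hB
  have hB0 : 0 < B := by positivity
  set Kc : ℝ := 2 + 2 / (δ * c) with hKc
  have hKc0 : 0 < Kc := by positivity
  set C5 : ℝ := 2 ^ (q - 1) * 2 ^ q * (Kc * C * B ^ (n + 1)) ^ (2 * q) * C2 * D *
    16 ^ (η0 / 2) with hC5
  have hC50 : 0 < C5 := by positivity
  set η : ℝ := min 1 (η0 / 2 / 2) with hη
  have hη00 : 0 < η := lt_min one_pos (by positivity)
  have hη1 : η ≤ 1 := min_le_left _ _
  have hη2 : η ≤ η0 / 2 / 2 := min_le_right _ _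
  refine ⟨C5 * C6 + C4, η, by positivity, hη00, ?_⟩
  intro s g hg hint hgap j
  set N : ℝ≥0∞ := ∫⁻ x, SQ s g x ^ q ∂(sg n) with hN
  set R : ℝ := (2 : ℝ) ^ j with hR
  have hR1 : 1 ≤ R := one_le_pow₀ (by norm_num)
  have hR0 : 0 < R := by linarith
  refine (hstr c δ hc hc1 hδ0 s g hg hint hgap j (ENNReal.ofReal (C2 * R ^ (-η0)))
    (fun k => hI k R hR1)).trans ?_
  set L : ℕ := 16 * 2 ^ j with hL
  have hL1 : 1 ≤ L := by
    have : 1 ≤ 2 ^ j := Nat.one_le_two_pow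
    omega
  have hLJ : L < 2 ^ (j + 5) := by
    rw [hL, pow_add]
    have : 1 ≤ 2 ^ j := Nat.one_le_two_pow
    omega
  have hLR : (L : ℝ) = 16 * R := by rw [hL, hR]; push_cast; ring
  have hX1 : 1 ≤ 16 * R := by linarith
  have hXd : 0 < (16 * R) ^ δ := Real.rpow_pos_of_pos (by linarith) _
  have h2two : (2 : ℝ≥0∞) ^ (q - 1) = ENNReal.ofReal (2 ^ (q - 1)) := by
    rw [← ENNReal.ofReal_rpow_of_pos (by norm_num), ENNReal.ofReal_ofNat]
  have h2q : (2 : ℝ≥0∞) ^ q = ENNReal.ofReal (2 ^ q) := by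
    rw [← ENNReal.ofReal_rpow_of_pos (by norm_num), ENNReal.ofReal_ofNat]
  -- the first term
  have ht1 : (2 : ℝ≥0∞) ^ (q - 1) * (ENNReal.ofReal (2 * (Kc * (L : ℝ) ^ δ)) ^ q *
      (ENNReal.ofReal (C2 * R ^ (-η0)) *
        ∫⁻ w, (∑ k ∈ Finset.range L, SQ s (fun i => Yk (g i) k) w) ^ q ∂(sg n))) ≤
      ENNReal.ofReal (C5 * C6 * R ^ (-η)) * N := by
    have h1 := hV c δ hc hc1 hδ0 hδ1 s g hg hint hgap L (j + 5) hL1 hLJ
    have hAL : AL n C c δ L = (Kc * (16 * R) ^ δ) * (C * (B * (16 * R) ^ δ) ^ (n + 1)) ^ 2 := by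
      unfold AL
      rw [hLR]
    have h3 := num1v (n := n) (η0 := η0) (Jq := ((j + 5 : ℕ) : ℝ) ^ q) (C2 := C2) (D := D) (C := C)
      (B := B) (Kc := Kc) (R := R) hKc0 hB0 hC hC2 hD hR1 (by positivity) hδη
    calc (2 : ℝ≥0∞) ^ (q - 1) * (ENNReal.ofReal (2 * (Kc * (L : ℝ) ^ δ)) ^ q *
      (ENNReal.ofReal (C2 * R ^ (-η0)) *
        ∫⁻ w, (∑ k ∈ Finset.range L, SQ s (fun i => Yk (g i) k) w) ^ q ∂(sg n)))
        ≤ (2 : ℝ≥0∞) ^ (q - 1) * (ENNReal.ofReal (2 * (Kc * (L : ℝ) ^ δ)) ^ q *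
      (ENNReal.ofReal (C2 * R ^ (-η0)) *
        (ENNReal.ofReal ((AL n C c δ L) ^ q * ((j + 5 : ℕ) : ℝ) ^ q * D) * N))) :=
          mul_le_mul' le_rfl (mul_le_mul' le_rfl (mul_le_mul' le_rfl h1))
      _ = ENNReal.ofReal (2 ^ (q - 1) * ((2 * (Kc * (16 * R) ^ δ)) ^ q * (C2 * R ^ (-η0) *
      (((Kc * (16 * R) ^ δ) * (C * (B * (16 * R) ^ δ) ^ (n + 1)) ^ 2) ^ q *
        ((j + 5 : ℕ) : ℝ) ^ q * D)))) * N := by
          rw [hAL, hLR, h2two, ENNReal.ofReal_rpow_of_nonneg (by positivity) hq0.le,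
            ENNReal.ofReal_mul (p := 2 ^ (q - 1)) (by positivity),
            ENNReal.ofReal_mul (p := (2 * (Kc * (16 * R) ^ δ)) ^ q) (by positivity),
            ENNReal.ofReal_mul (p := C2 * R ^ (-η0)) (by positivity)]
          ring
      _ ≤ _ := by
          apply mul_le_mul' _ le_rfl
          apply ENNReal.ofReal_le_ofReal
          refine h3.trans ?_
          have h4 := hJ j
          calc C5 * (R ^ (-(η0 / 2)) * ((j + 5 : ℕ) : ℝ) ^ q)
              ≤ C5 * (C6 * R ^ (-(η0 / 2 / 2))) := mul_le_mul_of_nonneg_left h4 hC50.le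
            _ ≤ C5 * (C6 * R ^ (-η)) := by
                apply mul_le_mul_of_nonneg_left _ hC50.le
                apply mul_le_mul_of_nonneg_left _ hC6.le
                exact Real.rpow_le_rpow_of_exponent_le hR1 (by linarith)
            _ = _ := by ring
  -- the second term
  have ht2 : (2 : ℝ≥0∞) ^ (q - 1) * (2 * ENNReal.ofReal ((D3 * (1 / 2) ^ L) ^ 2) * G1 s g) ^ q *
      (ENNReal.ofReal ((2 * R) ^ n) * (sg n) univ) ≤ ENNReal.ofReal (C4 * R ^ (-η)) * N := by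
    have hG := G1_pow s hg hq1
    rw [hsu] at hG ⊢
    set ε : ℝ := D3 * (1 / 2) ^ L with hε
    have hε0 : 0 < ε := by positivity
    calc (2 : ℝ≥0∞) ^ (q - 1) * (2 * ENNReal.ofReal (ε ^ 2) * G1 s g) ^ q *
      (ENNReal.ofReal ((2 * R) ^ n) * ENNReal.ofReal σ)
        = (2 : ℝ≥0∞) ^ (q - 1) * ((2 : ℝ≥0∞) ^ q * ENNReal.ofReal ((ε ^ 2) ^ q) * G1 s g ^ q) *
      (ENNReal.ofReal ((2 * R) ^ n) * ENNReal.ofReal σ) := by
          rw [ENNReal.mul_rpow_of_nonneg _ _ hq0.le, ENNReal.mul_rpow_of_nonneg _ _ hq0.le,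
            ENNReal.ofReal_rpow_of_nonneg (by positivity) hq0.le]
      _ ≤ (2 : ℝ≥0∞) ^ (q - 1) * ((2 : ℝ≥0∞) ^ q * ENNReal.ofReal ((ε ^ 2) ^ q) *
          (ENNReal.ofReal σ ^ q * (ENNReal.ofReal σ ^ (q - 1) * N))) *
      (ENNReal.ofReal ((2 * R) ^ n) * ENNReal.ofReal σ) := by
          gcongr
      _ = ENNReal.ofReal (2 ^ (q - 1) * (2 ^ q * (ε ^ 2) ^ q * (σ ^ q * σ ^ (q - 1))) *
          ((2 * R) ^ n * σ)) * N := by
          rw [h2two, h2q, ENNReal.ofReal_rpow_of_nonneg hs0 (by linarith),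
            ENNReal.ofReal_rpow_of_nonneg hs0 (by linarith),
            ENNReal.ofReal_mul (p := 2 ^ (q - 1) * (2 ^ q * (ε ^ 2) ^ q * (σ ^ q * σ ^ (q - 1))))
              (by positivity),
            ENNReal.ofReal_mul (p := 2 ^ (q - 1)) (by positivity),
            ENNReal.ofReal_mul (p := 2 ^ q * (ε ^ 2) ^ q) (by positivity),
            ENNReal.ofReal_mul (p := 2 ^ q) (by positivity),
            ENNReal.ofReal_mul (p := σ ^ q) (by positivity),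
            ENNReal.ofReal_mul (p := (2 * R) ^ n) (by positivity)]
          ring
      _ = ENNReal.ofReal (2 ^ (p - 1) * ε ^ p * (σ ^ (p - 1) * σ) * (2 * R) ^ n) * N := by
          congr 2
          have e1 : (2 : ℝ) ^ (p - 1) = 2 ^ (q - 1) * 2 ^ q := by
            rw [← Real.rpow_add (by norm_num)]
            congr 1
            rw [hpq]; ring
          have e2 : ε ^ p = (ε ^ 2) ^ q := by
            rw [← Real.rpow_two, ← Real.rpow_mul hε0.le, hpq]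
          have e3 : σ ^ (p - 1) = σ ^ q * σ ^ (q - 1) := by
            rw [← Real.rpow_add_of_nonneg hs0 (by linarith) (by linarith)]
            congr 1
            rw [hpq]; ring
          rw [e1, e2, e3]
          ring
      _ ≤ _ := by
          apply mul_le_mul' _ le_rfl
          apply ENNReal.ofReal_le_ofReal
          exact hnum2 j η hη1
  refine (add_le_add ht1 ht2).trans (le_of_eq ?_)
  rw [← add_mul, ← ENNReal.ofReal_add (by positivity) (by positivity)]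
  congr 2
  ring

/-- **Main vector valued estimate.** -/
theorem SQ_Lp (hn : 3 ≤ n) (p : ℝ) (hp : 2 * (n : ℝ) / (n - 1) < p) (hp2 : 2 < p) :
    ∃ δ : ℝ, 0 < δ ∧ δ ≤ 1 ∧ ∀ c : ℝ, 0 < c → ∃ C : ℝ, 0 < C ∧
    ∀ (s : Finset ℕ) (g : ℕ → E n → ℂ), (∀ i, Measurable (g i)) →
    (∀ i ∈ s, GapD c δ (g i)) →
    ∫⁻ x : E n, SQ s (fun i => T (g i)) x ^ (p / 2) ≤
      ENNReal.ofReal C * ∫⁻ x, SQ s g x ^ (p / 2) ∂(sg n) := by
  have hsf := sg_finite n
  obtain ⟨δ, hδ0, hδ1, h⟩ := shellv_bound hn p hp hp2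
  refine ⟨δ, hδ0, hδ1, fun c' hc' => ?_⟩
  obtain ⟨C, η, hC, hη, hsh⟩ := h (min c' 1) (lt_min hc' one_pos) (min_le_right _ _)
  set q : ℝ := p / 2 with hq
  have hq1 : 1 < q := by rw [hq]; linarith
  have hq0 : 0 < q := by linarith
  set v : ℝ≥0∞ := volume (closedBall (0 : E n) 1) * ((sg n) univ ^ q * (sg n) univ ^ (q - 1)) with hv
  have hvt : v ≠ ∞ := ENNReal.mul_ne_top (measure_closedBall_lt_top).ne
    (ENNReal.mul_ne_top (ENNReal.rpow_ne_top_of_nonneg hq0.le (measure_ne_top _ _))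
      (ENNReal.rpow_ne_top_of_nonneg (by linarith) (measure_ne_top _ _)))
  set ρ : ℝ := (2 : ℝ) ^ (-η) with hρ
  have hρ0 : 0 < ρ := Real.rpow_pos_of_pos (by norm_num) _
  have hρ1 : ρ < 1 := Real.rpow_lt_one_of_one_lt_of_neg (by norm_num) (by linarith)
  have hqs : Summable fun j : ℕ => C * ρ ^ j := (summable_geometric_of_lt_one hρ0.le hρ1).mul_left C
  refine ⟨v.toReal + ∑' j : ℕ, C * ρ ^ j + 1, by positivity, ?_⟩
  intro s g hg hgap
  set N : ℝ≥0∞ := ∫⁻ x, SQ s g x ^ q ∂(sg n) with hN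
  by_cases hfin : N = ∞
  · rw [hfin, ENNReal.mul_top]
    · exact le_top
    · rw [Ne, ENNReal.ofReal_eq_zero, not_le]
      positivity
  have hint := int_of_SQ hg hp2 hfin
  have hgap' : ∀ i ∈ s, GapD (min c' 1) δ (g i) := by
    intro i hi
    obtain ⟨S, hS, hvan⟩ := hgap i hi
    exact ⟨S, hS.mono (min_le_left _ _), hvan⟩
  have hcov : (univ : Set (E n)) ⊆ closedBall (0 : E n) 1 ∪
      ⋃ j : ℕ, {x : E n | ‖x‖ ∈ Ioc ((2 : ℝ) ^ j) (2 * 2 ^ j)} := by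
    intro x _
    rcases le_or_gt ‖x‖ 1 with h1 | h1
    · left
      rwa [mem_closedBall_zero_iff]
    · right
      obtain ⟨j, hj⟩ := pow_cover _ h1
      exact mem_iUnion.mpr ⟨j, hj⟩
  have htriv : ∀ x : E n, SQ s (fun i => T (g i)) x ≤ G1 s g := by
    intro x
    unfold SQ G1
    exact Finset.sum_le_sum fun i _ => ENNReal.rpow_le_rpow (T_triv x) (by norm_num)
  calc ∫⁻ x : E n, SQ s (fun i => T (g i)) x ^ q
      = ∫⁻ x in univ, SQ s (fun i => T (g i)) x ^ q := by rw [Measure.restrict_univ]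
    _ ≤ ∫⁻ x in closedBall (0 : E n) 1 ∪
      ⋃ j : ℕ, {x : E n | ‖x‖ ∈ Ioc ((2 : ℝ) ^ j) (2 * 2 ^ j)}, SQ s (fun i => T (g i)) x ^ q :=
        lintegral_mono_set hcov
    _ ≤ (∫⁻ x in closedBall (0 : E n) 1, SQ s (fun i => T (g i)) x ^ q) +
      ∑' j : ℕ, ∫⁻ x in {x : E n | ‖x‖ ∈ Ioc ((2 : ℝ) ^ j) (2 * 2 ^ j)},
        SQ s (fun i => T (g i)) x ^ q :=
        (lintegral_union_le _ _ _).trans (add_le_add le_rfl (lintegral_iUnion_le _ _))
    _ ≤ v * N + ∑' j : ℕ, ENNReal.ofReal (C * ρ ^ j) * N := by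
        apply add_le_add
        · calc ∫⁻ x in closedBall (0 : E n) 1, SQ s (fun i => T (g i)) x ^ q
              ≤ ∫⁻ _x in closedBall (0 : E n) 1, (G1 s g) ^ q := by
                apply lintegral_mono
                intro x
                exact ENNReal.rpow_le_rpow (htriv x) hq0.le
            _ = volume (closedBall (0 : E n) 1) * (G1 s g) ^ q := by
                rw [setLIntegral_const, mul_comm]
            _ ≤ volume (closedBall (0 : E n) 1) * ((sg n) univ ^ q *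
                ((sg n) univ ^ (q - 1) * N)) :=
                mul_le_mul' le_rfl (G1_pow s hg hq1)
            _ = v * N := by rw [hv, mul_assoc, mul_assoc]
        · apply ENNReal.tsum_le_tsum
          intro j
          have h1 := hsh s g hg hint hgap' j
          have e : ((2 : ℝ) ^ j) ^ (-η) = ρ ^ j := by
            rw [hρ, ← Real.rpow_natCast, ← Real.rpow_mul (by norm_num), ← Real.rpow_natCast,
              ← Real.rpow_mul (by norm_num), mul_comm]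
          rwa [e] at h1
    _ = (v + ENNReal.ofReal (∑' j : ℕ, C * ρ ^ j)) * N := by
        rw [ENNReal.tsum_mul_right, add_mul,
          ENNReal.ofReal_tsum_of_nonneg (fun j => by positivity) hqs]
    _ ≤ _ := by
        apply mul_le_mul' _ le_rfl
        have h0 : 0 ≤ ∑' j : ℕ, C * ρ ^ j := tsum_nonneg fun j => by positivity
        rw [ENNReal.ofReal_add (by positivity) (by norm_num), ENNReal.ofReal_add
          ENNReal.toReal_nonneg h0, ENNReal.ofReal_toReal hvt]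
        exact le_self_add

end Pool.Agent.W5h46.LS
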