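import Mathlib
import Pool.Agent.W5h46.LS.V4
import Pool.Agent.W5h55.SH.D1
set_option autoImplicit false

/-! Vector valued estimates: parity and the sphere form. -/

namespace Pool.Agent.W5h46.LS

open MeasureTheory Measure Set Metric Complex
open Pool.Agent.H789R2.FR (E sg sg_finite sg_ae sg_inv T polar)
open Pool.Agent.H789R2.FR.L2 (measurable_T)
open scoped ENNReal RealInnerProductSpace

variable {n : ℕ}

/-- gaps between the degrees of the same parity -/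
def GapP (c δ : ℝ) (g : E n → ℂ) : Prop :=
  ∃ S : Set ℕ, (∀ k ∈ S, ∀ l ∈ S, (Even k ↔ Even l) → k < l →
      c * (k : ℝ) ^ (1 - δ) ≤ (l : ℝ) - k) ∧ ∀ k, k ∉ S → ∀ x, ‖x‖ = 1 → Yk g k x = 0

lemma sq_add_le (a b : ℝ≥0∞) : (a + b) ^ (2 : ℝ) ≤ 2 * (a ^ (2 : ℝ) + b ^ (2 : ℝ)) := by
  have h := ENNReal.rpow_add_le_mul_rpow_add_rpow a b (p := 2) (by norm_num)
  rwa [two_rpow_sub] at h

lemma Pt_enorm (s : ℂ) (hs : ‖s‖ ≤ 1) (g : E n → ℂ) (x : E n) :
    ‖Pt s g x‖ₑ ≤ ‖g x‖ₑ + ‖g (-x)‖ₑ := by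
  have h3 : ‖Pt s g x‖ ≤ ‖g x‖ + ‖g (-x)‖ := by
    unfold Pt
    rw [norm_div, Complex.norm_ofNat]
    have h4 := norm_add_le (g x) (s * g (-x))
    rw [norm_mul] at h4
    have h5 := mul_le_mul_of_nonneg_right hs (norm_nonneg (g (-x)))
    have h6 := norm_nonneg (g x)
    have h7 := norm_nonneg (g (-x))
    rw [div_le_iff₀ (by norm_num)]
    linarith
  rw [← ofReal_norm, ← ofReal_norm, ← ofReal_norm, ← ENNReal.ofReal_add (norm_nonneg _)
    (norm_nonneg _)]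
  exact ENNReal.ofReal_le_ofReal h3

lemma SQ_Pt (z : ℂ) (hz : ‖z‖ ≤ 1) {q : ℝ} (hq : 1 < q) (s : Finset ℕ) {g : ℕ → E n → ℂ}
    (hg : ∀ i, Measurable (g i)) :
    ∫⁻ x, SQ s (fun i => Pt z (g i)) x ^ q ∂(sg n) ≤
      (4 : ℝ≥0∞) ^ q * ∫⁻ x, SQ s g x ^ q ∂(sg n) := by
  have hq0 : 0 < q := by linarith
  have h1 : ∀ x : E n, SQ s (fun i => Pt z (g i)) x ^ q ≤
      (2 : ℝ≥0∞) ^ q * ((2 : ℝ≥0∞) ^ (q - 1) * (SQ s g x ^ q + SQ s g (-x) ^ q)) := by
    intro x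
    have h2 : SQ s (fun i => Pt z (g i)) x ≤ 2 * (SQ s g x + SQ s g (-x)) := by
      unfold SQ
      rw [← Finset.sum_add_distrib, Finset.mul_sum]
      apply Finset.sum_le_sum
      intro i _
      exact (ENNReal.rpow_le_rpow (Pt_enorm z hz (g i) x) (by norm_num)).trans (sq_add_le _ _)
    refine (ENNReal.rpow_le_rpow h2 hq0.le).trans ?_
    rw [ENNReal.mul_rpow_of_nonneg _ _ hq0.le]
    exact mul_le_mul' le_rfl (ENNReal.rpow_add_le_mul_rpow_add_rpow _ _ hq.le)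
  have hm : Measurable fun x : E n => SQ s g x ^ q := (SQ_meas s hg).pow_const q
  have ht : (2 : ℝ≥0∞) ^ (q - 1) ≠ ∞ := ENNReal.rpow_ne_top_of_nonneg (by linarith) (by norm_num)
  have ht2 : (2 : ℝ≥0∞) ^ q ≠ ∞ := ENNReal.rpow_ne_top_of_nonneg (by linarith) (by norm_num)
  calc ∫⁻ x, SQ s (fun i => Pt z (g i)) x ^ q ∂(sg n)
      ≤ ∫⁻ x, (2 : ℝ≥0∞) ^ q * ((2 : ℝ≥0∞) ^ (q - 1) * (SQ s g x ^ q + SQ s g (-x) ^ q)) ∂(sg n) :=
        lintegral_mono h1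
    _ = (2 : ℝ≥0∞) ^ q * ((2 : ℝ≥0∞) ^ (q - 1) * ((∫⁻ x, SQ s g x ^ q ∂(sg n)) +
        ∫⁻ x, SQ s g x ^ q ∂(sg n))) := by
        rw [lintegral_const_mul' _ _ ht2, lintegral_const_mul' _ _ ht, lintegral_add_left hm]
        congr 3
        exact neg_mp.lintegral_comp hm
    _ = _ := by
        rw [← two_mul]
        have e : (4 : ℝ≥0∞) ^ q = (2 : ℝ≥0∞) ^ q * ((2 : ℝ≥0∞) ^ (q - 1) * 2) := by
          have e1 : (2 : ℝ≥0∞) ^ (q - 1) * 2 = (2 : ℝ≥0∞) ^ q := by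
            calc (2 : ℝ≥0∞) ^ (q - 1) * 2 = (2 : ℝ≥0∞) ^ (q - 1) * (2 : ℝ≥0∞) ^ (1 : ℝ) := by
                  rw [ENNReal.rpow_one]
              _ = _ := by
                  rw [← ENNReal.rpow_add _ _ (by norm_num) (by norm_num)]
                  congr 1
                  ring
          rw [e1, ← ENNReal.mul_rpow_of_nonneg _ _ hq0.le]
          norm_num
        rw [e]
        ring

/-- **Main vector valued estimate with parity.** -/
theorem SQ_Lp' (hn : 3 ≤ n) (p : ℝ) (hp : 2 * (n : ℝ) / (n - 1) < p) (hp2 : 2 < p) :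
    ∃ δ : ℝ, 0 < δ ∧ δ ≤ 1 ∧ ∀ c : ℝ, 0 < c → ∃ C : ℝ, 0 < C ∧
    ∀ (s : Finset ℕ) (g : ℕ → E n → ℂ), (∀ i, Measurable (g i)) →
    (∀ i ∈ s, GapP c δ (g i)) →
    ∫⁻ x : E n, SQ s (fun i => T (g i)) x ^ (p / 2) ≤
      ENNReal.ofReal C * ∫⁻ x, SQ s g x ^ (p / 2) ∂(sg n) := by
  have hsf := sg_finite n
  obtain ⟨δ, hδ0, hδ1, h⟩ := SQ_Lp hn p hp hp2
  refine ⟨δ, hδ0, hδ1, fun c hc => ?_⟩
  obtain ⟨C, hC, hT⟩ := h c hc
  set q : ℝ := p / 2 with hq
  have hq1 : 1 < q := by rw [hq]; linarith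
  have hq0 : 0 < q := by linarith
  refine ⟨2 ^ q * (2 ^ (q - 1) * (2 * (C * 4 ^ q))), by positivity, ?_⟩
  intro s g hg hgap
  set N : ℝ≥0∞ := ∫⁻ x, SQ s g x ^ q ∂(sg n) with hN
  by_cases hfin : N = ∞
  · rw [hfin, ENNReal.mul_top]
    · exact le_top
    · rw [Ne, ENNReal.ofReal_eq_zero, not_le]
      positivity
  have hint := int_of_SQ hg hp2 hfin
  have h1 : ∫⁻ x : E n, SQ s (fun i => T (Pt 1 (g i))) x ^ q ≤
      ENNReal.ofReal C * ((4 : ℝ≥0∞) ^ q * N) := by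
    refine (hT s (fun i => Pt 1 (g i)) (fun i => Pt_meas 1 (hg i)) ?_).trans ?_
    · intro i hi
      obtain ⟨S, hS, hvan⟩ := hgap i hi
      refine ⟨{k | k ∈ S ∧ Even k}, ?_, ?_⟩
      · intro k hk l hl hkl
        exact hS k hk.1 l hl.1 ⟨fun _ => hl.2, fun _ => hk.2⟩ hkl
      · intro k hk x hx
        rw [Yk_neg hn 1 (hint i hi) k x hx]
        by_cases hkS : k ∈ S
        · have hodd : Odd k := by
            rw [← Nat.not_even_iff_odd]
            exact fun he => hk ⟨hkS, he⟩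
          rw [hodd.neg_one_pow]
          ring
        · rw [hvan k hkS x hx, mul_zero]
    · exact mul_le_mul' le_rfl (SQ_Pt 1 (by simp) hq1 s hg)
  have h2 : ∫⁻ x : E n, SQ s (fun i => T (Pt (-1) (g i))) x ^ q ≤
      ENNReal.ofReal C * ((4 : ℝ≥0∞) ^ q * N) := by
    refine (hT s (fun i => Pt (-1) (g i)) (fun i => Pt_meas (-1) (hg i)) ?_).trans ?_
    · intro i hi
      obtain ⟨S, hS, hvan⟩ := hgap i hi
      refine ⟨{k | k ∈ S ∧ ¬ Even k}, ?_, ?_⟩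
      · intro k hk l hl hkl
        exact hS k hk.1 l hl.1 ⟨fun h => absurd h hk.2, fun h => absurd h hl.2⟩ hkl
      · intro k hk x hx
        rw [Yk_neg hn (-1) (hint i hi) k x hx]
        by_cases hkS : k ∈ S
        · have heven : Even k := by
            by_contra he
            exact hk ⟨hkS, he⟩
          rw [heven.neg_one_pow]
          ring
        · rw [hvan k hkS x hx, mul_zero]
    · exact mul_le_mul' le_rfl (SQ_Pt (-1) (by simp) hq1 s hg)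
  have hm1 : Measurable fun x => SQ s (fun i => T (Pt 1 (g i))) x ^ q :=
    (SQ_meas s fun i => (measurable_T _ (Pt_meas 1 (hg i))).measurable).pow_const q
  have ht : (2 : ℝ≥0∞) ^ (q - 1) ≠ ∞ := ENNReal.rpow_ne_top_of_nonneg (by linarith) (by norm_num)
  have ht2 : (2 : ℝ≥0∞) ^ q ≠ ∞ := ENNReal.rpow_ne_top_of_nonneg (by linarith) (by norm_num)
  calc ∫⁻ x : E n, SQ s (fun i => T (g i)) x ^ q ≤ ∫⁻ x : E n, (2 : ℝ≥0∞) ^ q *
        ((2 : ℝ≥0∞) ^ (q - 1) *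
        (SQ s (fun i => T (Pt 1 (g i))) x ^ q + SQ s (fun i => T (Pt (-1) (g i))) x ^ q)) := by
        apply lintegral_mono
        intro x
        simp only
        have h3 : SQ s (fun i => T (g i)) x ≤ 2 * (SQ s (fun i => T (Pt 1 (g i))) x +
            SQ s (fun i => T (Pt (-1) (g i))) x) := by
          unfold SQ
          rw [← Finset.sum_add_distrib, Finset.mul_sum]
          apply Finset.sum_le_sum
          intro i hi
          beta_reduce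
          rw [T_split (hint i hi) x]
          exact (ENNReal.rpow_le_rpow (enorm_add_le _ _) (by norm_num)).trans (sq_add_le _ _)
        refine (ENNReal.rpow_le_rpow h3 hq0.le).trans ?_
        rw [ENNReal.mul_rpow_of_nonneg _ _ hq0.le]
        exact mul_le_mul' le_rfl (ENNReal.rpow_add_le_mul_rpow_add_rpow _ _ hq1.le)
    _ = (2 : ℝ≥0∞) ^ q * ((2 : ℝ≥0∞) ^ (q - 1) *
        ((∫⁻ x : E n, SQ s (fun i => T (Pt 1 (g i))) x ^ q) +
        (∫⁻ x : E n, SQ s (fun i => T (Pt (-1) (g i))) x ^ q))) := by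
        rw [lintegral_const_mul' _ _ ht2, lintegral_const_mul' _ _ ht, lintegral_add_left hm1]
    _ ≤ (2 : ℝ≥0∞) ^ q * ((2 : ℝ≥0∞) ^ (q - 1) * (ENNReal.ofReal C * ((4 : ℝ≥0∞) ^ q * N) +
        ENNReal.ofReal C * ((4 : ℝ≥0∞) ^ q * N))) := by gcongr
    _ = _ := by
        have e1 : (2 : ℝ≥0∞) ^ (q - 1) = ENNReal.ofReal (2 ^ (q - 1)) := by
          rw [← ENNReal.ofReal_rpow_of_pos (by norm_num), ENNReal.ofReal_ofNat]
        have e2 : (2 : ℝ≥0∞) ^ q = ENNReal.ofReal (2 ^ q) := by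
          rw [← ENNReal.ofReal_rpow_of_pos (by norm_num), ENNReal.ofReal_ofNat]
        have e3 : (4 : ℝ≥0∞) ^ q = ENNReal.ofReal (4 ^ q) := by
          rw [← ENNReal.ofReal_rpow_of_pos (by norm_num), ENNReal.ofReal_ofNat]
        rw [e1, e2, e3, ENNReal.ofReal_mul (p := 2 ^ q) (by positivity),
          ENNReal.ofReal_mul (p := 2 ^ (q - 1)) (by positivity),
          ENNReal.ofReal_mul (p := 2) (by norm_num),
          ENNReal.ofReal_mul (p := C) hC.le, ENNReal.ofReal_ofNat]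
        ring

end Pool.Agent.W5h46.LS
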