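import Mathlib
import Pool.Agent.W5h46.LS.V5
set_option autoImplicit false

/-! Vector valued estimates: the sphere form. -/

namespace Pool.Agent.W5h46.LS

open MeasureTheory Measure Set Metric
open Pool.Agent.H789R2.FR (E sg sg_finite sg_ae sg_inv T polar)
open Pool.Agent.H789R2.FR.L2 (measurable_T)
open Pool.Agent.W5h55.SH (sig chr scale_int chr_meas chr_enorm sig_finite)
open scoped ENNReal RealInnerProductSpace

variable {n : ℕ}

/-- the degree `k` occurs in `g` -/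
def Occ {n : ℕ} (g : sphere (0 : E n) 1 → ℂ) (k : ℕ) : Prop :=
  ∃ Q : MvPolynomial (Fin n) ℂ, Q.IsHomogeneous k ∧
    ∑ i, MvPolynomial.pderiv i (MvPolynomial.pderiv i Q) = 0 ∧
    ∫ x : sphere (0 : E n) 1, g x * MvPolynomial.eval (fun i => (((x : E n) i : ℝ) : ℂ)) Q
      ∂(sig n) ≠ 0

/-- gaps -/
def GapsS {n : ℕ} (c δ : ℝ) (g : sphere (0 : E n) 1 → ℂ) : Prop :=
  ∀ k l : ℕ, Occ g k → Occ g l → (Even k ↔ Even l) → k < l →
    c * (k : ℝ) ^ (1 - δ) ≤ (l : ℝ) - k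

lemma GapsS.mono {c δ δ' : ℝ} {g : sphere (0 : E n) 1 → ℂ} (h : GapsS c δ' g) (hc : 0 < c)
    (hδ : δ' ≤ δ) : GapsS (min c 1) δ g := by
  intro k l hk hl hpar hkl
  have h1 := h k l hk hl hpar hkl
  have hm : 0 < min c 1 := lt_min hc one_pos
  rcases Nat.eq_zero_or_pos k with h0 | h0
  · subst h0
    have hl1 : (1 : ℝ) ≤ l := by exact_mod_cast hkl
    have h2 : ((0 : ℕ) : ℝ) ^ (1 - δ) ≤ 1 := by
      rw [Nat.cast_zero]
      exact Real.zero_rpow_le_one _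
    calc min c 1 * ((0 : ℕ) : ℝ) ^ (1 - δ) ≤ 1 * 1 :=
          mul_le_mul (min_le_right _ _) h2 (by positivity) (by norm_num)
      _ ≤ _ := by push_cast; linarith
  · have hk1 : (1 : ℝ) ≤ k := by exact_mod_cast h0
    refine le_trans ?_ h1
    exact mul_le_mul (min_le_left _ _) (Real.rpow_le_rpow_of_exponent_le hk1 (by linarith))
      (by positivity) hc.le

/-- measurable extension to the whole space -/
lemma extend_exists (g : sphere (0 : E n) 1 → ℂ) (hg : AEStronglyMeasurable g (sig n)) :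
    ∃ G : E n → ℂ, Measurable G ∧ ∀ᵐ x : sphere (0 : E n) 1 ∂(sig n), G (x : E n) = g x := by
  obtain ⟨g0, hg0, hgg⟩ := hg
  refine ⟨Function.extend Subtype.val g0 0,
    (MeasurableEmbedding.subtype_coe isClosed_sphere.measurableSet).measurable_extend
      hg0.measurable measurable_zero, ?_⟩
  filter_upwards [hgg] with x hx
  rw [Subtype.val_injective.extend_apply, hx]

lemma sg_lint (f : E n → ℝ≥0∞) (hf : Measurable f) : ∫⁻ x, f x ∂(sg n) =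
    ∫⁻ x : sphere (0 : E n) 1, f (x : E n) ∂(sig n) := by
  rw [sg, lintegral_map hf measurable_subtype_coe, sig]

lemma sg_int (f : E n → ℂ) (hf : Measurable f) : ∫ x, f x ∂(sg n) =
    ∫ x : sphere (0 : E n) 1, f (x : E n) ∂(sig n) := by
  rw [sg, integral_map measurable_subtype_coe.aemeasurable hf.aestronglyMeasurable, sig]

/-- the degrees which do not occur have vanishing projections -/
lemma van_of_occ (g : sphere (0 : E n) 1 → ℂ) (G : E n → ℂ) (hGm : Measurable G)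
    (hGg : ∀ᵐ x : sphere (0 : E n) 1 ∂(sig n), G (x : E n) = g x) :
    ∀ k, k ∉ {k | Occ g k} → ∀ x : E n, ‖x‖ = 1 → Yk G k x = 0 := by
  intro k hk x hx
  have hk' : ¬ Occ g k := hk
  unfold Yk
  have hkm : Measurable fun y : E n => G y * (Zg (lam n) (⟪x, y⟫ : ℝ) k : ℂ) :=
    hGm.mul (ker_meas1 k x)
  rw [sg_int _ hkm]
  by_contra hne
  apply hk'
  refine ⟨MvPolynomial.C (((k : ℝ) + lam n) / lam n : ℂ) * Zq x k, C_mul_hom _ (Zq_hom x k),
    ?_, ?_⟩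
  · have h1 : Lap (MvPolynomial.C (((k : ℝ) + lam n) / lam n : ℂ) * Zq x k) = 0 := by
      rw [Lap_C]
      have h2 : Lap (Zq x k) = 0 := Zq_harm x hx k
      rw [h2, mul_zero]
    exact h1
  · intro h0
    apply hne
    rw [← h0]
    apply integral_congr_ae
    filter_upwards [hGg] with y hy
    have hy1 : ‖(y : E n)‖ = 1 := by
      have := y.2
      rwa [mem_sphere_zero_iff_norm] at this
    have h3 : MvPolynomial.eval (fun i => (((y : E n) i : ℝ) : ℂ))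
        (MvPolynomial.C (((k : ℝ) + lam n) / lam n : ℂ) * Zq x k) =
        (Zg (lam n) (⟪x, (y : E n)⟫ : ℝ) k : ℂ) := by
      have h4 := ev_Zq x (y : E n) hy1 k
      have h5 : MvPolynomial.eval (fun i => (((y : E n) i : ℝ) : ℂ)) (Zq x k) =
          (Cg (lam n) (⟪x, (y : E n)⟫ : ℝ) k : ℂ) := h4
      rw [map_mul, MvPolynomial.eval_C, h5]
      unfold Zg
      push_cast
      ring
    rw [h3, hy]

lemma chr_T (g : sphere (0 : E n) 1 → ℂ) (G : E n → ℂ) (hGm : Measurable G)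
    (hGg : ∀ᵐ x : sphere (0 : E n) 1 ∂(sig n), G (x : E n) = g x) (ξ : E n) :
    ∫ x, chr ξ x * g x ∂(sig n) = T G ((2 * Real.pi) • ξ) := by
  unfold T
  have hm : Measurable fun w : E n =>
      Complex.exp (-((⟪(2 * Real.pi) • ξ, w⟫ : ℝ) : ℂ) * Complex.I) * G w := by
    have h2 : Measurable fun w : E n =>
        Complex.exp (-((⟪(2 * Real.pi) • ξ, w⟫ : ℝ) : ℂ) * Complex.I) :=
      (by fun_prop : Continuous _).measurable
    exact h2.mul hGm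
  rw [sg_int _ hm]
  apply integral_congr_ae
  filter_upwards [hGg] with x hx
  unfold chr
  rw [hx, inner_smul_left, real_inner_comm]
  simp

/-- **Vector valued estimate on the sphere.** -/
theorem vec_core (hn : 3 ≤ n) (p : ℝ) (hp : 2 * (n : ℝ) / (n - 1) < p) :
    ∃ δ : ℝ, 0 < δ ∧ δ ≤ 1 ∧ ∀ c : ℝ, 0 < c → ∃ C : ℝ, 0 < C ∧
    ∀ (s : Finset ℕ) (g : ℕ → sphere (0 : E n) 1 → ℂ),
    (∀ i, AEStronglyMeasurable (g i) (sig n)) → (∀ i ∈ s, GapsS c δ (g i)) →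
    ∫⁻ ξ : E n, (∑ i ∈ s, ‖∫ x, chr ξ x * g i x ∂(sig n)‖ₑ ^ (2 : ℝ)) ^ (p / 2) ≤
      ENNReal.ofReal C * ∫⁻ x, (∑ i ∈ s, ‖g i x‖ₑ ^ (2 : ℝ)) ^ (p / 2) ∂(sig n) := by
  have hn' : (3 : ℝ) ≤ n := by exact_mod_cast hn
  have hp2 : 2 < p := by
    refine lt_of_le_of_lt ?_ hp
    rw [le_div_iff₀ (by linarith)]
    linarith
  have hsf := sg_finite n
  obtain ⟨δ, hδ0, hδ1, h⟩ := SQ_Lp' hn p hp hp2
  refine ⟨δ, hδ0, hδ1, fun c hc => ?_⟩
  obtain ⟨C, hC, hT⟩ := h c hc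
  refine ⟨C, hC, fun s g hg hgap => ?_⟩
  choose G hGm hGg using fun i => extend_exists (g i) (hg i)
  have h1 := hT s G hGm (fun i hi => ⟨{k | Occ (g i) k}, fun k hk l hl hpar hkl =>
    hgap i hi k l hk hl hpar hkl, van_of_occ (g i) (G i) (hGm i) (hGg i)⟩)
  have hm1 : Measurable fun x : E n => SQ s (fun i => T (G i)) x ^ (p / 2) :=
    (SQ_meas s fun i => (measurable_T (G i) (hGm i)).measurable).pow_const _
  have hm2 : Measurable fun x : E n => SQ s G x ^ (p / 2) := (SQ_meas s hGm).pow_const _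
  have e1 : ∀ ξ : E n, (∑ i ∈ s, ‖∫ x, chr ξ x * g i x ∂(sig n)‖ₑ ^ (2 : ℝ)) ^ (p / 2) =
      SQ s (fun i => T (G i)) ((2 * Real.pi) • ξ) ^ (p / 2) := by
    intro ξ
    unfold SQ
    congr 1
    apply Finset.sum_congr rfl
    intro i _
    rw [chr_T (g i) (G i) (hGm i) (hGg i) ξ]
  have hall : ∀ᵐ x : sphere (0 : E n) 1 ∂(sig n), ∀ i, G i (x : E n) = g i x := ae_all_iff.2 hGg
  have e2 : ∫⁻ x, (∑ i ∈ s, ‖g i x‖ₑ ^ (2 : ℝ)) ^ (p / 2) ∂(sig n) =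
      ∫⁻ x, SQ s G x ^ (p / 2) ∂(sg n) := by
    rw [sg_lint _ hm2]
    apply lintegral_congr_ae
    filter_upwards [hall] with x hx
    unfold SQ
    simp_rw [hx]
  simp_rw [e1]
  rw [scale_int (fun x => SQ s (fun i => T (G i)) x ^ (p / 2)) hm1, e2]
  have h5 : ENNReal.ofReal ((2 * Real.pi) ^ n)⁻¹ ≤ 1 := by
    rw [ENNReal.ofReal_le_one]
    apply inv_le_one_of_one_le₀
    apply one_le_pow₀
    linarith [Real.pi_gt_three]
  calc _ ≤ 1 * ∫⁻ x : E n, SQ s (fun i => T (G i)) x ^ (p / 2) := mul_le_mul' h5 le_rfl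
    _ = ∫⁻ x : E n, SQ s (fun i => T (G i)) x ^ (p / 2) := one_mul _
    _ ≤ _ := h1

/-- infinite families -/
theorem vec_core_tsum (hn : 3 ≤ n) (p : ℝ) (hp : 2 * (n : ℝ) / (n - 1) < p) :
    ∃ δ : ℝ, 0 < δ ∧ δ ≤ 1 ∧ ∀ c : ℝ, 0 < c → ∃ C : ℝ, 0 < C ∧
    (∀ (s : Finset ℕ) (g : ℕ → sphere (0 : E n) 1 → ℂ),
    (∀ i, AEStronglyMeasurable (g i) (sig n)) → (∀ i ∈ s, GapsS c δ (g i)) →
    ∫⁻ ξ : E n, (∑ i ∈ s, ‖∫ x, chr ξ x * g i x ∂(sig n)‖ₑ ^ (2 : ℝ)) ^ (p / 2) ≤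
      ENNReal.ofReal C * ∫⁻ x, (∑ i ∈ s, ‖g i x‖ₑ ^ (2 : ℝ)) ^ (p / 2) ∂(sig n)) ∧
    ∀ (g : ℕ → sphere (0 : E n) 1 → ℂ),
    (∀ i, AEStronglyMeasurable (g i) (sig n)) → (∀ i, GapsS c δ (g i)) →
    ∫⁻ ξ : E n, (∑' i, ‖∫ x, chr ξ x * g i x ∂(sig n)‖ₑ ^ (2 : ℝ)) ^ (p / 2) ≤
      ENNReal.ofReal C * ∫⁻ x, (∑' i, ‖g i x‖ₑ ^ (2 : ℝ)) ^ (p / 2) ∂(sig n) := by
  have hn' : (3 : ℝ) ≤ n := by exact_mod_cast hn
  have hp2 : 2 < p := by
    refine lt_of_le_of_lt ?_ hp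
    rw [le_div_iff₀ (by linarith)]
    linarith
  obtain ⟨δ, hδ0, hδ1, h⟩ := vec_core (n := n) hn p hp
  refine ⟨δ, hδ0, hδ1, fun c hc => ?_⟩
  obtain ⟨C, hC, hT⟩ := h c hc
  refine ⟨C, hC, hT, fun g hg hgap => ?_⟩
  have hsup : ∀ a : ℕ → ℝ≥0∞, (∑' i, a i) ^ (p / 2) =
      ⨆ N, (∑ i ∈ Finset.range N, a i) ^ (p / 2) := by
    intro a
    rw [ENNReal.tsum_eq_iSup_nat]
    have hm : Monotone fun x : ℝ≥0∞ => x ^ (p / 2) := ENNReal.monotone_rpow_of_nonneg (by linarith)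
    have hmono : Monotone fun N => ∑ i ∈ Finset.range N, a i := fun M N hMN =>
      Finset.sum_le_sum_of_subset (Finset.range_mono hMN)
    have h1 := tendsto_atTop_iSup hmono
    have h2 := ((ENNReal.continuous_rpow_const (y := p / 2)).tendsto _).comp h1
    have h3 := tendsto_atTop_iSup (hm.comp hmono)
    exact tendsto_nhds_unique h2 h3
  have hTm : ∀ i, Measurable fun ξ : E n => ‖∫ x, chr ξ x * g i x ∂(sig n)‖ₑ ^ (2 : ℝ) := fun i =>
    (Pool.Agent.W5h55.SH.ftm (g i) (hg i)).enorm.pow_const _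
  simp_rw [hsup]
  rw [lintegral_iSup]
  · apply iSup_le
    intro N
    refine (hT (Finset.range N) g hg (fun i _ => hgap i)).trans ?_
    apply mul_le_mul' le_rfl
    apply lintegral_mono
    intro x
    exact le_iSup (fun N => (∑ i ∈ Finset.range N, ‖g i x‖ₑ ^ (2 : ℝ)) ^ (p / 2)) N
  · intro N
    exact (Finset.measurable_fun_sum _ fun i _ => hTm i).pow_const _
  · intro M N hMN ξ
    exact ENNReal.rpow_le_rpow (Finset.sum_le_sum_of_subset (Finset.range_mono hMN)) (by linarith)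

end Pool.Agent.W5h46.LS
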